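import Pool.Agent.Lib.MP_19b52f_al.EA.Free

/-! Alternating products of elements of two subgroups and the associated reduced words. -/

namespace Pool.Agent.Lib.MP_19b52f_al.EA

open FreeGroup hiding map_mul map_inv map_one

variable {A Ω : Type} [Group A]

/-- `g` is a product of at most `k` elements of the union of the two subgroups. -/
def Syl (G1 G2 : Subgroup A) (k : ℕ) (g : A) : Prop :=
  ∃ L : List A, L.length ≤ k ∧ (∀ x ∈ L, x ∈ G1 ∨ x ∈ G2) ∧ L.prod = g

lemma syl_exists {G1 G2 : Subgroup A} {g : A} (hg : g ∈ G1 ⊔ G2) : ∃ k, Syl G1 G2 k g := by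
  rw [Subgroup.sup_eq_closure] at hg
  induction hg using Subgroup.closure_induction with
  | mem x hx => exact ⟨1, [x], by simp, by simpa using hx, by simp⟩
  | one => exact ⟨0, [], by simp, by simp, by simp⟩
  | mul x y _ _ hx hy =>
    obtain ⟨k, L, _, h2, rfl⟩ := hx
    obtain ⟨k', L', _, h2', rfl⟩ := hy
    refine ⟨_, L ++ L', le_rfl, fun x hx => ?_, by simp⟩
    rcases List.mem_append.mp hx with h | h
    · exact h2 x h
    · exact h2' x h
  | inv x _ hx =>
    obtain ⟨k, L, _, h2, rfl⟩ := hx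
    refine ⟨_, (L.map (·⁻¹)).reverse, le_rfl, fun x hx => ?_, by rw [List.prod_inv_reverse]⟩
    simp only [List.mem_reverse, List.mem_map] at hx
    obtain ⟨y, hy, rfl⟩ := hx
    simpa using h2 y hy

lemma Syl.mem_sup {G1 G2 : Subgroup A} {k : ℕ} {g : A} (h : Syl G1 G2 k g) : g ∈ G1 ⊔ G2 := by
  obtain ⟨L, _, h2, rfl⟩ := h
  refine Subgroup.list_prod_mem _ (fun x hx => ?_)
  rcases h2 x hx with h | h
  · exact Subgroup.mem_sup_left h
  · exact Subgroup.mem_sup_right h

lemma Syl.one {G1 G2 : Subgroup A} {g : A} (h : Syl G1 G2 1 g) : g ∈ G1 ∨ g ∈ G2 := by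
  obtain ⟨L, h1, h2, rfl⟩ := h
  rcases L with _ | ⟨x, _ | ⟨y, L⟩⟩
  · exact Or.inl (one_mem _)
  · simpa using h2
  · simp at h1

/-- Neighbours are never in the same subgroup. -/
def Alt (G1 G2 : Subgroup A) (L : List A) : Prop :=
  L.IsChain (fun a b => ¬ (a ∈ G1 ∧ b ∈ G1) ∧ ¬ (a ∈ G2 ∧ b ∈ G2))

lemma alt_or_shorter {G1 G2 : Subgroup A} (L : List A) (h : ∀ x ∈ L, x ∈ G1 ∨ x ∈ G2) :
    Alt G1 G2 L ∨ ∃ L' : List A, L'.length + 1 = L.length ∧ (∀ x ∈ L', x ∈ G1 ∨ x ∈ G2) ∧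
      L'.prod = L.prod := by
  induction L with
  | nil => exact Or.inl List.isChain_nil
  | cons a L ih =>
    rcases L with _ | ⟨b, L⟩
    · exact Or.inl (List.isChain_singleton a)
    rcases ih (fun x hx => h x (List.mem_cons_of_mem _ hx)) with h1 | ⟨L', h1, h2, h3⟩
    · by_cases hab : ¬ (a ∈ G1 ∧ b ∈ G1) ∧ ¬ (a ∈ G2 ∧ b ∈ G2)
      · exact Or.inl (List.isChain_cons_cons.mpr ⟨hab, h1⟩)
      · refine Or.inr ⟨(a * b) :: L, by simp, fun x hx => ?_, by simp [mul_assoc]⟩
        rcases List.mem_cons.mp hx with rfl | hx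
        · by_cases h1 : a ∈ G1 ∧ b ∈ G1
          · exact Or.inl (mul_mem h1.1 h1.2)
          · have h2 : a ∈ G2 ∧ b ∈ G2 := by tauto
            exact Or.inr (mul_mem h2.1 h2.2)
        · exact h x (by simp [hx])
    · refine Or.inr ⟨a :: L', by simp [h1], fun x hx => ?_, by simp [h3]⟩
      rcases List.mem_cons.mp hx with rfl | hx
      · exact h _ (by simp)
      · exact h2 x hx

/-- The hypotheses on the word function and the edge labels. -/
structure AltData (G1 G2 : Subgroup A) (f : A → FreeGroup Ω) (lam : A → Ω) : Prop where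
  h1 : f 1 = 1
  h2 : ∀ g g', g' ∈ G1 → f (g * g') = f g
  h3 : ∀ g g', g' ∈ G2 → f (g * g') = f g * of (lam g) * (of (lam (g * g')))⁻¹
  h4 : ∀ g g', g' ∈ G1 ∨ g' ∈ G2 → lam (g * g') = lam g → g' ∈ G1 ∧ g' ∈ G2

open Classical in
/-- The word attached to a list of syllables, read from the base element `p`. -/
noncomputable def altWord (G1 : Subgroup A) (lam : A → Ω) : A → List A → List (Ω × Bool)
  | _, [] => []
  | p, g :: L => (if g ∈ G1 then [] else [(lam p, true), (lam (p * g), false)]) ++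
      altWord G1 lam (p * g) L

variable {G1 G2 : Subgroup A} {f : A → FreeGroup Ω} {lam : A → Ω}

lemma AltData.mk_altWord (H : AltData G1 G2 f lam) (L : List A) (h : ∀ x ∈ L, x ∈ G1 ∨ x ∈ G2)
    (p : A) : f (p * L.prod) = f p * FreeGroup.mk (altWord G1 lam p L) := by
  induction L generalizing p with
  | nil => simp [altWord, ← one_eq_mk]
  | cons g L ih =>
    rw [List.prod_cons, ← mul_assoc, ih (fun x hx => h x (List.mem_cons_of_mem _ hx)), altWord,
      ← mul_mk]
    by_cases hg : g ∈ G1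
    · rw [if_pos hg, H.h2 _ _ hg, ← one_eq_mk, one_mul]
    · have hg2 : g ∈ G2 := (h g (by simp)).resolve_left hg
      rw [if_neg hg, H.h3 _ _ hg2]
      have : FreeGroup.mk [(lam p, true), (lam (p * g), false)] = of (lam p) * (of (lam (p * g)))⁻¹ := rfl
      rw [this]; group

lemma AltData.reduced (H : AltData G1 G2 f lam) (L : List A) (h : ∀ x ∈ L, x ∈ G1 ∨ x ∈ G2)
    (hA : Alt G1 G2 L) (p : A) : IsReduced (altWord G1 lam p L) ∧
      ∀ g L', L = g :: L' → g ∈ G1 → g ∉ G2 →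
        IsReduced ((lam p, false) :: altWord G1 lam p L) := by
  induction L generalizing p with
  | nil => simp [altWord]
  | cons g L ih =>
    have hA' : Alt G1 G2 L := List.IsChain.tail hA
    have ih' := ih (fun x hx => h x (List.mem_cons_of_mem _ hx)) hA' (p * g)
    by_cases hg : g ∈ G1
    · have e : altWord G1 lam p (g :: L) = altWord G1 lam (p * g) L := by simp [altWord, hg]
      rw [e]
      refine ⟨ih'.1, ?_⟩
      rintro g' L' ⟨rfl, rfl⟩ - hg2
      rcases L with _ | ⟨b, L⟩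
      · simp [altWord]
      · have hb : b ∉ G1 := fun hb => (List.isChain_cons_cons.mp hA).1.1 ⟨hg, hb⟩
        have h5 := ih'.1
        rw [altWord, if_neg hb] at h5 ⊢
        refine isReduced_cons_cons.mpr ⟨fun h6 => ?_, h5⟩
        exact absurd (H.h4 p g (Or.inl hg) h6.symm).2 hg2
    · have hg2 : g ∈ G2 := (h g (by simp)).resolve_left hg
      refine ⟨?_, ?_⟩
      · rw [altWord, if_neg hg]
        refine isReduced_cons_cons.mpr ⟨fun h6 => ?_, ?_⟩
        · exact absurd (H.h4 p g (Or.inr hg2) h6.symm).1 hg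
        · rcases L with _ | ⟨b, L⟩
          · simp [altWord]
          · have hb : b ∉ G2 := fun hb => (List.isChain_cons_cons.mp hA).1.2 ⟨hg2, hb⟩
            exact ih'.2 b L rfl ((h b (by simp)).resolve_right hb) hb
      · rintro g' L' ⟨rfl, rfl⟩ hg'
        exact absurd hg' hg

lemma first_mem_altWord (a b : A) (L : List A) (h : ∀ x ∈ a :: b :: L, x ∈ G1 ∨ x ∈ G2)
    (hA : Alt G1 G2 (a :: b :: L)) (p : A) :
    ∃ U V e, altWord G1 lam p (a :: b :: L) = U ++ (lam (p * a), e) :: V ∧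
      ∀ x ∈ altWord G1 lam (p * a * b) L, x ∈ V := by
  have hab := (List.isChain_cons_cons.mp hA).1
  by_cases ha : a ∈ G1
  · have hb : b ∉ G1 := fun hb => hab.1 ⟨ha, hb⟩
    refine ⟨[], (lam (p * a * b), false) :: altWord G1 lam (p * a * b) L, true, ?_, ?_⟩
    · simp [altWord, ha, hb]
    · intro x hx; simp [hx]
  · have ha2 : a ∈ G2 := (h a (by simp)).resolve_left ha
    have hb : b ∈ G1 := (h b (by simp)).resolve_right (fun hb => hab.2 ⟨ha2, hb⟩)
    refine ⟨[(lam p, true)], altWord G1 lam (p * a * b) L, false, ?_, fun x hx => hx⟩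
    simp [altWord, ha, hb]

lemma last_mem_altWord (L : List A) (a b : A) (h : ∀ x ∈ L ++ [a, b], x ∈ G1 ∨ x ∈ G2)
    (hA : Alt G1 G2 (L ++ [a, b])) (p : A) :
    ∃ e, (lam (p * (L.prod * a)), e) ∈ altWord G1 lam p (L ++ [a, b]) := by
  induction L generalizing p with
  | nil =>
    obtain ⟨U, V, e, h1, _⟩ := first_mem_altWord (lam := lam) a b [] h hA p
    exact ⟨e, by simp [h1]⟩
  | cons g L ih =>
    obtain ⟨e, he⟩ := ih (fun x hx => h x (List.mem_cons_of_mem _ hx)) (List.IsChain.tail hA)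
      (p * g)
    refine ⟨e, ?_⟩
    rw [List.cons_append, altWord, List.prod_cons]
    refine List.mem_append_right _ ?_
    simpa [mul_assoc] using he

/-- The stripping alternative. -/
lemma AltData.strip (H : AltData G1 G2 f lam) {X Y : Set Ω} {k : ℕ} {g : A}
    (hg : Syl G1 G2 (k + 2) g) {x y : FreeGroup Ω} (hx : x ∈ gen X) (hy : y ∈ gen Y)
    (hf : f g = x * y) :
    Syl G1 G2 (k + 1) g ∨
    (∃ g1 r, (g1 ∈ G1 ∨ g1 ∈ G2) ∧ g = g1 * r ∧ lam g1 ∈ X ∧
      ∀ h, h ∈ G1 → h ∈ G2 → Syl G1 G2 (k + 1) (h * r)) ∨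
    (∃ r g2, (g2 ∈ G1 ∨ g2 ∈ G2) ∧ g = r * g2 ∧ lam r ∈ Y ∧
      ∀ h, h ∈ G1 → h ∈ G2 → Syl G1 G2 (k + 1) (r * h)) := by
  obtain ⟨L, h1, h2, rfl⟩ := hg
  rcases alt_or_shorter L h2 with hA | ⟨L', h3, h4, h5⟩
  swap
  · exact Or.inl ⟨L', by omega, h4, h5⟩
  by_cases hl : L.length ≤ k + 1
  · exact Or.inl ⟨L, hl, h2, rfl⟩
  right
  have hW := H.mk_altWord L h2 1
  rw [one_mul, H.h1, one_mul, hf] at hW
  obtain ⟨hp, ha⟩ := reduced_split (H.reduced L h2 hA 1).1 hx hy hW.symm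
  obtain ⟨a, b, L1, e1⟩ : ∃ a b L1, L = a :: b :: L1 := by
    rcases L with _ | ⟨a, _ | ⟨b, L1⟩⟩
    · simp at hl
    · simp at hl
    · exact ⟨a, b, L1, rfl⟩
  obtain ⟨L2, c, d, e2⟩ : ∃ L2 c d, L = L2 ++ [c, d] := by
    rcases List.eq_nil_or_concat L with h | ⟨L3, d, rfl⟩
    · simp [h] at hl
    rcases List.eq_nil_or_concat L3 with h | ⟨L4, c, rfl⟩
    · simp [h] at hl
    exact ⟨L4, c, d, by simp⟩
  have hmul : ∀ {h z : A}, h ∈ G1 → h ∈ G2 → z ∈ G1 ∨ z ∈ G2 →
      (h * z ∈ G1 ∨ h * z ∈ G2) ∧ (z * h ∈ G1 ∨ z * h ∈ G2) := by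
    intro h z h1 h2 hz
    rcases hz with hz | hz
    · exact ⟨Or.inl (mul_mem h1 hz), Or.inl (mul_mem hz h1)⟩
    · exact ⟨Or.inr (mul_mem h2 hz), Or.inr (mul_mem hz h2)⟩
  have key : lam a ∈ X ∨ lam (L2.prod * c) ∈ Y := by
    obtain ⟨U, V, e, h6, h7⟩ := first_mem_altWord (lam := lam) a b L1 (e1 ▸ h2) (e1 ▸ hA) 1
    rw [← e1, one_mul] at h6
    have h8 : ∀ z ∈ V, lam a ∈ X ∨ z.1 ∈ Y := by
      rw [h6] at hp
      exact (List.pairwise_cons.mp (List.pairwise_append.mp hp).2.1).1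
    rcases L2 with _ | ⟨a', _ | ⟨b', L2⟩⟩
    · have : a = c := by
        rw [e1] at e2; simpa using congrArg List.head? e2
      subst this
      simpa using ha (lam a, e) (by rw [h6]; simp)
    · rw [e1] at e2
      simp only [List.cons_append, List.nil_append, List.cons.injEq] at e2
      obtain ⟨rfl, rfl, rfl⟩ := e2
      have hab := (List.isChain_cons_cons.mp (e1 ▸ hA : Alt G1 G2 [a, b, d]))
      have hbd := (List.isChain_cons_cons.mp hab.2).1
      by_cases ha1 : a ∈ G1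
      · have hb : b ∉ G1 := fun hb => hab.1.1 ⟨ha1, hb⟩
        have : altWord G1 lam 1 L = (lam a, true) :: (lam (a * b), false) ::
            altWord G1 lam (a * b) [d] := by simp [e1, altWord, ha1, hb]
        rw [this] at hp
        simpa using (List.pairwise_cons.mp hp).1 (lam (a * b), false) (by simp)
      · have ha2 : a ∈ G2 := (h2 a (by simp [e1])).resolve_left ha1
        have hb : b ∈ G1 := (h2 b (by simp [e1])).resolve_right (fun hb => hab.1.2 ⟨ha2, hb⟩)
        have hd : d ∉ G1 := fun hd => hbd.1 ⟨hb, hd⟩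
        simpa using h8 (lam (a * b), true) (h7 _ (by simp [altWord, hd]))
    · rw [e1] at e2
      simp only [List.cons_append, List.cons.injEq] at e2
      obtain ⟨rfl, rfl, rfl⟩ := e2
      have hA1 : Alt G1 G2 (a :: b :: (L2 ++ [c, d])) := e1 ▸ hA
      have hA2 : Alt G1 G2 (b :: (L2 ++ [c, d])) := List.IsChain.tail hA1
      obtain ⟨e', he'⟩ := last_mem_altWord (lam := lam) L2 c d
        (fun x hx => h2 x (by rw [e1]; exact List.mem_cons_of_mem _ (List.mem_cons_of_mem _ hx)))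
        (List.IsChain.tail hA2) (1 * a * b)
      simpa [mul_assoc] using h8 _ (h7 _ he')
  rcases key with key | key
  · refine Or.inl ⟨a, (b :: L1).prod, h2 a (by simp [e1]), by simp [e1], key, fun h k1 k2 => ?_⟩
    refine ⟨(h * b) :: L1, by simpa [e1] using h1, fun z hz => ?_, by simp [mul_assoc]⟩
    rcases List.mem_cons.mp hz with rfl | hz
    · exact (hmul k1 k2 (h2 b (by simp [e1]))).1
    · exact h2 z (by simp [e1, hz])
  · refine Or.inr ⟨L2.prod * c, d, h2 d (by simp [e2]), by simp [e2, mul_assoc], key,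
      fun h k1 k2 => ?_⟩
    refine ⟨L2 ++ [c * h], by simpa [e2] using h1, fun z hz => ?_, by simp [mul_assoc]⟩
    rcases List.mem_append.mp hz with hz | hz
    · exact h2 z (by simp [e2, hz])
    · rw [List.mem_singleton.mp hz]
      exact (hmul k1 k2 (h2 c (by simp [e2]))).2

lemma AltData.mem_of_eq_one (H : AltData G1 G2 f lam) {g : A} (hg : g ∈ G1 ⊔ G2) (hf : f g = 1) :
    g ∈ G1 := by
  obtain ⟨k, hk⟩ := syl_exists hg
  have h1 : ∀ k, Syl G1 G2 (k + 1) g → g ∈ G1 ∨ g ∈ G2 := by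
    intro k
    induction k with
    | zero => exact Syl.one
    | succ k ih =>
      intro hk
      rcases H.strip (X := ∅) (Y := ∅) hk (one_mem _) (one_mem _) (by simpa using hf) with
        h | ⟨_, _, _, _, h, _⟩ | ⟨_, _, _, _, h, _⟩
      · exact ih h
      · exact h.elim
      · exact h.elim
  obtain ⟨L, h2, h3, h4⟩ := hk
  rcases h1 k ⟨L, by omega, h3, h4⟩ with h | h
  · exact h
  · have h5 := H.h3 1 g h
    rw [one_mul, hf, H.h1, one_mul, eq_comm, mul_inv_eq_one] at h5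
    exact (H.h4 1 g (Or.inr h) (by rw [one_mul]; exact (of_injective h5).symm)).1

end Pool.Agent.Lib.MP_19b52f_al.EA
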