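import Pool.Agent.Lib.MP_19b52f_al.EA.Data

/-! The amalgam step along a pair of blocks with label infinity. -/

namespace Pool.Agent.Lib.MP_19b52f_al.EA

open Setup
open FreeGroup hiding map_mul map_inv map_one lift_unique
open SemidirectProduct (inl inr)
open scoped Pointwise

/-- A graph with new pairwise non-adjacent vertices and prescribed links. -/
def coneG {Λ C : Type} (Γ : SimpleGraph Λ) (L : C → Set Λ) : SimpleGraph (Λ ⊕ C) where
  Adj
    | .inl a, .inl b => Γ.Adj a b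
    | .inl a, .inr c => a ∈ L c
    | .inr c, .inl a => a ∈ L c
    | .inr _, .inr _ => False
  symm := ⟨by
    rintro (a | a) (b | b) h
    · exact h.symm
    · exact h
    · exact h
    · exact h⟩
  loopless := ⟨by
    rintro (a | a) h
    · exact h.ne rfl
    · exact h⟩

/-- Elements of the semidirect product with both parts restricted. -/
def sdSub {D Ω : Type} [Group D] [MulAction D Ω] (X : Set Ω) (P : Subgroup D)
    (h : ∀ d ∈ P, ∀ ω ∈ X, d • ω ∈ X) : Subgroup (SD D Ω) where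
  carrier := {x | x.left ∈ gen X ∧ x.right ∈ P}
  one_mem' := ⟨one_mem _, one_mem _⟩
  mul_mem' := fun {_ _} hx hy =>
    ⟨mul_mem hx.1 (freeAct_mem_gen _ (h _ hx.2) hy.1), mul_mem hx.2 hy.2⟩
  inv_mem' := fun {_} hx => ⟨freeAct_mem_gen _ (h _ (inv_mem hx.2)) (inv_mem hx.1), inv_mem hx.2⟩

variable {S I : Type} {B : Setup S I} {n : ℕ} {K : Type} [Group K]

lemma good_amalg (dg : K →* Multiplicative ℤ) (τ : K) (hτ : dg τ = Multiplicative.ofAdd 1)
    [NeZero n] {J : Set I} {u v : I} (huv : u ≠ v)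
    (hN : ∀ s t, B.β s = u → B.β t = v → B.N s t = 0)
    (g1 : Good B n K (J \ {u})) (g2 : Good B n K (J \ {v})) : Good B n K J := by
  classical
  obtain ⟨D, h1, h2⟩ : ∃ D : Data B n K, (∀ φ, D.Sep (J \ {u}) φ) ∧ ∀ φ, D.Sep (J \ {v}) φ := by
    obtain ⟨D1, h1⟩ := g1
    obtain ⟨D2, h2⟩ := g2
    exact ⟨D1.prod D2, fun φ T U g hg h0 hc => h1 φ T U g hg h0 (Data.prod_left hc),
      fun φ T U g hg h0 hc => h2 φ T U g hg h0 (Data.prod_right hc)⟩
  let H : Set I := {j | j ≠ u ∧ j ≠ v}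
  let cl : (I → ZMod n) → ZMod n × ZMod n := fun φ => (φ u, φ v)
  let rep : ZMod n × ZMod n → I → ZMod n := fun c j =>
    if j = u then c.1 else if j = v then c.2 else 0
  let L : ZMod n × ZMod n → Set D.Λ := fun c => D.V H (rep c)
  have hL : ∀ φ, L (cl φ) = D.V H φ := by
    intro φ
    rw [← D.V_inv H φ (rep (cl φ) - φ) (fun j hj => by
      by_cases e1 : j = u
      · simp [rep, cl, e1]
      · have e2 : j = v := by
          by_contra e2
          exact hj ⟨e1, e2⟩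
        simp [rep, cl, e2, huv.symm]), add_sub_cancel]
  have hcl : ∀ φ ε : I → ZMod n, (∀ j, j ∉ H → ε j = 0) → cl (φ + ε) = cl φ := by
    intro φ ε h
    simp [cl, h u (fun h => h.1 rfl), h v (fun h => h.2 rfl)]
  have hcl' : ∀ φ ε : I → ZMod n, cl (φ + ε) = cl φ → ∀ j, j ∉ H → ε j = 0 := by
    intro φ ε h j hj
    simp only [cl, Pi.add_apply, Prod.mk.injEq, add_eq_left] at h
    by_cases e1 : j = u
    · rw [e1, h.1]
    · have e2 : j = v := by
        by_contra e2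
        exact hj ⟨e1, e2⟩
      rw [e2, h.2]
  let ι : GP D.Γ K →* GP (coneG D.Γ L) K := gpMap Sum.inl (fun _ _ h => h)
  let Ψ : B.A →* Wr (I → ZMod n) (GP (coneG D.Γ L) K) :=
    { toFun := fun g => ⟨fun φ => ι (D.c φ g), B.ab n g⟩
      map_one' := by ext φ <;> simp
      map_mul' := fun g h => by ext φ <;> simp [D.c_mul] }
  let Tt : Wr (I → ZMod n) (GP (coneG D.Γ L) K) :=
    ⟨fun φ => gv (coneG D.Γ L) (Sum.inr (cl φ)) τ, 0⟩
  let Cj : B.A →* Wr (I → ZMod n) (GP (coneG D.Γ L) K) := (MulAut.conj Tt).toMonoidHom.comp Ψ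
  have hCj : ∀ g φ, (Cj g).c φ = gv (coneG D.Γ L) (Sum.inr (cl φ)) τ * ι (D.c φ g) *
      (gv (coneG D.Γ L) (Sum.inr (cl (φ + B.ab n g))) τ)⁻¹ := by
    intro g φ
    simp [Cj, Tt, Ψ]
  have hCja : ∀ g, (Cj g).a = B.ab n g := by
    intro g
    simp [Cj, Tt, Ψ]
  have hH : ∀ g ∈ B.par H, Cj g = Ψ g := by
    intro g hg
    ext1
    · funext φ
      rw [hCj, hcl _ _ (ab_par hg), mul_inv_eq_iff_eq_mul]
      refine (comm_PX (X := Sum.inl '' L (cl φ)) ?_ τ
        (gpMap_mem _ _ (fun x hx => Set.mem_image_of_mem _ hx) (hL φ ▸ D.c_mem hg φ))).eq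
      rintro _ ⟨x, hx, rfl⟩
      exact hx
    · exact hCja g
  let f0 : S → Wr (I → ZMod n) (GP (coneG D.Γ L) K) := fun s =>
    if B.β s = u then Cj (ag B.N s) else Ψ (ag B.N s)
  have hf1 : ∀ s, B.β s ≠ u → f0 s = Ψ (ag B.N s) := fun s hs => if_neg hs
  have hf2 : ∀ s, B.β s ≠ v → f0 s = Cj (ag B.N s) := fun s hs => by
    by_cases h : B.β s = u
    · exact if_pos h
    · rw [hf1 s h, hH _ (ag_mem (show B.β s ∈ H from ⟨h, hs⟩))]
  let Ψ' : B.A →* Wr (I → ZMod n) (GP (coneG D.Γ L) K) := artinLift B.N f0 (fun s t hst h0 => by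
    have hr := ag_rel B.N hst h0
    by_cases h : B.β s ≠ u ∧ B.β t ≠ u
    · rw [hf1 s h.1, hf1 t h.2, ← map_omega, ← map_omega, hr]
    · have h3 : B.β s ≠ v ∧ B.β t ≠ v := by
        by_cases hs : B.β s = u
        · exact ⟨fun e => huv (hs.symm.trans e), fun e => h0 (hN s t hs e)⟩
        · have ht : B.β t = u := by tauto
          exact ⟨fun e => h0 (B.N.symmetric s t ▸ hN t s ht e), fun e => huv (ht.symm.trans e)⟩
      rw [hf2 s h3.1, hf2 t h3.2, ← map_omega, ← map_omega, hr])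
  have k1 : ∀ g ∈ B.par (J \ {u}), Ψ' g = Ψ g := fun g hg =>
    eq_of_par (fun s hs => by rw [artinLift_ag, hf1 s hs.2]) hg
  have k2 : ∀ g ∈ B.par (J \ {v}), Ψ' g = Cj g := fun g hg =>
    eq_of_par (fun s hs => by rw [artinLift_ag, hf2 s hs.2]) hg
  have ka : ∀ g, (Ψ' g).a = B.ab n g := by
    intro g
    have : Wr.aHom.comp Ψ' = Wr.aHom.comp Ψ := artin_ext fun s => by
      simp only [MonoidHom.comp_apply, Ψ', artinLift_ag, f0]
      split_ifs
      · exact congrArg Multiplicative.ofAdd (hCja _)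
      · rfl
    exact congrArg Multiplicative.toAdd (DFunLike.congr_fun this g)
  let CT : Set I → (I → ZMod n) → Set (ZMod n × ZMod n) := fun T φ =>
    {c | (u ∉ T → c.1 = φ u) ∧ (v ∉ T → c.2 = φ v)}
  have hCT : ∀ T φ ε, (∀ j, j ∉ T → ε j = 0) → CT T (φ + ε) = CT T φ := by
    intro T φ ε h
    ext c
    by_cases hu : u ∈ T <;> by_cases hv : v ∈ T <;> simp [CT, hu, hv, h]
  have hCT0 : ∀ T φ, cl φ ∈ CT T φ := fun T φ => ⟨fun _ => rfl, fun _ => rfl⟩
  let D' : Data B n K :=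
    { Λ := D.Λ ⊕ (ZMod n × ZMod n)
      fin := by have := D.fin; infer_instance
      Γ := coneG D.Γ L
      c := fun φ g => (Ψ' g).c φ
      c_mul := fun φ g h => by rw [map_mul, Wr.mul_c, ka]
      V := fun T φ => {x | Sum.elim (· ∈ D.V T φ) (· ∈ CT T φ) x}
      V_inv := fun T φ ε h => by rw [D.V_inv T φ ε h, hCT T φ ε h]
      V_mem := fun T φ s hs => by
        have h3 : ι (D.c φ (ag B.N s)) ∈ PX (coneG D.Γ L) K
            {x | Sum.elim (· ∈ D.V T φ) (· ∈ CT T φ) x} :=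
          gpMap_mem Sum.inl _ (fun _ h => by exact h) (D.V_mem T φ s hs)
        simp only [Ψ', artinLift_ag, f0]
        split_ifs
        · rw [hCj]
          refine mul_mem (mul_mem (gv_mem (by exact hCT0 T φ) τ) h3) (inv_mem (gv_mem ?_ τ))
          exact hCT T φ _ (ab_par (ag_mem hs)) ▸ hCT0 T _
        · exact h3 }
  let Q : ZMod n × ZMod n → Subgroup (GP D.Γ K) := fun c => PX D.Γ K (L c)
  let ω : ZMod n × ZMod n → (Σ _ : ZMod n × ZMod n, Set (GP D.Γ K)) := fun c => ⟨c, Q c⟩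
  have hω : ∀ c c' (d d' : GP D.Γ K), d • ω c = d' • ω c' → c = c' ∧ d⁻¹ * d' ∈ Q c := by
    intro c c' d d' h
    simp only [ω, Sigma.smul_mk, Sigma.mk.injEq, heq_eq_eq] at h
    obtain ⟨rfl, h⟩ := h
    exact ⟨rfl, (leftCoset_eq_iff _).mp h⟩
  let η : GP (coneG D.Γ L) K →* SD (GP D.Γ K) (Σ _ : ZMod n × ZMod n, Set (GP D.Γ K)) :=
    gpLift (Sum.elim (fun x => inr.comp (gv D.Γ x))
      (fun c => (zpowersHom _ (inl (of (ω c)))).comp dg)) (by
      have key : ∀ c, ∀ a ∈ L c, ∀ k : K,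
          Commute (inl (of (ω c)) : SD (GP D.Γ K) _) (inr (gv D.Γ a k)) := fun c a ha k =>
        sd_comm (by simp only [ω, Sigma.smul_mk]; rw [smul_coe_set (gv_mem ha k)])
      rintro (a | a) (b | b) h k k'
      · exact (gv_comm (Γ := D.Γ) h k k').map inr
      · exact ((key b a h k).zpow_left _).symm
      · exact (key a b h k').zpow_left _
      · exact h.elim)
  have hη1 : ∀ x k, η (gv (coneG D.Γ L) (Sum.inl x) k) = inr (gv D.Γ x k) := fun x k =>
    gpLift_gv _ _ _ _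
  have hη2 : ∀ c k, η (gv (coneG D.Γ L) (Sum.inr c) k) = inl (of (ω c)) ^ (dg k).toAdd :=
    fun c k => gpLift_gv _ _ _ _
  have hηι : ∀ x, η (ι x) = inr x := by
    intro x
    have : η.comp ι = inr := gp_ext fun a k => by simp [ι, hη1]
    exact DFunLike.congr_fun this x
  have hr : ∀ g φ, (η ((Ψ' g).c φ)).right = D.c φ g := by
    intro g φ
    have : (Wr.map (SemidirectProduct.rightHom.comp η)).comp Ψ' =
        (Wr.map (SemidirectProduct.rightHom.comp η)).comp Ψ := artin_ext fun s => by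
      simp only [MonoidHom.comp_apply, Ψ', artinLift_ag, f0]
      split_ifs
      · ext1
        · funext ψ
          simp [hCj, hη2, hτ, Ψ]
        · exact hCja _
      · rfl
    have h3 := congrArg (fun x => Wr.c x φ) (DFunLike.congr_fun this g)
    simpa [Ψ, hηι] using h3
  let lam : (I → ZMod n) → B.A → (Σ _ : ZMod n × ZMod n, Set (GP D.Γ K)) := fun φ g =>
    D.c φ g • ω (cl (φ + B.ab n g))
  have hsep : ∀ {T U φ g}, g ∈ B.par (J \ {u}) ∨ g ∈ B.par (J \ {v}) →
      (∀ j, j ∉ T → j ∉ U → B.ab n g j = 0) →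
      Mem2 (D.P T φ) (D.P U (φ + B.ab n g)) (D.c φ g) → Mem2 (B.par T) (B.par U) g := by
    intro T U φ g hg h0 hc
    rcases hg with hg | hg
    · exact Data.sep_gen h1 hg h0 hc
    · exact Data.sep_gen h2 hg h0 hc
  have hboth : ∀ {g}, g ∈ B.par (J \ {u}) ∨ g ∈ B.par (J \ {v}) → ∀ T,
      Mem2 (B.par T) (B.par H) g → ∃ a ∈ B.par T, ∃ h, h ∈ B.par (J \ {u}) ∧
        h ∈ B.par (J \ {v}) ∧ g = a * h := by
    intro g hg T hm
    have s1 : ∀ w, (J \ {w}) ∩ H ⊆ J \ {u} := fun w j hj => ⟨hj.1.1, hj.2.1⟩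
    have s2 : ∀ w, (J \ {w}) ∩ H ⊆ J \ {v} := fun w j hj => ⟨hj.1.1, hj.2.2⟩
    rcases hg with hg | hg <;> obtain ⟨a, ha, b, hb, e⟩ := mem2_inter hg hm <;>
      exact ⟨a, par_mono Set.inter_subset_right ha, b, par_mono (s1 _) hb, par_mono (s2 _) hb, e⟩
  have hstrip : ∀ {T φ g}, g ∈ B.par (J \ {u}) ∨ g ∈ B.par (J \ {v}) → ∀ c ∈ CT T φ,
      ∀ d ∈ D.P T φ, lam φ g = d • ω c → ∃ a ∈ B.par T, ∃ h, h ∈ B.par (J \ {u}) ∧
        h ∈ B.par (J \ {v}) ∧ g = a * h := by
    intro T φ g hg c hc d hd e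
    obtain ⟨rfl, h3⟩ := hω _ _ _ _ e.symm
    refine hboth hg T (hsep (φ := φ) hg (fun j hT hj => ?_)
      ⟨d, hd, _, by rw [Data.P, ← hL]; exact h3, by group⟩)
    by_cases e1 : j = u
    · subst e1
      simpa [cl] using hc.1 hT
    · have e2 : j = v := by
        by_contra e2
        exact hj ⟨e1, e2⟩
      subst e2
      simpa [cl] using hc.2 hT
  have hAlt : ∀ φ, AltData (B.par (J \ {u})) (B.par (J \ {v}))
      (fun g => (η ((Ψ' g).c φ)).left) (lam φ) := fun φ =>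
    { h1 := by simp
      h2 := fun g g' hg => by simp [k1 g' hg, Ψ, hηι]
      h3 := fun g g' hg => by
        rw [map_mul, Wr.mul_c, k2 g' hg, hCj, map_mul, map_mul, map_mul, map_inv, hη2, hη2, hηι,
          hτ, toAdd_ofAdd, zpow_one, zpow_one, sd_left, hr, ka]
        simp only [lam, D.c_mul, ab_mul, add_assoc]
      h4 := fun g g' hg e => by
        have e' : lam (φ + B.ab n g) g' = (1 : GP D.Γ K) • ω (cl (φ + B.ab n g)) := by
          simp only [lam, D.c_mul, ab_mul, mul_smul, smul_left_cancel_iff, ← add_assoc] at e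
          rw [one_smul]; exact e
        obtain ⟨a, ha, h, h3, h4, rfl⟩ := hstrip (T := ∅) hg _ (hCT0 _ _) 1 (one_mem _) e'
        rw [par_empty ha, one_mul]
        exact ⟨h3, h4⟩ }
  let OX : Set I → (I → ZMod n) → Set (Σ _ : ZMod n × ZMod n, Set (GP D.Γ K)) := fun T φ =>
    {x | ∃ c ∈ CT T φ, ∃ d ∈ D.P T φ, x = d • ω c}
  have hOX : ∀ T φ, ∀ y ∈ D'.P T φ, (η y).left ∈ gen (OX T φ) ∧ (η y).right ∈ D.P T φ := by
    intro T φ y hy
    refine map_mem_of_PX (Γ := coneG D.Γ L) η (S := sdSub (OX T φ) (D.P T φ) ?_) ?_ hy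
    · rintro d hd _ ⟨c, hc, d', hd', rfl⟩
      exact ⟨c, hc, d * d', mul_mem hd hd', (mul_smul _ _ _).symm⟩
    · rintro (x | c) hx k
      · rw [hη1]
        exact ⟨one_mem _, gv_mem (Γ := D.Γ) (X := D.V T φ) (v := x) hx k⟩
      · rw [hη2]
        refine zpow_mem ?_ _
        exact ⟨Subgroup.subset_closure ⟨_, ⟨c, hx, 1, one_mem _, (one_smul _ _).symm⟩, rfl⟩,
          one_mem _⟩
  have main : ∀ T U k φ g, Syl (B.par (J \ {u})) (B.par (J \ {v})) (k + 1) g →
      (∀ j, j ∉ T → j ∉ U → B.ab n g j = 0) →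
      Mem2 (D'.P T φ) (D'.P U (φ + B.ab n g)) (D'.c φ g) → Mem2 (B.par T) (B.par U) g := by
    intro T U k
    induction k with
    | zero =>
      intro φ g hg h0 hm
      refine hsep (φ := φ) hg.one h0 ?_
      rw [← hr]
      exact Mem2.map (G := GP (coneG D.Γ L) K) (SemidirectProduct.rightHom.comp η)
        (fun y hy => (hOX _ _ y hy).2) (fun y hy => (hOX _ _ y hy).2) hm
    | succ k ih =>
      intro φ g hg h0 hm
      obtain ⟨y, hy, y', hy', e⟩ := id hm
      have e1 : η ((Ψ' g).c φ) = η y * η y' := (congrArg η e).trans (map_mul η y y')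
      have e2 : D.c φ g = (η y).right * (η y').right := by rw [← hr, e1]; rfl
      rcases (hAlt φ).strip (Y := {x | ∃ z ∈ OX U (φ + B.ab n g), x = (η y).right • z}) hg
        (hOX _ _ y hy).1 (freeAct_mem_gen (η y).right (fun z hz => by exact ⟨z, hz, rfl⟩)
          (hOX _ _ y' hy').1)
        (by rw [e1]; rfl) with h3 | ⟨p, r, hp, rfl, ⟨c, hc, d, hd, h3⟩, h4⟩ |
          ⟨r, p, hp, rfl, ⟨_, ⟨c, hc, d, hd, rfl⟩, h3⟩, h4⟩
      · exact ih φ g h3 h0 hm
      · obtain ⟨a, ha, h, h5, h6, rfl⟩ := hstrip hp c hc d hd h3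
        have h7 := ih (φ + B.ab n a) (h * r) (h4 h h5 h6)
          (fun j hT hU => by simpa [ab_par ha j hT] using h0 j hT hU) (by
            have e3 : D'.P T (φ + B.ab n a) = D'.P T φ := by
              rw [Data.P, D'.V_inv T φ _ (ab_par ha)]
            have e4 := D'.c_mul φ a (h * r)
            rw [← mul_assoc, ← inv_mul_eq_iff_eq_mul] at e4
            rw [e3, ← e4, add_assoc, ← ab_mul, ← mul_assoc]
            simpa using hm.mul (inv_mem (D'.c_mem ha φ)) (one_mem _))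
        simpa [mul_assoc] using h7.mul ha (one_mem _)
      · have h8 : lam (φ + B.ab n (r * p)) p⁻¹ = ((η y').right⁻¹ * d) • ω c := by
          have e3 := D.c_mul φ (r * p) p⁻¹
          rw [mul_inv_cancel_right, ← inv_mul_eq_iff_eq_mul] at e3
          have e4 : φ + B.ab n (r * p) + B.ab n p⁻¹ = φ + B.ab n r := by simp [add_assoc]
          simp only [lam] at h3 ⊢
          rw [e4, ← e3, mul_smul, h3, e2, smul_smul, smul_smul]
          congr 1
          group
        obtain ⟨a, ha, h, h5, h6, h9⟩ := hstrip (by simpa using hp) c hc _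
          (mul_mem (inv_mem (hOX _ _ y' hy').2) hd) h8
        have h10 : p = h⁻¹ * a⁻¹ := by rw [← mul_inv_rev, ← h9, inv_inv]
        subst h10
        have h7 := ih φ (r * h⁻¹) (h4 _ (inv_mem h5) (inv_mem h6))
          (fun j hT hU => by simpa [ab_par ha j hU] using h0 j hT hU) (by
            have e3 : D'.P U (φ + B.ab n (r * h⁻¹)) = D'.P U (φ + B.ab n (r * (h⁻¹ * a⁻¹))) := by
              rw [Data.P, Data.P, ← D'.V_inv U (φ + B.ab n (r * h⁻¹)) _ (ab_par (inv_mem ha)),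
                add_assoc, ← ab_mul, mul_assoc]
            have e4 := D'.c_mul φ (r * (h⁻¹ * a⁻¹)) a
            rw [show r * (h⁻¹ * a⁻¹) * a = r * h⁻¹ by group] at e4
            rw [e3, e4]
            simpa using hm.mul (one_mem _) (D'.c_mem ha _))
        simpa [mul_assoc] using h7.mul (one_mem _) (inv_mem ha)
  refine ⟨D', fun φ T U g hg h0 hm => ?_⟩
  have hg' : g ∈ B.par (J \ {u}) ⊔ B.par (J \ {v}) := by
    refine par_le (fun s hs => ?_) hg
    by_cases h : B.β s = u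
    · exact Subgroup.mem_sup_right (ag_mem ⟨hs, fun e => huv (h.symm.trans e)⟩)
    · exact Subgroup.mem_sup_left (ag_mem ⟨hs, h⟩)
  obtain ⟨k, L', h3, h4, h5⟩ := syl_exists hg'
  exact main T U k φ g ⟨L', by omega, h4, h5⟩ (fun j _ _ => by simp [h0]) (by simpa [h0] using hm)

end Pool.Agent.Lib.MP_19b52f_al.EA
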