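import Pool.Agent.Lib.MP_19b52f_al.EA.Free

/-! The braid group on infinitely many strands, the Artin action and point pushing. -/

namespace Pool.Agent.Lib.MP_19b52f_al.EA

open FreeGroup hiding map_mul map_inv map_one

section seq
variable {G : Type} [Group G]

/-- Braid relations for the indices below `N`. -/
structure BraidSeq (s : ℕ → G) (N : ℕ) : Prop where
  braid : ∀ i, i + 1 < N → s i * s (i + 1) * s i = s (i + 1) * s i * s (i + 1)
  comm : ∀ i j, i + 2 ≤ j → j < N → Commute (s i) (s j)

/-- The product of the first `k` generators. -/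
def pp (s : ℕ → G) : ℕ → G
  | 0 => 1
  | k + 1 => pp s k * s k

/-- The point pushing element. -/
def aa (s : ℕ → G) (j : ℕ) : G := pp s j * s j ^ 2 * (pp s j)⁻¹

/-- The image of the `j`-th free generator under the `i`-th Artin automorphism. -/
def artF (i j : ℕ) : FreeGroup ℕ :=
  if j = i then (of i)⁻¹ * of (i + 1) * of i else if j = i + 1 then of i else of j

/-- The inverse substitution. -/
def artB (i j : ℕ) : FreeGroup ℕ :=
  if j = i then of (i + 1) else if j = i + 1 then of (i + 1) * of i * (of (i + 1))⁻¹ else of j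

lemma map_pp {H : Type} [Group H] (f : G →* H) (s : ℕ → G) (t : ℕ → H) (k : ℕ)
    (h : ∀ i < k, f (s i) = t i) : f (pp s k) = pp t k := by
  induction k with
  | zero => simp [pp]
  | succ k ih => rw [pp, pp, map_mul, ih (fun i hi => h i (by omega)), h k (by omega)]

lemma pp_mem (S : Subgroup G) (s : ℕ → G) (k : ℕ) (h : ∀ i < k, s i ∈ S) : pp s k ∈ S := by
  induction k with
  | zero => exact one_mem _
  | succ k ih => exact mul_mem (ih (fun i hi => h i (by omega))) (h k (by omega))

variable {s : ℕ → G} {N : ℕ}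

lemma BraidSeq.pp_comm (h : BraidSeq s N) {k i : ℕ} (h1 : k + 1 ≤ i) (h2 : i < N) :
    Commute (pp s k) (s i) := by
  induction k with
  | zero => exact Commute.one_left _
  | succ k ih => exact Commute.mul_left (ih (by omega)) (h.comm k i (by omega) h2)

lemma BraidSeq.mul_pp (h : BraidSeq s N) {k i : ℕ} (h1 : i + 2 ≤ k) (h2 : k ≤ N) :
    s (i + 1) * pp s k = pp s k * s i := by
  induction k, h1 using Nat.le_induction with
  | base =>
    have h3 := (h.pp_comm (k := i) (i := i + 1) le_rfl (by omega)).eq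
    have h4 := h.braid i (by omega)
    simp only [pp]
    calc s (i + 1) * (pp s i * s i * s (i + 1))
        = (s (i + 1) * pp s i) * s i * s (i + 1) := by group
      _ = pp s i * (s (i + 1) * s i * s (i + 1)) := by rw [← h3]; group
      _ = _ := by rw [← h4]; group
  | succ k hk ih =>
    rw [pp, ← mul_assoc, ih (by omega), mul_assoc, (h.comm i k hk (by omega)).eq, mul_assoc]

lemma braid_aux1 {a b : G} (h : a * b * a = b * a * b) : b * (a * b ^ 2 * a⁻¹) * b⁻¹ = a ^ 2 := by
  calc b * (a * b ^ 2 * a⁻¹) * b⁻¹ = (b * a * b) * b * (b * a)⁻¹ := by simp only [pow_two]; group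
    _ = (a * b * a) * b * (b * a)⁻¹ := by rw [← h]
    _ = a * (b * a * b) * (b * a)⁻¹ := by group
    _ = a * (a * b * a) * (b * a)⁻¹ := by rw [← h]
    _ = a ^ 2 := by simp only [pow_two]; group

lemma braid_aux2 {a b : G} (h : a * b * a = b * a * b) :
    b * a ^ 2 * b⁻¹ = (a ^ 2)⁻¹ * (a * b ^ 2 * a⁻¹) * a ^ 2 := by
  have h1 : b * a * b⁻¹ = a⁻¹ * b * a := by
    calc b * a * b⁻¹ = a⁻¹ * (a * b * a) * b⁻¹ := by group
      _ = a⁻¹ * b * a := by rw [h]; group
  calc b * a ^ 2 * b⁻¹ = (b * a * b⁻¹) * (b * a * b⁻¹) := by simp only [pow_two]; group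
    _ = _ := by rw [h1]; simp only [pow_two]; group

lemma BraidSeq.conj_aa (h : BraidSeq s N) {i j : ℕ} (hi : i + 1 < N) (hj : j < N) :
    s (i + 1) * aa s j * (s (i + 1))⁻¹ = lift (aa s) (artF i j) := by
  have h3 := (h.pp_comm (k := i) (i := i + 1) le_rfl hi).eq
  have h4 := h.braid i hi
  have h5 : ∀ x, s (i + 1) * (pp s i * x * (pp s i)⁻¹) * (s (i + 1))⁻¹ =
      pp s i * (s (i + 1) * x * (s (i + 1))⁻¹) * (pp s i)⁻¹ := by
    intro x
    calc _ = (s (i + 1) * pp s i) * x * (s (i + 1) * pp s i)⁻¹ := by group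
      _ = _ := by rw [← h3]; group
  unfold artF
  split_ifs with e1 e2
  · subst e1
    simp only [map_mul, map_inv, lift_apply_of, aa, pp]
    rw [h5, braid_aux2 h4]; group
  · subst e2
    simp only [lift_apply_of, aa, pp]
    rw [← braid_aux1 h4, ← h5]; group
  · rw [lift_apply_of, mul_inv_eq_iff_eq_mul]
    rcases lt_or_gt_of_ne e1 with h6 | h6
    · have c1 := h.pp_comm (k := j) (i := i + 1) (by omega) hi
      have c2 := h.comm j (i + 1) (by omega) hi
      exact ((c1.mul_left (c2.pow_left 2)).mul_left c1.inv_left).symm.eq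
    · have c1 := h.mul_pp (k := j) (i := i) (by omega) hj.le
      have c2 := ((h.comm i j (by omega) hj).pow_right 2).eq
      unfold aa
      calc s (i + 1) * (pp s j * s j ^ 2 * (pp s j)⁻¹)
          = (s (i + 1) * pp s j) * s j ^ 2 * (pp s j)⁻¹ := by group
        _ = pp s j * (s i * s j ^ 2) * (pp s j)⁻¹ := by rw [c1]; group
        _ = pp s j * s j ^ 2 * (pp s j)⁻¹ * (pp s j * s i) * (pp s j)⁻¹ := by rw [c2]; group
        _ = _ := by rw [← c1]; group

lemma BraidSeq.pp_sq (h : BraidSeq s N) {k : ℕ} (hk : k + 1 ≤ N) :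
    pp s (k + 1) ^ 2 * s k = s 0 * pp s (k + 1) ^ 2 := by
  induction k with
  | zero => simp only [pp, one_mul]; group
  | succ k ih =>
    have h3 := (h.pp_comm (k := k) (i := k + 1) le_rfl (by omega)).eq
    have h4 := h.braid k (by omega)
    have h5 : pp s (k + 2) ^ 2 = pp s (k + 1) ^ 2 * s (k + 1) * s k := by
      simp only [pp, pow_two]
      calc pp s k * s k * s (k + 1) * (pp s k * s k * s (k + 1))
          = pp s k * s k * (s (k + 1) * pp s k) * s k * s (k + 1) := by group
        _ = pp s k * s k * pp s k * (s (k + 1) * s k * s (k + 1)) := by rw [← h3]; group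
        _ = _ := by rw [← h4]; group
    rw [h5]
    calc pp s (k + 1) ^ 2 * s (k + 1) * s k * s (k + 1)
        = pp s (k + 1) ^ 2 * (s (k + 1) * s k * s (k + 1)) := by group
      _ = (pp s (k + 1) ^ 2 * s k) * s (k + 1) * s k := by rw [← h4]; group
      _ = _ := by rw [ih (by omega)]; group

lemma BraidSeq.pp_pow_mul (h : BraidSeq s N) (i m : ℕ) (hi : i + m < N) :
    pp s N ^ m * s i = s (i + m) * pp s N ^ m := by
  induction m with
  | zero => simp
  | succ m ih =>
    rw [pow_succ', mul_assoc, ih (by omega), ← mul_assoc,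
      ← h.mul_pp (i := i + m) (k := N) (by omega) le_rfl, mul_assoc]
    rfl

/-- The full twist is central. -/
lemma BraidSeq.central (h : BraidSeq s N) {i : ℕ} (hi : i < N) :
    Commute (pp s N ^ (N + 1)) (s i) := by
  obtain ⟨m, rfl⟩ : ∃ m, N = i + m + 1 := ⟨N - i - 1, by omega⟩
  have h1 := h.pp_pow_mul i m (by omega)
  have h2 := h.pp_sq (k := i + m) le_rfl
  have h3 := h.pp_pow_mul 0 i (by omega)
  rw [zero_add] at h3
  set d := pp s (i + m + 1)
  have e : d ^ (i + m + 1 + 1) = d ^ i * d ^ 2 * d ^ m := by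
    rw [← pow_add, ← pow_add]; congr 1; omega
  rw [Commute, SemiconjBy, e]
  calc d ^ i * d ^ 2 * d ^ m * s i = d ^ i * d ^ 2 * (d ^ m * s i) := by group
    _ = d ^ i * (d ^ 2 * s (i + m)) * d ^ m := by rw [h1]; group
    _ = (d ^ i * s 0) * d ^ 2 * d ^ m := by rw [h2]; group
    _ = _ := by rw [h3]; group

end seq

/-- The relators of the braid group on infinitely many strands. -/
def bRels : Set (FreeGroup ℕ) :=
  {r | (∃ i, r = of i * of (i + 1) * of i * (of (i + 1) * of i * of (i + 1))⁻¹) ∨
    ∃ i j, i + 2 ≤ j ∧ r = of i * of j * (of j * of i)⁻¹}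

/-- The braid group on infinitely many strands. -/
abbrev BB : Type := PresentedGroup bRels

/-- The standard generators. -/
def sg (i : ℕ) : BB := PresentedGroup.of i

lemma sg_seq (N : ℕ) : BraidSeq sg N where
  braid i _ := by
    have := PresentedGroup.one_of_mem (rels := bRels) (Or.inl ⟨i, rfl⟩)
    simp only [map_mul, map_inv, mul_inv_eq_one] at this
    exact this
  comm i j h _ := by
    have := PresentedGroup.one_of_mem (rels := bRels) (Or.inr ⟨i, j, h, rfl⟩)
    simp only [map_mul, map_inv, mul_inv_eq_one] at this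
    exact this

/-- The universal property. -/
def bLift {G : Type} [Group G] (s : ℕ → G) (h : ∀ N, BraidSeq s N) : BB →* G :=
  PresentedGroup.toGroup (f := s) (by
    rintro r (⟨i, rfl⟩ | ⟨i, j, hij, rfl⟩)
    · simp only [map_mul, map_inv, lift_apply_of, mul_inv_eq_one]
      exact (h (i + 2)).braid i (by omega)
    · simp only [map_mul, map_inv, lift_apply_of, mul_inv_eq_one]
      exact ((h (j + 1)).comm i j hij (by omega)).eq)

@[simp] lemma bLift_sg {G : Type} [Group G] (s : ℕ → G) (h : ∀ N, BraidSeq s N) (i : ℕ) :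
    bLift s h (sg i) = s i := PresentedGroup.toGroup.of _

lemma mem_of_sg {S : Subgroup BB} (h : ∀ i, sg i ∈ S) (b : BB) : b ∈ S :=
  PresentedGroup.generated_by _ S h b

lemma mem_of_of {Y : Type} {S : Subgroup (FreeGroup Y)} (h : ∀ i, of i ∈ S) (b : FreeGroup Y) :
    b ∈ S := by
  have : (⊤ : Subgroup (FreeGroup Y)) ≤ S := by
    rw [← closure_range_of, Subgroup.closure_le]
    rintro _ ⟨i, rfl⟩
    exact h i
  exact this (Subgroup.mem_top b)

/-- The Artin automorphisms. -/
def art (i : ℕ) : MulAut (FreeGroup ℕ) :=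
  MonoidHom.toMulEquiv (lift (artF i)) (lift (artB i))
    (by
      ext j
      by_cases h1 : j = i
      · simp [artF, artB, h1, mul_assoc]
      · by_cases h2 : j = i + 1 <;> simp [artF, artB, h1, h2, mul_assoc])
    (by
      ext j
      by_cases h1 : j = i
      · simp [artF, artB, h1, mul_assoc]
      · by_cases h2 : j = i + 1 <;> simp [artF, artB, h1, h2, mul_assoc])

lemma art_of (i j : ℕ) : art i (of j) = artF i j := by simp [art]

lemma mulAut_ext {f g : MulAut (FreeGroup ℕ)} (h : ∀ j, f (of j) = g (of j)) : f = g := by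
  apply MulEquiv.toMonoidHom_injective
  ext j
  exact h j

lemma art_seq (N : ℕ) : BraidSeq art N where
  braid i _ := by
    refine mulAut_ext (fun j => ?_)
    have e1 : i + 1 + 1 ≠ i := by omega
    have e2 : i ≠ i + 1 + 1 := by omega
    by_cases h1 : j = i
    · simp [art_of, artF, h1, e1, e2, mul_assoc]
    · by_cases h2 : j = i + 1
      · simp [art_of, artF, h2, e1, e2, mul_assoc]
      · by_cases h3 : j = i + 1 + 1
        · simp [art_of, artF, h3, e1, e2]
        · simp [art_of, artF, h1, h2, h3]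
  comm i k h _ := by
    refine mulAut_ext (fun j => ?_)
    have e1 : i ≠ k := by omega
    have e2 : i ≠ k + 1 := by omega
    have e3 : i + 1 ≠ k := by omega
    have e4 : k + 1 ≠ i := by omega
    have e5 : k ≠ i + 1 := by omega
    have e6 : k ≠ i := by omega
    by_cases h1 : j = i
    · simp [art_of, artF, h1, e1, e2, e3]
    · by_cases h2 : j = i + 1
      · simp [art_of, artF, h2, e1, e2, e3]
      · by_cases h3 : j = k
        · simp [art_of, artF, h3, e4, e5, e6]
        · by_cases h4 : j = k + 1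
          · simp [art_of, artF, h4, e4, e5, e6]
          · simp [art_of, artF, h1, h2, h3, h4]

/-- The Artin action. -/
def act : BB →* MulAut (FreeGroup ℕ) := bLift art art_seq

lemma act_sg (i j : ℕ) : act (sg i) (of j) = artF i j := by simp [act, art_of]

/-- The shift of braids. -/
def shk (k : ℕ) : BB →* BB := bLift (fun i => sg (i + k)) (fun N =>
  ⟨fun i _ => by
    have := (sg_seq (i + k + 2)).braid (i + k) (by omega)
    rwa [show i + 1 + k = i + k + 1 by omega],
   fun i j h _ => (sg_seq (j + k + 1)).comm _ _ (by omega) (by omega)⟩)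

@[simp] lemma shk_sg (k i : ℕ) : shk k (sg i) = sg (i + k) := bLift_sg _ _ _

/-- The shift of words. -/
def shF (k : ℕ) : FreeGroup ℕ →* FreeGroup ℕ := lift (fun j => of (j + k))

/-- Kill the first `k` letters and shift back. -/
def qk (k : ℕ) : FreeGroup ℕ →* FreeGroup ℕ := lift (fun j => if k ≤ j then of (j - k) else 1)

@[simp] lemma shF_of (k j : ℕ) : shF k (of j) = of (j + k) := by simp [shF]
lemma qk_of (k j : ℕ) : qk k (of j) = if k ≤ j then of (j - k) else 1 := by simp [qk]
@[simp] lemma qk_of_add (k j : ℕ) : qk k (of (j + k)) = of j := by simp [qk]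
lemma qk_of_lt {k j : ℕ} (h : j < k) : qk k (of j) = 1 := by rw [qk_of, if_neg (by omega)]

@[simp] lemma qk_shF (k : ℕ) (w : FreeGroup ℕ) : qk k (shF k w) = w := by
  have : (qk k).comp (shF k) = MonoidHom.id _ := by ext j; simp
  exact DFunLike.congr_fun this w

/-- The elements intertwined by a homomorphism of free groups. -/
def itw {G : Type} [Group G] (a1 a2 : G →* MulAut (FreeGroup ℕ))
    (φ : FreeGroup ℕ →* FreeGroup ℕ) : Subgroup G where
  carrier := {g | ∀ w, φ (a1 g w) = a2 g (φ w)}
  one_mem' := by simp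
  mul_mem' := by
    intro g h hg hh w
    simp only [map_mul, MulAut.mul_apply]
    rw [hg, hh]
  inv_mem' := by
    intro g hg w
    apply (a2 g).injective
    rw [← hg, ← MulAut.mul_apply, ← MulAut.mul_apply, ← map_mul, ← map_mul]
    simp

lemma mem_itw {G : Type} [Group G] {a1 a2 : G →* MulAut (FreeGroup ℕ)}
    {φ : FreeGroup ℕ →* FreeGroup ℕ} {g : G} (h : ∀ j, φ (a1 g (of j)) = a2 g (φ (of j))) :
    g ∈ itw a1 a2 φ := by
  intro w
  have : φ.comp (a1 g).toMonoidHom = (a2 g).toMonoidHom.comp φ := by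
    ext j; exact h j
  exact DFunLike.congr_fun this w

/-- The stabilizer of a word. -/
def fixS {G : Type} [Group G] (θ : G →* BB) (w : FreeGroup ℕ) : Subgroup G :=
  (MulAction.stabilizer (MulAut (FreeGroup ℕ)) w).comap (act.comp θ)

lemma mem_fixS {G : Type} [Group G] {θ : G →* BB} {w : FreeGroup ℕ} {g : G} :
    g ∈ fixS θ w ↔ act (θ g) w = w := Iff.rfl

lemma artF_add (i j k : ℕ) : artF (i + k) (j + k) = shF k (artF i j) := by
  unfold artF
  have e : i + k + 1 = i + 1 + k := by omega
  by_cases h1 : j = i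
  · simp [h1, e]
  · by_cases h2 : j = i + 1
    · simp [h2, e]
    · rw [if_neg (by omega), if_neg (by omega), if_neg h1, if_neg h2, shF_of]

lemma act_shk_shF (k : ℕ) (b : BB) (w : FreeGroup ℕ) :
    act (shk k b) (shF k w) = shF k (act b w) := by
  refine ((mem_of_sg (S := itw act (act.comp (shk k)) (shF k)) (fun i => mem_itw fun j => ?_) b)
    w).symm
  simp [act_sg, artF_add]

lemma act_shk_lt {k j : ℕ} (h : j < k) (b : BB) : act (shk k b) (of j) = of j := by
  refine mem_of_sg (S := fixS (shk k) (of j)) (fun i => ?_) b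
  rw [mem_fixS, shk_sg, act_sg, artF, if_neg (by omega), if_neg (by omega)]

lemma qk_act_shk (k : ℕ) (b : BB) (w : FreeGroup ℕ) :
    qk k (act (shk k b) w) = act b (qk k w) := by
  have : (qk k).comp (act (shk k b)).toMonoidHom = (act b).toMonoidHom.comp (qk k) := by
    ext j
    change qk k (act (shk k b) (of j)) = act b (qk k (of j))
    by_cases h : j < k
    · rw [act_shk_lt h, qk_of_lt h, map_one]
    · obtain ⟨j, rfl⟩ : ∃ i, j = i + k := ⟨j - k, by omega⟩
      rw [← shF_of, act_shk_shF, qk_shF, qk_shF]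
  exact DFunLike.congr_fun this w

/-- Braids on the first `n` strands. -/
def Bd (n : ℕ) : Subgroup BB := Subgroup.closure {b | ∃ i, i + 1 < n ∧ b = sg i}

lemma sg_mem_Bd {i n : ℕ} (h : i + 1 < n) : sg i ∈ Bd n := Subgroup.subset_closure ⟨i, h, rfl⟩

lemma Bd_le {n : ℕ} {S : Subgroup BB} (h : ∀ i, i + 1 < n → sg i ∈ S) : Bd n ≤ S := by
  rw [Bd, Subgroup.closure_le]
  rintro _ ⟨i, hi, rfl⟩
  exact h i hi

lemma Bd_mono {n m : ℕ} (h : n ≤ m) : Bd n ≤ Bd m := Bd_le fun _ hi => sg_mem_Bd (by omega)

lemma exists_Bd (b : BB) : ∃ n, b ∈ Bd n := by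
  have hd : Directed (· ≤ ·) Bd := Monotone.directed_le (fun _ _ h => Bd_mono h)
  rw [← Subgroup.mem_iSup_of_directed hd]
  exact mem_of_sg (fun i => Subgroup.mem_iSup_of_mem (i + 2) (sg_mem_Bd (by omega))) b

lemma shk_mem_Bd {n : ℕ} (k : ℕ) {b : BB} (h : b ∈ Bd n) : shk k b ∈ Bd (n + k) :=
  Bd_le (S := (Bd (n + k)).comap (shk k))
    (fun i hi => by rw [Subgroup.mem_comap, shk_sg]; exact sg_mem_Bd (by omega)) h

lemma act_Bd_ge {n j : ℕ} (hj : n ≤ j) {b : BB} (h : b ∈ Bd n) : act b (of j) = of j := by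
  refine Bd_le (S := fixS (MonoidHom.id _) (of j)) (fun i hi => ?_) h
  rw [mem_fixS, MonoidHom.id_apply, act_sg, artF, if_neg (by omega), if_neg (by omega)]

lemma act_Bd_shF {n : ℕ} {b : BB} (h : b ∈ Bd n) (w : FreeGroup ℕ) :
    act b (shF n w) = shF n w := by
  have : (act b).toMonoidHom.comp (shF n) = shF n := by
    ext j
    simpa using act_Bd_ge (by omega) h
  exact DFunLike.congr_fun this w

lemma qk_act_Bd {n : ℕ} {b : BB} (h : b ∈ Bd n) (w : FreeGroup ℕ) :
    qk n (act b w) = qk n w := by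
  refine Bd_le (S := itw act 1 (qk n)) (fun i hi => mem_itw fun j => ?_) h w
  rw [act_sg, artF]
  have e1 : qk n (of i) = 1 := qk_of_lt (by omega)
  have e2 : qk n (of (i + 1)) = 1 := qk_of_lt hi
  split_ifs with h1 h2
  · simp [h1, e1, e2]
  · simp [h2, e1, e2]
  · simp

lemma Bd_commute_shk {n : ℕ} {b : BB} (h : b ∈ Bd n) (c : BB) : Commute b (shk n c) := by
  refine Bd_le (S := Subgroup.centralizer {shk n c}) (fun i hi => ?_) h _ rfl |>.symm
  rintro _ rfl
  refine mem_of_sg (S := (Subgroup.centralizer {sg i}).comap (shk n)) (fun j => ?_) c _ rfl |>.symm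
  rintro _ rfl
  rw [shk_sg]
  exact ((sg_seq (j + n + 1)).comm i (j + n) (by omega) (by omega)).eq

/-- Point pushing. -/
def push : FreeGroup ℕ →* BB := lift (aa sg)

lemma conj_push (b : BB) (w : FreeGroup ℕ) :
    shk 1 b * push w * (shk 1 b)⁻¹ = push (act b w) := by
  let S : Subgroup BB :=
    { carrier := {b | ∀ w, shk 1 b * push w * (shk 1 b)⁻¹ = push (act b w)}
      one_mem' := by simp
      mul_mem' := by
        intro a b ha hb w
        rw [map_mul, map_mul, MulAut.mul_apply, ← ha, ← hb]; group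
      inv_mem' := by
        intro a ha w
        have := ha (act a⁻¹ w)
        rw [← MulAut.mul_apply, ← map_mul, mul_inv_cancel, map_one, MulAut.one_apply] at this
        rw [← this, map_inv]; group }
  refine mem_of_sg (S := S) (fun i w => ?_) b w
  have : (MulAut.conj (shk 1 (sg i))).toMonoidHom.comp push =
      push.comp (act (sg i)).toMonoidHom := by
    ext j
    have := (sg_seq (i + j + 2)).conj_aa (i := i) (j := j) (by omega) (by omega)
    simpa [push, act_sg] using this
  exact DFunLike.congr_fun this w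

lemma aa_succ (j : ℕ) : aa sg (j + 1) = (shk 1 (sg j))⁻¹ * aa sg j * shk 1 (sg j) := by
  have := (sg_seq (j + 2)).conj_aa (i := j) (j := j + 1) (by omega) (by omega)
  rw [artF, if_neg (by omega), if_pos rfl, lift_apply_of] at this
  rw [shk_sg, ← this]; group

lemma act_aa_zero (j : ℕ) : act (aa sg 0) (of j) = act (sg 0) (artF 0 j) := by
  simp [aa, pp, pow_two, act_sg]

lemma qk_act_push (w v : FreeGroup ℕ) : qk 1 (act (push w) v) = qk 1 v := by
  refine mem_of_of (S := itw (act.comp push) 1 (qk 1)) (fun j => ?_) w v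
  change ∀ v, qk 1 (act (push (of j)) v) = qk 1 v
  rw [push, lift_apply_of]
  induction j with
  | zero =>
    refine mem_itw (a1 := act) (a2 := 1) (fun j => ?_)
    rw [act_aa_zero]
    have e : qk 1 (of 0) = 1 := qk_of_lt (by omega)
    by_cases h1 : j = 0
    · simp [artF, h1, act_sg, e]
    · by_cases h2 : j = 1
      · simp [artF, h2, act_sg, e]
      · simp [artF, h1, h2, act_sg]
  | succ j ih =>
    intro v
    rw [aa_succ, map_mul, map_mul, MulAut.mul_apply, MulAut.mul_apply, ← map_inv, qk_act_shk, ih,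
      qk_act_shk, ← MulAut.mul_apply, ← map_mul]
    simp

lemma act_push_zero (w : FreeGroup ℕ) :
    ∃ g, act (push w) (of 0) = g * of 0 * g⁻¹ ∧ qk 1 g = w⁻¹ := by
  induction w using FreeGroup.induction_on with
  | C1 => exact ⟨1, by simp, by simp⟩
  | of j =>
    rw [push, lift_apply_of]
    induction j with
    | zero =>
      refine ⟨(of 1 * of 0)⁻¹, ?_, ?_⟩
      · rw [act_aa_zero]; simp [artF, act_sg, mul_assoc]
      · simp [qk_of]
    | succ j ih =>
      obtain ⟨g, h1, h2⟩ := ih
      refine ⟨act (shk 1 (sg j)⁻¹) g, ?_, ?_⟩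
      · rw [aa_succ, map_mul, map_mul, MulAut.mul_apply, MulAut.mul_apply, ← map_inv,
          act_shk_lt (by omega), h1, map_mul, map_mul, map_inv (act _), act_shk_lt (by omega)]
      · rw [qk_act_shk, h2, map_inv (act _), inv_inj]
        apply (act (sg j)).injective
        rw [← MulAut.mul_apply, ← map_mul, act_sg, artF]
        simp
  | inv_of j ih =>
    obtain ⟨g, h1, h2⟩ := ih
    refine ⟨(act (push (of j)⁻¹) g)⁻¹, ?_, ?_⟩
    · apply (act (push (of j))).injective
      rw [map_mul, map_mul, map_inv (act _), map_inv (act _), map_inv (act _), h1,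
        ← MulAut.mul_apply, ← MulAut.mul_apply, ← map_mul, ← map_mul]
      simp [mul_assoc]
    · rw [map_inv, qk_act_push, h2]
  | mul a b ha hb =>
    obtain ⟨g, h1, h2⟩ := ha
    obtain ⟨g', h1', h2'⟩ := hb
    refine ⟨act (push a) g' * g, ?_, ?_⟩
    · rw [map_mul, map_mul, MulAut.mul_apply, h1', map_mul, map_mul, map_inv, h1]; group
    · rw [map_mul, qk_act_push, h2, h2', mul_inv_rev]

end Pool.Agent.Lib.MP_19b52f_al.EA
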