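import Pool.Agent.Lib.MP_19b52f_al.EA.Braid

/-! Subgroups that are stabilizers of a word under a braid representation. -/

namespace Pool.Agent.Lib.MP_19b52f_al.EA

open FreeGroup hiding map_mul map_inv map_one lift_unique

/-- The free group as a semidirect product along the first generator. -/
noncomputable def kap : FreeGroup ℕ →*
    (FreeGroup (FreeGroup ℕ) ⋊[freeAct (FreeGroup ℕ) (FreeGroup ℕ)] FreeGroup ℕ) :=
  lift (fun j => if 1 ≤ j then SemidirectProduct.inr (of (j - 1)) else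
    SemidirectProduct.inl (of 1))

lemma kap_right (g : FreeGroup ℕ) : (kap g).right = qk 1 g := by
  have : SemidirectProduct.rightHom.comp kap = qk 1 := by
    ext j
    by_cases h : 1 ≤ j <;> simp [kap, qk, h]
  exact DFunLike.congr_fun this g

lemma kap_conj (g : FreeGroup ℕ) : kap (g * of 0 * g⁻¹) =
    SemidirectProduct.inl ((kap g).left * of (qk 1 g) * ((kap g).left)⁻¹) := by
  have h0 : kap (of 0) = SemidirectProduct.inl (of 1) := by simp [kap]
  rw [map_mul, map_mul, map_inv, h0, ← kap_right]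
  generalize kap g = x
  ext
  · simp only [SemidirectProduct.mul_left, SemidirectProduct.left_inl, SemidirectProduct.mul_right,
      SemidirectProduct.right_inl, mul_one, SemidirectProduct.inv_left, freeAct_of, smul_eq_mul]
    rw [← MulAut.mul_apply, ← map_mul]
    simp
  · simp

lemma orbit_free {Y : Type} (w : Y → FreeGroup ℕ) (hw : Function.Injective w)
    (c : Y → FreeGroup ℕ) (hc : ∀ y, ∃ g, c y = g * of 0 * g⁻¹ ∧ qk 1 g = w y) :
    Function.Injective (lift c) := by
  choose g h1 h2 using hc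
  let c' : Y → FreeGroup (FreeGroup ℕ) := fun y =>
    (kap (g y)).left * of (w y) * ((kap (g y)).left)⁻¹
  have h3 := lift_injective_of_isConj w hw c' (fun y => isConj_iff.mpr ⟨_, rfl⟩)
  have h4 : kap.comp (lift c) = SemidirectProduct.inl.comp (lift c') := by
    refine FreeGroup.ext_hom _ _ (fun y => ?_)
    simp only [MonoidHom.comp_apply, lift_apply_of, c']
    rw [h1, kap_conj, h2]
  have h5 : Function.Injective (kap.comp (lift c)) := by
    rw [h4]
    exact SemidirectProduct.inl_injective.comp h3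
  exact Function.Injective.of_comp (f := kap) h5

lemma act_push_shk (w : FreeGroup ℕ) (b : BB) :
    act (push w * shk 1 b) (of 0) = act (push w) (of 0) := by
  rw [map_mul, MulAut.mul_apply, act_shk_lt (by omega)]

lemma push_fix {w : FreeGroup ℕ} (h : act (push w) (of 0) = of 0) : w = 1 := by
  classical
  obtain ⟨g, h1, h2⟩ := act_push_zero w
  have h3 := kap_conj g
  have h4 := kap_conj 1
  rw [← h1, h] at h3
  rw [one_mul, inv_one, mul_one, h3, SemidirectProduct.inl_inj] at h4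
  let φ : FreeGroup (FreeGroup ℕ) →* Multiplicative ℤ :=
    lift (fun z => if z = 1 then Multiplicative.ofAdd 1 else 1)
  have h5 := congrArg φ h4
  simp only [map_mul, map_inv, mul_inv_cancel_comm, φ, lift_apply_of, map_one, if_true] at h5
  by_contra hne
  rw [h2, if_neg (by simpa using hne)] at h5
  exact absurd h5 (by decide)

variable {G : Type} [Group G]

/-- Bounded number of strands. -/
def Bdd (θ : G →* BB) : Prop := ∃ n, ∀ g, θ g ∈ Bd n

/-- A subgroup is closed if it is the stabilizer of the first free generator. -/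
def Closed (H : Subgroup G) : Prop := ∃ θ : G →* BB, Bdd θ ∧ fixS θ (of 0) = H

/-- The upgraded representation. -/
def upg (θ : G →* BB) (w : FreeGroup ℕ) : G →* BB :=
  (MulAut.conj (push w)⁻¹).toMonoidHom.comp ((shk 1).comp θ)

lemma upg_eq (θ : G →* BB) (w : FreeGroup ℕ) (g : G) :
    upg θ w g = push (w⁻¹ * act (θ g) w) * shk 1 (θ g) := by
  rw [map_mul, map_inv, ← conj_push]
  simp [upg, mul_assoc]

lemma Bdd.upg {θ : G →* BB} (h : Bdd θ) (w : FreeGroup ℕ) : Bdd (upg θ w) := by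
  obtain ⟨n, hn⟩ := h
  obtain ⟨m, hm⟩ := exists_Bd (push w)
  refine ⟨n + 1 + m, fun g => ?_⟩
  have h1 := Bd_mono (show m ≤ n + 1 + m by omega) hm
  have h2 := Bd_mono (show n + 1 ≤ n + 1 + m by omega) (shk_mem_Bd 1 (hn g))
  have : EA.upg θ w g = (push w)⁻¹ * shk 1 (θ g) * push w := by simp [EA.upg]
  rw [this]
  exact mul_mem (mul_mem (inv_mem h1) h2) h1

lemma fixS_upg (θ : G →* BB) (w : FreeGroup ℕ) : fixS (upg θ w) (of 0) = fixS θ w := by
  ext g
  rw [mem_fixS, mem_fixS, upg_eq, act_push_shk]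
  constructor
  · intro h
    exact (inv_mul_eq_one.mp (push_fix h)).symm
  · intro h
    simp [h]

lemma closed_fixS {θ : G →* BB} (h : Bdd θ) (w : FreeGroup ℕ) : Closed (fixS θ w) :=
  ⟨upg θ w, h.upg w, fixS_upg θ w⟩

lemma Closed.comap {G' : Type} [Group G'] {H : Subgroup G} (h : Closed H) (f : G' →* G) :
    Closed (H.comap f) := by
  obtain ⟨θ, ⟨n, hn⟩, rfl⟩ := h
  exact ⟨θ.comp f, ⟨n, fun g => hn _⟩, rfl⟩

lemma closed_top : Closed (⊤ : Subgroup G) :=
  ⟨1, ⟨0, fun _ => one_mem _⟩, by ext g; simp [mem_fixS]⟩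

lemma Closed.inf {H K : Subgroup G} (h1 : Closed H) (h2 : Closed K) : Closed (H ⊓ K) := by
  obtain ⟨θ, ⟨n, hn⟩, rfl⟩ := h1
  obtain ⟨η, ⟨m, hm⟩, rfl⟩ := h2
  have hn' : ∀ g, θ g ∈ Bd (n + 1) := fun g => Bd_mono (by omega) (hn g)
  let Θ : G →* BB :=
    { toFun := fun g => θ g * shk (n + 1) (η g)
      map_one' := by simp
      map_mul' := fun g h => by
        rw [map_mul, map_mul, map_mul]
        exact (Bd_commute_shk (hn' h) (η g)).mul_mul_mul_comm _ _ }
  have hb : Bdd Θ := ⟨m + (n + 1), fun g =>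
    mul_mem (Bd_mono (by omega) (hn' g)) (shk_mem_Bd _ (hm g))⟩
  have key : fixS Θ (of 0 * shF (n + 1) (of 0)) = fixS θ (of 0) ⊓ fixS η (of 0) := by
    ext g
    have e : act (Θ g) (of 0 * shF (n + 1) (of 0)) =
        act (θ g) (of 0) * shF (n + 1) (act (η g) (of 0)) := by
      change act (θ g * shk (n + 1) (η g)) _ = _
      rw [map_mul act, MulAut.mul_apply, map_mul (act _), act_shk_lt (by omega), act_shk_shF,
        map_mul (act _), act_Bd_shF (hn' g)]
    rw [Subgroup.mem_inf, mem_fixS, mem_fixS, mem_fixS, e]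
    constructor
    · intro h
      have h3 := congrArg (qk (n + 1)) h
      rw [map_mul, map_mul, qk_act_Bd (hn' g), qk_shF, qk_shF, mul_left_cancel_iff] at h3
      rw [h3, mul_right_cancel_iff] at h
      exact ⟨h, h3⟩
    · rintro ⟨h, h'⟩
      rw [h, h']
  rw [← key]
  exact closed_fixS hb _

lemma closed_iInf {ι : Type} [Finite ι] (H : ι → Subgroup G) (h : ∀ i, Closed (H i)) :
    Closed (⨅ i, H i) := by
  classical
  have := Fintype.ofFinite ι
  have key : ∀ s : Finset ι, Closed (⨅ i ∈ s, H i) := by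
    intro s
    induction s using Finset.induction_on with
    | empty => simpa using closed_top
    | insert a s _ ih => rw [Finset.iInf_insert]; exact (h a).inf ih
  simpa using key Finset.univ

lemma Closed.orbit {H : Subgroup G} (h : Closed H) : ∃ θ : G →* BB, Bdd θ ∧
    ∃ orb : G ⧸ H → FreeGroup ℕ, (∀ g q, act (θ g) (orb q) = orb (g • q)) ∧
      Function.Injective (lift orb) := by
  obtain ⟨θ, hb, rfl⟩ := h
  have wd : ∀ (η : G →* BB), fixS η (of 0) = fixS θ (of 0) → ∀ a b : G,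
      (a : G ⧸ fixS θ (of 0)) = b ↔ act (η a) (of 0) = act (η b) (of 0) := by
    intro η hη a b
    rw [QuotientGroup.eq, ← hη, mem_fixS, map_mul, map_mul, map_inv, map_inv, MulAut.mul_apply,
      MulAut.inv_apply, MulEquiv.symm_apply_eq, eq_comm]
  let orb : G ⧸ fixS θ (of 0) → FreeGroup ℕ := fun q => act (upg θ (of 0) q.out) (of 0)
  have ho : ∀ a : G, orb a = act (upg θ (of 0) a) (of 0) := fun a =>
    (wd _ (fixS_upg θ _) _ _).mp (QuotientGroup.out_eq' _)
  refine ⟨upg θ (of 0), hb.upg _, orb, fun g q => ?_, ?_⟩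
  · induction q using QuotientGroup.induction_on with
    | H a =>
      rw [ho, MulAction.Quotient.smul_mk, ho, smul_eq_mul, map_mul, map_mul, MulAut.mul_apply]
  · refine orbit_free (fun q => ((of 0)⁻¹ * act (θ q.out) (of 0))⁻¹) (fun q q' h => ?_) orb
      (fun q => ?_)
    · simp only [inv_inj, mul_left_cancel_iff] at h
      rw [← QuotientGroup.out_eq' q, ← QuotientGroup.out_eq' q']
      exact (wd θ rfl _ _).mpr h
    · simp only [orb]
      rw [upg_eq, act_push_shk]
      exact act_push_zero _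

/-- The centralizer extension in semidirect form. -/
abbrev SD (D Ω : Type) [Group D] [MulAction D Ω] : Type := FreeGroup Ω ⋊[freeAct D Ω] D

lemma Closed.sd {H : Subgroup G} (h : Closed H) :
    Closed ((SemidirectProduct.inr : G →* SD G (G ⧸ H)).range) := by
  obtain ⟨θ, ⟨n, hn⟩, orb, h1, h2⟩ := h.orbit
  let Θ : SD G (G ⧸ H) →* BB := SemidirectProduct.lift (push.comp (lift orb)) ((shk 1).comp θ)
    (fun g => by
      refine FreeGroup.ext_hom _ _ (fun q => ?_)
      simp [conj_push, h1])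
  have hΘ : ∀ x, Θ x = push (lift orb x.left) * shk 1 (θ x.right) := fun x => rfl
  obtain ⟨m, hm⟩ := exists_Bd (push (orb (1 : G)))
  have hs : ∀ g, shk 1 (θ g) ∈ Bd (n + 1 + m) := fun g =>
    Bd_mono (by omega) (shk_mem_Bd 1 (hn g))
  refine ⟨Θ, ⟨n + 1 + m, fun x => ?_⟩, ?_⟩
  · rw [hΘ]
    refine mul_mem ?_ (hs _)
    refine mem_of_of (S := (Bd (n + 1 + m)).comap (push.comp (lift orb))) (fun q => ?_) _
    induction q using QuotientGroup.induction_on with
    | H a =>
      have : (a : G ⧸ H) = a • ((1 : G) : G ⧸ H) := by simp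
      rw [Subgroup.mem_comap, MonoidHom.comp_apply, lift_apply_of, this, ← h1, ← conj_push]
      exact mul_mem (mul_mem (hs _) (Bd_mono (by omega) hm)) (inv_mem (hs _))
  · ext x
    rw [mem_fixS, hΘ, act_push_shk]
    constructor
    · intro h3
      have h4 : x.left = 1 := h2 (by rw [push_fix h3, map_one])
      exact ⟨x.right, by ext <;> simp [h4]⟩
    · rintro ⟨g, rfl⟩
      simp

/-- The trivial subgroup is closed. -/
def Emb (G : Type) [Group G] : Prop := Closed (⊥ : Subgroup G)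

lemma Closed.emb {H : Subgroup G} (h : Closed H) (h1 : ∀ g ∈ H, g = 1) : Emb G := by
  have : H = ⊥ := eq_bot_iff.mpr h1
  rwa [this] at h

lemma Emb.of_injective {G' : Type} [Group G'] (h : Emb G) (f : G' →* G)
    (hf : Function.Injective f) : Emb G' := by
  have := Closed.comap h f
  rwa [MonoidHom.comap_bot, (MonoidHom.ker_eq_bot_iff f).mpr hf] at this

lemma Emb.closed_ker {G' : Type} [Group G'] (h : Emb G) (f : G' →* G) : Closed f.ker :=
  Closed.comap h f

lemma emb_int : Emb (Multiplicative ℤ) := by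
  obtain ⟨m, hm⟩ := exists_Bd (push (of 0))
  refine ⟨push.comp (zpowersHom _ (of 0)), ⟨m, fun g => ?_⟩, ?_⟩
  · simpa using zpow_mem hm _
  · rw [eq_bot_iff]
    intro g hg
    have h1 := push_fix (mem_fixS.mp hg)
    have h2 := congrArg (lift (fun _ : ℕ => Multiplicative.ofAdd (1 : ℤ))) h1
    simpa [← ofAdd_zsmul] using h2

lemma Emb.prod {G' : Type} [Group G'] (h : Emb G) (h' : Emb G') : Emb (G × G') := by
  refine ((h.closed_ker (MonoidHom.fst G G')).inf (h'.closed_ker (MonoidHom.snd G G'))).emb ?_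
  rintro ⟨a, b⟩ ⟨h1, h2⟩
  exact Prod.ext h1 h2

lemma emb_pi {ι : Type} [Finite ι] (K : ι → Type) [∀ i, Group (K i)] (h : ∀ i, Emb (K i)) :
    Emb (∀ i, K i) := by
  refine (closed_iInf _ (fun i => (h i).closed_ker (Pi.evalMonoidHom K i))).emb (fun x hx => ?_)
  funext i
  exact Subgroup.mem_iInf.mp hx i

lemma conj_pp_pow {r N m : ℕ} (h : r + m ≤ N + 1) {b : BB} (hb : b ∈ Bd r) :
    pp sg N ^ m * b * (pp sg N ^ m)⁻¹ = shk m b := by
  refine Bd_le (S := MonoidHom.eqLocus (MulAut.conj (pp sg N ^ m)).toMonoidHom (shk m))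
    (fun i hi => ?_) hb
  change pp sg N ^ m * sg i * (pp sg N ^ m)⁻¹ = shk m (sg i)
  rw [(sg_seq N).pp_pow_mul i m (by omega), shk_sg, mul_inv_cancel_right]

lemma central_Bd {N : ℕ} {b : BB} (hb : b ∈ Bd (N + 1)) : Commute (pp sg N ^ (N + 1)) b := by
  refine Bd_le (S := Subgroup.centralizer {pp sg N ^ (N + 1)}) (fun i hi => ?_) hb _ rfl
  rintro _ rfl
  exact ((sg_seq N).central (by omega)).eq

lemma wr_rep {R : Type} [Group R] {θ : R →* BB} (hθ : Bdd θ) (N : ℕ) [NeZero N]
    (η : G →* Wr (ZMod N) R) (χ : G →* Multiplicative ℤ)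
    (hχ : ∀ g, (η g).a = ((χ g).toAdd : ℤ)) :
    ∃ Θ : G →* BB, Bdd Θ ∧ ∀ g, χ g = 1 → act (Θ g) (of 0) = of 0 →
      act (θ ((η g).c 0)) (of 0) = of 0 := by
  classical
  obtain ⟨r0, hr0⟩ := hθ
  obtain ⟨r, hr1, hr⟩ : ∃ r, 1 ≤ r ∧ ∀ x, θ x ∈ Bd r :=
    ⟨r0 + 1, by omega, fun x => Bd_mono (by omega) (hr0 x)⟩
  have hN : 1 ≤ N := Nat.pos_of_ne_zero (NeZero.ne N)
  obtain ⟨L, hL⟩ : ∃ L, r * N = L + 1 := ⟨r * N - 1, by have := Nat.mul_pos hr1 hN; omega⟩
  have hrL : r ≤ L + 1 := by rw [← hL]; exact Nat.le_mul_of_pos_right _ hN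
  set δ : BB := pp sg L ^ r with hδ
  let blkZ : ℤ → R →* BB := fun k => (MulAut.conj (δ ^ k)).toMonoidHom.comp θ
  have bz : ∀ k x, blkZ k x = δ ^ k * θ x * (δ ^ k)⁻¹ := fun k x => rfl
  have hper : ∀ k k' : ℤ, (k : ZMod N) = k' → ∀ x, blkZ k x = blkZ k' x := by
    intro k k' h x
    obtain ⟨m, hm⟩ := (ZMod.intCast_eq_intCast_iff_dvd_sub k k' N).mp h
    have h1 : Commute (δ ^ (N : ℤ)) (θ x) := by
      rw [zpow_natCast, hδ, ← pow_mul, hL]
      exact central_Bd (Bd_mono hrL (hr x))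
    have h2 := (h1.zpow_left m).eq
    rw [← zpow_mul, ← hm] at h2
    have e : k' = k + (k' - k) := by ring
    rw [bz, bz, e, zpow_add, mul_assoc (δ ^ k) (δ ^ (k' - k)), h2]
    group
  let blk : ZMod N → R →* BB := fun j => blkZ (j.val : ℤ)
  have hblk : ∀ j x, blk j x = shk (r * j.val) (θ x) := by
    intro j x
    have hj := ZMod.val_lt j
    have : r + r * j.val ≤ L + 1 := by
      rw [← hL, ← mul_one_add]
      exact Nat.mul_le_mul_left _ (by omega)
    rw [← conj_pp_pow this (hr x), bz, zpow_natCast, hδ, ← pow_mul]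
  have hc0 : ∀ i j : ZMod N, i.val < j.val → ∀ x y, Commute (blk i x) (blk j y) := by
    intro i j hij x y
    rw [hblk, hblk]
    refine Bd_commute_shk (Bd_mono ?_ (shk_mem_Bd _ (hr x))) _
    rw [← mul_one_add]
    exact Nat.mul_le_mul_left _ (by omega)
  have hc : Pairwise fun i j => ∀ x y, Commute (blk i x) (blk j y) := by
    intro i j hij x y
    rcases lt_or_gt_of_ne (fun h => hij (ZMod.val_injective N h)) with h | h
    · exact hc0 i j h x y
    · exact (hc0 j i h y x).symm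
  let Pr : (ZMod N → R) →* BB := MonoidHom.noncommPiCoprod blk hc
  have hshift : ∀ (k : ℤ) (c : ZMod N → R),
      (δ ^ k)⁻¹ * Pr c * δ ^ k = Pr (fun j => c (j + k)) := by
    intro k c
    let sh : (ZMod N → R) →* (ZMod N → R) :=
      { toFun := fun c j => c (j + k), map_one' := rfl, map_mul' := fun _ _ => rfl }
    have : (MulAut.conj (δ ^ k)⁻¹).toMonoidHom.comp Pr = Pr.comp sh := by
      refine MonoidHom.pi_ext (fun i x => ?_)
      have e : sh (Pi.mulSingle i x) = Pi.mulSingle (i - k) x := by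
        funext j
        change Pi.mulSingle (M := fun _ => R) i x (j + k) = _
        by_cases h : j = i - k
        · simp [h]
        · rw [Pi.mulSingle_eq_of_ne h, Pi.mulSingle_eq_of_ne (fun h' => h (by rw [← h']; ring))]
      simp only [MonoidHom.comp_apply, e, Pr, MonoidHom.noncommPiCoprod_mulSingle]
      rw [show blk (i - k) x = blkZ ((i.val : ℤ) - k) x from hper _ _ (by simp) x]
      change (δ ^ k)⁻¹ * (δ ^ (i.val : ℤ) * θ x * (δ ^ (i.val : ℤ))⁻¹) * (δ ^ k)⁻¹⁻¹ =
        δ ^ ((i.val : ℤ) - k) * θ x * (δ ^ ((i.val : ℤ) - k))⁻¹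
      group
    have h3 := DFunLike.congr_fun this c
    change (δ ^ k)⁻¹ * Pr c * (δ ^ k)⁻¹⁻¹ = _ at h3
    rwa [inv_inv] at h3
  let Θ : G →* BB :=
    { toFun := fun g => Pr (η g).c * (δ ^ (χ g).toAdd)⁻¹
      map_one' := by
        have : (η 1).c = 1 := by rw [map_one]; rfl
        rw [this]
        simp
      map_mul' := fun g h => by
        have e : (η (g * h)).c = (η g).c * fun j => (η h).c (j + ((χ g).toAdd : ℤ)) := by
          funext j; simp [hχ]
        rw [e, map_mul, ← hshift, map_mul, toAdd_mul]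
        group }
  have hPr : ∀ (S : Subgroup BB) (c : ZMod N → R), (∀ j, blk j (c j) ∈ S) → Pr c ∈ S := by
    intro S c h
    rw [MonoidHom.noncommPiCoprod_apply]
    exact Subgroup.noncommProd_mem _ _ (fun j _ => h j)
  refine ⟨Θ, ⟨L + 1, fun g => ?_⟩, fun g h1 h2 => ?_⟩
  · have hd : δ ∈ Bd (L + 1) := pow_mem (pp_mem _ _ _ (fun i hi => sg_mem_Bd (by omega))) _
    refine mul_mem (hPr _ _ (fun j => ?_)) (inv_mem (zpow_mem hd _))
    rw [bz]
    exact mul_mem (mul_mem (zpow_mem hd _) (Bd_mono hrL (hr _))) (inv_mem (zpow_mem hd _))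
  · have e1 : Θ g = Pr (η g).c := by simp [Θ, h1]
    have e2 : (η g).c = Pi.mulSingle 0 ((η g).c 0) * Function.update (η g).c 0 1 := by
      funext j
      by_cases h : j = 0
      · simp [h]
      · simp [h]
    have e3 : Pr (Function.update (η g).c 0 1) ∈ fixS (MonoidHom.id BB) (of 0) := by
      refine hPr _ _ (fun j => ?_)
      by_cases h : j = 0
      · simp [h]
      · rw [hblk, mem_fixS, MonoidHom.id_apply]
        refine act_shk_lt (Nat.mul_pos hr1 (Nat.pos_of_ne_zero ?_)) _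
        rwa [Ne, ZMod.val_eq_zero]
    rw [e1, e2, map_mul, map_mul, MulAut.mul_apply, show act _ (of 0) = of 0 from e3] at h2
    simpa [Pr, blk, bz] using h2

/-- The reduction of an integer valued character. -/
def redChar (χ : G →* Multiplicative ℤ) (N : ℕ) : G →* Multiplicative (ZMod N) :=
  (Int.castAddHom (ZMod N)).toMultiplicative.comp χ

lemma mem_ker_redChar {χ : G →* Multiplicative ℤ} {N : ℕ} {g : G} :
    g ∈ (redChar χ N).ker ↔ (((χ g).toAdd : ℤ) : ZMod N) = 0 := Iff.rfl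

lemma emb_of_cyclic (χ : G →* Multiplicative ℤ) (y : G) (hy : χ y = Multiplicative.ofAdd 1)
    (N : ℕ) [NeZero N] (h : Emb (redChar χ N).ker) : Emb G := by
  obtain ⟨θ, hb, hθ⟩ := h
  let η : G →* Wr (ZMod N) (redChar χ N).ker :=
    { toFun := fun g => ⟨fun j => ⟨y ^ j.val * g * (y ^ (j + ((χ g).toAdd : ℤ)).val)⁻¹, by
        rw [mem_ker_redChar]
        simp [hy]⟩, ((χ g).toAdd : ℤ)⟩
      map_one' := by ext j <;> simp
      map_mul' := fun g h => by ext j <;> simp [mul_assoc, add_assoc] }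
  obtain ⟨Θ, h1, h2⟩ := wr_rep hb N η χ (fun g => rfl)
  refine ((closed_fixS h1 (of 0)).inf (emb_int.closed_ker χ)).emb ?_
  rintro g ⟨h3, h4⟩
  have h5 : (η g).c 0 ∈ fixS θ (of 0) := h2 g h4 h3
  rw [hθ, Subgroup.mem_bot] at h5
  have h6 : χ g = 1 := h4
  simpa [η, h6] using congrArg Subtype.val h5

end Pool.Agent.Lib.MP_19b52f_al.EA
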