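import Pool.Agent.Lib.MP_19b52f_al.EA.Defs
import Pool.Agent.Lib.MP_19b52f_al.EA.Closed

/-! Artin groups by generators, and faithfulness of the Artin action of the braid groups. -/

namespace Pool.Agent.Lib.MP_19b52f_al.EA

open FreeGroup hiding map_mul map_inv map_one lift_unique

lemma map_omega {G H : Type} [Group G] [Group H] (f : G →* H) (a b : G) (m : ℕ) :
    f (omega a b m) = omega (f a) (f b) m := by
  unfold omega
  split_ifs <;> simp

lemma omega_two {G : Type} [Group G] (a b : G) : omega a b 2 = a * b := by simp [omega]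

lemma omega_three {G : Type} [Group G] (a b : G) : omega a b 3 = a * b * a := by
  rw [omega, if_neg (by decide)]; simp

lemma omega_even {G : Type} [Group G] (a b : G) {m : ℕ} (h : Even m) :
    omega a b m = (a * b) ^ (m / 2) := if_pos h

section artin
variable {S : Type} (M : CoxeterMatrix S)

/-- The standard generators of an Artin group. -/
def ag (s : S) : Artin M := PresentedGroup.of s

lemma ag_rel {s t : S} (h : s ≠ t) (h0 : M s t ≠ 0) :
    omega (ag M s) (ag M t) (M s t) = omega (ag M t) (ag M s) (M s t) := by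
  have := PresentedGroup.one_of_mem (rels := artinRels M) ⟨s, t, h, h0, rfl⟩
  rw [map_mul, map_inv, map_omega, map_omega, mul_inv_eq_one] at this
  exact this

/-- The universal property of an Artin group. -/
def artinLift {G : Type} [Group G] (f : S → G)
    (h : ∀ s t, s ≠ t → M s t ≠ 0 → omega (f s) (f t) (M s t) = omega (f t) (f s) (M s t)) :
    Artin M →* G :=
  PresentedGroup.toGroup (f := f) (by
    rintro r ⟨s, t, h1, h2, rfl⟩
    rw [map_mul, map_inv, map_omega, map_omega, mul_inv_eq_one]
    simpa using h s t h1 h2)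

@[simp] lemma artinLift_ag {G : Type} [Group G] (f : S → G) (h) (s : S) :
    artinLift M f h (ag M s) = f s := PresentedGroup.toGroup.of _

variable {M}

lemma mem_of_ag {H : Subgroup (Artin M)} (h : ∀ s, ag M s ∈ H) (g : Artin M) : g ∈ H :=
  PresentedGroup.generated_by _ H h g

lemma artin_ext {G : Type} [Group G] {f g : Artin M →* G} (h : ∀ s, f (ag M s) = g (ag M s)) :
    f = g := PresentedGroup.ext h

end artin

/-- The braid group on `n + 1` strands. -/
abbrev Br (n : ℕ) : Type := Artin (CoxeterMatrix.A n)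

/-- Its generators, indexed by natural numbers. -/
def sA (n i : ℕ) : Br n := if h : i < n then ag _ ⟨i, h⟩ else 1

lemma sA_val {n : ℕ} (i : Fin n) : sA n i = ag _ i := by simp [sA]

lemma A_apply {n : ℕ} (i j : Fin n) : CoxeterMatrix.A n i j =
    if i = j then 1 else (if (j : ℕ) + 1 = i ∨ (i : ℕ) + 1 = j then 3 else 2) := rfl

lemma sA_seq (n : ℕ) : BraidSeq (sA n) n where
  braid i hi := by
    have e : CoxeterMatrix.A n ⟨i, by omega⟩ ⟨i + 1, hi⟩ = 3 := by simp [A_apply]
    have := ag_rel (CoxeterMatrix.A n) (s := ⟨i, by omega⟩) (t := ⟨i + 1, hi⟩) (by simp)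
      (by rw [e]; decide)
    rw [e, omega_three, omega_three] at this
    simpa [sA, hi, show i < n by omega] using this
  comm i j hij hj := by
    have e : CoxeterMatrix.A n ⟨i, by omega⟩ ⟨j, hj⟩ = 2 := by
      rw [A_apply, if_neg (by simp; omega), if_neg (by simp; omega)]
    have := ag_rel (CoxeterMatrix.A n) (s := ⟨i, by omega⟩) (t := ⟨j, hj⟩) (by simp; omega)
      (by rw [e]; decide)
    rw [e, omega_two, omega_two] at this
    simpa [sA, hj, show i < n by omega, Commute, SemiconjBy] using this

/-- The universal property of the braid group. -/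
def brLift {G : Type} [Group G] {n : ℕ} (s : ℕ → G) (h : BraidSeq s n) : Br n →* G :=
  artinLift _ (fun i => s i.val) (by
    intro i j hij _
    have hij' : (i : ℕ) ≠ j := fun e => hij (Fin.ext e)
    have hi := i.2
    have hj := j.2
    rw [A_apply, if_neg hij]
    split_ifs with h1
    · rw [omega_three, omega_three]
      rcases h1 with h1 | h1
      · rw [← h1]; exact (h.braid j (by omega)).symm
      · rw [← h1]; exact h.braid i (by omega)
    · rw [omega_two, omega_two]
      rcases lt_or_gt_of_ne hij' with h2 | h2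
      · exact (h.comm i j (by omega) hj).eq
      · exact (h.comm j i (by omega) hi).eq.symm)

lemma brLift_sA {G : Type} [Group G] {n : ℕ} (s : ℕ → G) (h : BraidSeq s n) {i : ℕ} (hi : i < n) :
    brLift s h (sA n i) = s i := by simp [brLift, sA, hi]

/-- The inclusion into the infinite braid group. -/
def inc (n : ℕ) : Br n →* BB := brLift sg (sg_seq n)

/-- The shift. -/
def shA (n : ℕ) : Br n →* Br (n + 1) := brLift (fun i => sA (n + 1) (i + 1))
  ⟨fun i hi => (sA_seq (n + 1)).braid (i + 1) (by omega),
   fun i j h hj => (sA_seq (n + 1)).comm _ _ (by omega) (by omega)⟩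

lemma inc_sA {n i : ℕ} (h : i < n) : inc n (sA n i) = sg i := brLift_sA _ _ h

lemma shA_sA {n i : ℕ} (h : i < n) : shA n (sA n i) = sA (n + 1) (i + 1) := brLift_sA _ _ h

lemma inc_shA {n : ℕ} (b : Br n) : inc (n + 1) (shA n b) = shk 1 (inc n b) := by
  have : (inc (n + 1)).comp (shA n) = (shk 1).comp (inc n) := artin_ext fun i => by
    simp only [MonoidHom.comp_apply, ← sA_val]
    rw [shA_sA i.2, inc_sA (by omega), inc_sA i.2, shk_sg]
  exact DFunLike.congr_fun this b

lemma range_inc (n : ℕ) : (inc n).range = Bd (n + 1) := by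
  refine le_antisymm ?_ (Bd_le fun i hi => ⟨sA n i, inc_sA (by omega)⟩)
  rintro _ ⟨b, rfl⟩
  refine mem_of_ag (H := (Bd (n + 1)).comap (inc n)) (fun i => ?_) b
  rw [Subgroup.mem_comap, ← sA_val, inc_sA i.2]
  exact sg_mem_Bd (by omega)

/-- Point pushing inside a finite braid group. -/
def pushA (n : ℕ) : FreeGroup ℕ →* Br n := lift (fun j => if j < n then aa (sA n) j else 1)

/-- Kill the letters from `n` on. -/
def cut (n : ℕ) : FreeGroup ℕ →* FreeGroup ℕ := lift (fun j => if j < n then of j else 1)

lemma pushA_cut (n : ℕ) (f : FreeGroup ℕ) : pushA n (cut n f) = pushA n f := by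
  have : (pushA n).comp (cut n) = pushA n := by
    ext j
    by_cases h : j < n <;> simp [pushA, cut, h]
  exact DFunLike.congr_fun this f

lemma inc_pp {n k : ℕ} (h : k ≤ n) : inc n (pp (sA n) k) = pp sg k :=
  map_pp _ _ _ _ (fun _ _ => inc_sA (by omega))

lemma inc_pushA (n : ℕ) (f : FreeGroup ℕ) : inc n (pushA n f) = push (cut n f) := by
  have : (inc n).comp (pushA n) = push.comp (cut n) := by
    ext j
    by_cases h : j < n
    · simp [pushA, cut, h, push, aa, inc_pp h.le, inc_sA h]
    · simp [pushA, cut, h]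
  exact DFunLike.congr_fun this f

lemma conj_pushA {n : ℕ} (b : Br n) (w : FreeGroup ℕ) :
    shA n b * pushA (n + 1) w * (shA n b)⁻¹ = pushA (n + 1) (act (inc n b) w) := by
  let S : Subgroup (Br n) :=
    { carrier := {b | ∀ w, shA n b * pushA (n + 1) w * (shA n b)⁻¹ =
        pushA (n + 1) (act (inc n b) w)}
      one_mem' := by simp
      mul_mem' := by
        intro a b ha hb w
        rw [map_mul, map_mul, map_mul act, MulAut.mul_apply, ← ha, ← hb]; group
      inv_mem' := by
        intro a ha w
        have := ha (act (inc n a⁻¹) w)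
        rw [← MulAut.mul_apply, ← map_mul, ← map_mul, mul_inv_cancel, map_one, map_one,
          MulAut.one_apply] at this
        rw [← this, map_inv]; group }
  refine mem_of_ag (H := S) (fun i w => ?_) b w
  have hi := i.2
  rw [← sA_val, shA_sA hi, inc_sA hi]
  have : (MulAut.conj (sA (n + 1) (i + 1))).toMonoidHom.comp (pushA (n + 1)) =
      (pushA (n + 1)).comp (act (sg i)).toMonoidHom := by
    ext j
    change sA (n + 1) (i + 1) * pushA (n + 1) (of j) * (sA (n + 1) (i + 1))⁻¹ =
      pushA (n + 1) (act (sg i) (of j))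
    rw [act_sg]
    by_cases hj : j < n + 1
    · have := (sA_seq (n + 1)).conj_aa (i := i) (j := j) (by omega) hj
      rw [pushA, lift_apply_of, if_pos hj, this, artF]
      have e1 : (i : ℕ) < n + 1 := by omega
      have e2 : (i : ℕ) + 1 < n + 1 := by omega
      split_ifs <;> simp only [map_mul, map_inv, lift_apply_of, if_pos e1, if_pos e2, if_pos hj]
    · rw [artF, if_neg (by omega), if_neg (by omega), pushA, lift_apply_of, if_neg hj]
      simp
  exact DFunLike.congr_fun this w

/-- The braids in which the first strand returns. -/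
def firstPure (n : ℕ) : Subgroup (Br (n + 1)) where
  carrier := {e | ∃ f b, e = pushA (n + 1) f * shA n b}
  one_mem' := ⟨1, 1, by simp⟩
  mul_mem' := by
    rintro _ _ ⟨f, b, rfl⟩ ⟨f', b', rfl⟩
    refine ⟨f * act (inc n b) f', b * b', ?_⟩
    rw [map_mul, map_mul, ← conj_pushA]; group
  inv_mem' := by
    rintro _ ⟨f, b, rfl⟩
    refine ⟨act (inc n b⁻¹) f⁻¹, b⁻¹, ?_⟩
    rw [← conj_pushA, map_inv, map_inv]; group

lemma comb (n : ℕ) (b : Br (n + 1)) :
    ∃ i ≤ n + 1, ∃ e ∈ firstPure n, b = e * pp (sA (n + 1)) i := by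
  have hs : ∀ k < n, sA (n + 1) (k + 1) ∈ firstPure n := fun k hk =>
    ⟨1, sA n k, by rw [map_one, one_mul, shA_sA hk]⟩
  have ha : ∀ k < n + 1, aa (sA (n + 1)) k ∈ firstPure n := fun k hk =>
    ⟨of k, 1, by simp [pushA, hk, -Order.lt_add_one_iff]⟩
  have H := sA_seq (n + 1)
  have hb : b ∈ Subgroup.closure (Set.range (PresentedGroup.of : Fin (n + 1) → Br (n + 1))) := by
    rw [PresentedGroup.closure_range_of]; trivial
  induction hb using Subgroup.closure_induction_right with
  | one => exact ⟨0, by omega, 1, one_mem _, by simp [pp]⟩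
  | mul_right x _ y hy ih =>
    obtain ⟨k, rfl⟩ := hy
    obtain ⟨i, hi, e, he, rfl⟩ := ih
    have hk := k.2
    rw [show PresentedGroup.of k = sA (n + 1) k from (sA_val k).symm]
    generalize (k : ℕ) = k at hk
    by_cases h1 : k + 2 ≤ i
    · refine ⟨i, hi, e * sA (n + 1) (k + 1), mul_mem he (hs k (by omega)), ?_⟩
      rw [mul_assoc, mul_assoc, H.mul_pp h1 hi]
    · by_cases h2 : i = k + 1
      · subst h2
        refine ⟨k, by omega, e * aa (sA (n + 1)) k, mul_mem he (ha k hk), ?_⟩
        simp only [pp, aa, pow_two]; group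
      · by_cases h3 : i = k
        · subst h3
          exact ⟨i + 1, by omega, e, he, by rw [pp, mul_assoc]⟩
        · obtain ⟨k, rfl⟩ : ∃ j, k = j + 1 := ⟨k - 1, by omega⟩
          refine ⟨i, hi, e * sA (n + 1) (k + 1), mul_mem he (hs k (by omega)), ?_⟩
          rw [mul_assoc, mul_assoc, (H.pp_comm (by omega) hk).eq]
  | mul_inv_cancel x _ y hy ih =>
    obtain ⟨k, rfl⟩ := hy
    obtain ⟨i, hi, e, he, rfl⟩ := ih
    have hk := k.2
    rw [show PresentedGroup.of k = sA (n + 1) k from (sA_val k).symm]
    generalize (k : ℕ) = k at hk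
    by_cases h1 : k + 2 ≤ i
    · refine ⟨i, hi, e * (sA (n + 1) (k + 1))⁻¹, mul_mem he (inv_mem (hs k (by omega))), ?_⟩
      rw [mul_assoc, mul_assoc, mul_left_cancel_iff, mul_inv_eq_iff_eq_mul, mul_assoc,
        ← H.mul_pp h1 hi, inv_mul_cancel_left]
    · by_cases h2 : i = k + 1
      · subst h2
        exact ⟨k, by omega, e, he, by simp [pp, mul_assoc]⟩
      · by_cases h3 : i = k
        · subst h3
          refine ⟨i + 1, by omega, e * (aa (sA (n + 1)) i)⁻¹, mul_mem he (inv_mem (ha i hk)), ?_⟩
          simp only [pp, aa, pow_two]; group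
        · obtain ⟨k, rfl⟩ : ∃ j, k = j + 1 := ⟨k - 1, by omega⟩
          refine ⟨i, hi, e * (sA (n + 1) (k + 1))⁻¹, mul_mem he (inv_mem (hs k (by omega))), ?_⟩
          rw [mul_assoc, mul_assoc, (H.pp_comm (by omega) hk).inv_right.eq]

lemma act_pp (i : ℕ) : act (pp sg i) (of i) = of 0 := by
  induction i with
  | zero => simp [pp]
  | succ i ih =>
    rw [pp, map_mul, MulAut.mul_apply, act_sg, artF, if_neg (by omega), if_pos rfl, ih]

theorem faithful (n : ℕ) (b : Br n) (h : ∀ j, act (inc n b) (of j) = of j) : b = 1 := by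
  classical
  induction n with
  | zero => exact Subgroup.mem_bot.mp (mem_of_ag (H := ⊥) (fun i => i.elim0) b)
  | succ n ih =>
    obtain ⟨i, hi, _, ⟨f, c, rfl⟩, rfl⟩ := comb n b
    have h1 := h i
    rw [map_mul (inc _), map_mul (inc _), inc_pp hi, inc_pushA, inc_shA, map_mul act,
      MulAut.mul_apply, act_pp, act_push_shk] at h1
    obtain ⟨g, h2, -⟩ := act_push_zero (cut (n + 1) f)
    have hi0 : i = 0 := by
      let φ : FreeGroup ℕ →* Multiplicative ℤ :=
        lift (fun z => if z = 0 then Multiplicative.ofAdd 1 else 1)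
      have h3 := congrArg φ (h2.symm.trans h1)
      simp only [map_mul, map_inv, mul_inv_cancel_comm, φ, lift_apply_of, if_true] at h3
      by_contra hne
      rw [if_neg hne] at h3
      exact absurd h3 (by decide)
    subst hi0
    have h4 : pushA (n + 1) f = 1 := by rw [← pushA_cut, push_fix h1, map_one]
    simp only [h4, pp, one_mul, mul_one, inc_shA] at h ⊢
    rw [ih c (fun j => ?_), map_one]
    have := congrArg (qk 1) (h (j + 1))
    rwa [qk_act_shk, qk_of_add] at this

lemma inc_injective (n : ℕ) : Function.Injective (inc n) :=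
  (injective_iff_map_eq_one _).mpr (fun b hb => faithful n b (fun j => by simp [hb]))

lemma emb_br (n : ℕ) : Emb (Br n) := by
  have hb : Bdd (inc n) := ⟨n + 1, fun g => range_inc n ▸ ⟨g, rfl⟩⟩
  refine (closed_iInf (fun j : Fin (n + 1) => fixS (inc n) (of j))
    (fun j => closed_fixS hb _)).emb (fun g hg => faithful n g (fun j => ?_))
  by_cases hj : j < n + 1
  · exact Subgroup.mem_iInf.mp hg ⟨j, hj⟩
  · exact act_Bd_ge (n := n + 1) (by omega) (range_inc n ▸ ⟨g, rfl⟩)

theorem emb_iff {G : Type} [Group G] : Emb G ↔ EmbedsInBraidGroup G := by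
  constructor
  · rintro ⟨θ, ⟨n, hn⟩, h⟩
    have h1 : ∀ g, θ g ∈ (inc n).range := fun g => by
      rw [range_inc]; exact Bd_mono (by omega) (hn g)
    have h2 : Function.Injective θ := (injective_iff_map_eq_one _).mpr (fun g hg => by
      rw [← Subgroup.mem_bot, ← h, mem_fixS, hg]; simp)
    refine ⟨n, (MonoidHom.ofInjective (inc_injective n)).symm.toMonoidHom.comp
      (θ.codRestrict _ h1), ?_⟩
    exact (MonoidHom.ofInjective (inc_injective n)).symm.injective.comp
      (fun a b e => h2 (congrArg Subtype.val e))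
  · rintro ⟨n, f, hf⟩
    exact (emb_br n).of_injective f hf

end Pool.Agent.Lib.MP_19b52f_al.EA
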