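import Pool.Agent.Lib.MP_19b52f_al.EA.GP
import Pool.Agent.Lib.MP_19b52f_al.EA.Faith

/-! Cocycles of an Artin group with even labels between blocks, with values in graph powers. -/

namespace Pool.Agent.Lib.MP_19b52f_al.EA

/-- A Coxeter matrix with a block map; labels between blocks are even or infinity. -/
structure Setup (S I : Type) where
  N : CoxeterMatrix S
  β : S → I
  even : ∀ s t, β s ≠ β t → Even (N s t)

/-- The shift part as a homomorphism. -/
def Wr.aHom {Φ R : Type} [AddCommGroup Φ] [Group R] : Wr Φ R →* Multiplicative Φ where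
  toFun x := Multiplicative.ofAdd x.a
  map_one' := rfl
  map_mul' _ _ := rfl

/-- Membership in the product of two subgroups. -/
def Mem2 {G : Type} [Group G] (H H' : Subgroup G) (g : G) : Prop := ∃ a ∈ H, ∃ b ∈ H', g = a * b

lemma Mem2.map {G G' : Type} [Group G] [Group G'] (f : G →* G') {H H' : Subgroup G}
    {L L' : Subgroup G'} (h1 : ∀ x ∈ H, f x ∈ L) (h2 : ∀ x ∈ H', f x ∈ L') {g : G}
    (h : Mem2 H H' g) : Mem2 L L' (f g) := by
  obtain ⟨a, ha, b, hb, rfl⟩ := h
  exact ⟨_, h1 a ha, _, h2 b hb, map_mul _ _ _⟩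

lemma Mem2.mul {G : Type} [Group G] {H H' : Subgroup G} {g a b : G} (h : Mem2 H H' g) (ha : a ∈ H)
    (hb : b ∈ H') : Mem2 H H' (a * g * b) := by
  obtain ⟨x, hx, y, hy, rfl⟩ := h
  exact ⟨_, mul_mem ha hx, _, mul_mem hy hb, by group⟩

namespace Setup
variable {S I : Type} (B : Setup S I)

/-- The Artin group. -/
abbrev A : Type := Artin B.N

/-- Standard parabolic subgroups on unions of blocks. -/
def par (T : Set I) : Subgroup B.A := Subgroup.closure {x | ∃ s, B.β s ∈ T ∧ x = ag B.N s}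

/-- Homomorphisms that kill the blocks outside `T`. -/
def killLift {G : Type} [Group G] (T : Set I) (f : S → G) (h1 : ∀ s, B.β s ∉ T → f s = 1)
    (h2 : ∀ s t, B.β s ∈ T → B.β t ∈ T → s ≠ t → B.N s t ≠ 0 →
      omega (f s) (f t) (B.N s t) = omega (f t) (f s) (B.N s t)) : B.A →* G :=
  artinLift B.N f (fun s t hst h0 => by
    by_cases hs : B.β s ∈ T
    · by_cases ht : B.β t ∈ T
      · exact h2 s t hs ht hst h0
      · have he := B.even s t (fun e => ht (e ▸ hs))
        simp [omega_even _ _ he, h1 t ht]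
    · by_cases ht : B.β t ∈ T
      · have he := B.even s t (fun e => hs (e ▸ ht))
        simp [omega_even _ _ he, h1 s hs]
      · rw [h1 s hs, h1 t ht])

@[simp] lemma killLift_ag {G : Type} [Group G] (T : Set I) (f : S → G) (h1 h2) (s : S) :
    B.killLift T f h1 h2 (ag B.N s) = f s := artinLift_ag _ _ _ _

open Classical in
/-- The retraction onto a standard parabolic subgroup. -/
noncomputable def rho (T : Set I) : B.A →* B.A :=
  B.killLift T (fun s => if B.β s ∈ T then ag B.N s else 1) (fun s hs => if_neg hs)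
    (fun s t hs ht hst h0 => by simpa [hs, ht] using ag_rel B.N hst h0)

open Classical in
/-- The degree in one block. -/
noncomputable def deg (j : I) : B.A →* Multiplicative ℤ :=
  artinLift B.N (fun s => if B.β s = j then Multiplicative.ofAdd 1 else 1) (fun s t _ _ => by
    by_cases h : B.β s = B.β t
    · rw [h]
    · rw [omega_even _ _ (B.even s t h), omega_even _ _ (B.even s t h), mul_comm])

/-- The block degrees modulo `n`. -/
noncomputable def ab (n : ℕ) (g : B.A) : I → ZMod n := fun j => ((B.deg j g).toAdd : ℤ)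

variable {B}

lemma ag_mem {T : Set I} {s : S} (h : B.β s ∈ T) : ag B.N s ∈ B.par T :=
  Subgroup.subset_closure ⟨s, h, rfl⟩

lemma par_le {T : Set I} {H : Subgroup B.A} (h : ∀ s, B.β s ∈ T → ag B.N s ∈ H) : B.par T ≤ H := by
  rw [par, Subgroup.closure_le]
  rintro _ ⟨s, hs, rfl⟩
  exact h s hs

lemma par_mono {T U : Set I} (h : T ⊆ U) : B.par T ≤ B.par U := par_le fun _ hs => ag_mem (h hs)

lemma mem_par_univ (g : B.A) : g ∈ B.par Set.univ := mem_of_ag (fun _ => ag_mem (Set.mem_univ _)) g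

lemma par_empty {g : B.A} (h : g ∈ B.par ∅) : g = 1 :=
  Subgroup.mem_bot.mp (par_le (H := ⊥) (fun _ hv => hv.elim) h)

lemma eq_of_par {G : Type} [Group G] {f f' : B.A →* G} {T : Set I}
    (h : ∀ s, B.β s ∈ T → f (ag B.N s) = f' (ag B.N s)) {g : B.A} (hg : g ∈ B.par T) :
    f g = f' g := par_le (H := f.eqLocus f') h hg

lemma rho_ag_mem {T : Set I} {s : S} (h : B.β s ∈ T) : B.rho T (ag B.N s) = ag B.N s := by
  simp [rho, h]

lemma rho_ag_not {T : Set I} {s : S} (h : B.β s ∉ T) : B.rho T (ag B.N s) = 1 := by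
  simp [rho, h]

lemma rho_of_mem {T : Set I} {g : B.A} (h : g ∈ B.par T) : B.rho T g = g :=
  eq_of_par (f' := MonoidHom.id _) (fun _ hs => rho_ag_mem hs) h

lemma rho_mem_inter (T : Set I) {U : Set I} {g : B.A} (h : g ∈ B.par U) :
    B.rho T g ∈ B.par (T ∩ U) := by
  refine par_le (H := (B.par (T ∩ U)).comap (B.rho T)) (fun s hs => ?_) h
  rw [Subgroup.mem_comap]
  by_cases h : B.β s ∈ T
  · rw [rho_ag_mem h]; exact ag_mem (Set.mem_inter h hs)
  · rw [rho_ag_not h]; exact one_mem _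

lemma rho_mem (T : Set I) (g : B.A) : B.rho T g ∈ B.par T :=
  par_mono Set.inter_subset_left (rho_mem_inter T (mem_par_univ g))

lemma mem2_inter {T U J : Set I} {g : B.A} (hg : g ∈ B.par J) (h : Mem2 (B.par T) (B.par U) g) :
    Mem2 (B.par (J ∩ T)) (B.par (J ∩ U)) g :=
  rho_of_mem hg ▸ h.map (B.rho J) (fun _ => rho_mem_inter J) (fun _ => rho_mem_inter J)

variable {n : ℕ}

@[simp] lemma ab_one : B.ab n 1 = 0 := by funext j; simp [ab]

@[simp] lemma ab_mul (g h : B.A) : B.ab n (g * h) = B.ab n g + B.ab n h := by funext j; simp [ab]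

@[simp] lemma ab_inv (g : B.A) : B.ab n g⁻¹ = -B.ab n g := by funext j; simp [ab]

lemma ab_ag_ne {s : S} {j : I} (h : B.β s ≠ j) : B.ab n (ag B.N s) j = 0 := by simp [ab, deg, h]

lemma deg_rho_mem {T : Set I} {j : I} (h : j ∈ T) (g : B.A) : B.deg j (B.rho T g) = B.deg j g := by
  have : (B.deg j).comp (B.rho T) = B.deg j := artin_ext fun s => by
    by_cases hs : B.β s ∈ T
    · rw [MonoidHom.comp_apply, rho_ag_mem hs]
    · have : B.β s ≠ j := fun e => hs (e ▸ h)
      simp [rho_ag_not hs, deg, this]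
  exact DFunLike.congr_fun this g

lemma ab_par {T : Set I} {g : B.A} (hg : g ∈ B.par T) (j : I) (h : j ∉ T) : B.ab n g j = 0 := by
  have : B.deg j g = (1 : B.A →* _) g := eq_of_par (fun s hs => by
    have : B.β s ≠ j := fun e => h (e ▸ hs)
    simp [deg, this]) hg
  simp [ab, this]

lemma ab_rho_mem {T : Set I} {j : I} (h : j ∈ T) (g : B.A) :
    B.ab n (B.rho T g) j = B.ab n g j := by simp [ab, deg_rho_mem h]

end Setup

open Setup

variable {S I : Type}

/-- A cocycle with values in a graph power, with vertex sets for the parabolic subgroups. -/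
structure Data (B : Setup S I) (n : ℕ) (K : Type) [Group K] where
  Λ : Type
  fin : Finite Λ
  Γ : SimpleGraph Λ
  c : (I → ZMod n) → B.A → GP Γ K
  c_mul : ∀ φ g h, c φ (g * h) = c φ g * c (φ + B.ab n g) h
  V : Set I → (I → ZMod n) → Set Λ
  V_inv : ∀ T φ ε, (∀ j, j ∉ T → ε j = 0) → V T (φ + ε) = V T φ
  V_mem : ∀ T φ s, B.β s ∈ T → c φ (ag B.N s) ∈ PX Γ K (V T φ)

variable {B : Setup S I} {n : ℕ} {K : Type} [Group K]

namespace Data
variable (D : Data B n K)

/-- The parabolic subgroup attached to `T` at `φ`. -/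
abbrev P (T : Set I) (φ : I → ZMod n) : Subgroup (GP D.Γ K) := PX D.Γ K (D.V T φ)

@[simp] lemma c_one (φ) : D.c φ 1 = 1 := by
  have := D.c_mul φ 1 1
  simpa using this

lemma c_inv (φ) (g : B.A) : D.c φ g⁻¹ = (D.c (φ - B.ab n g) g)⁻¹ := by
  have := D.c_mul φ g⁻¹ g
  rw [inv_mul_cancel, c_one, ab_inv, ← sub_eq_add_neg] at this
  exact eq_inv_of_mul_eq_one_left this.symm

lemma c_mem {T : Set I} {g : B.A} (hg : g ∈ B.par T) (φ) : D.c φ g ∈ D.P T φ := by
  induction hg using Subgroup.closure_induction generalizing φ with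
  | mem x hx =>
    obtain ⟨s, hs, rfl⟩ := hx
    exact D.V_mem T φ s hs
  | one => simp
  | mul x y hx _ ihx ihy =>
    rw [D.c_mul]
    have := ihy (φ + B.ab n x)
    rw [P, D.V_inv T φ _ (ab_par hx)] at this
    exact mul_mem (ihx φ) this
  | inv x hx ih =>
    rw [c_inv]
    have := ih (φ - B.ab n x)
    rw [P, sub_eq_add_neg, D.V_inv T φ _ (fun j hj => by simp [ab_par hx j hj]),
      ← sub_eq_add_neg] at this
    exact inv_mem this

/-- Double cosets are detected at the base point `φ`. -/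
def Sep (J : Set I) (φ : I → ZMod n) : Prop :=
  ∀ T U g, g ∈ B.par J → B.ab n g = 0 → Mem2 (D.P T φ) (D.P U φ) (D.c φ g) →
    Mem2 (B.par T) (B.par U) g

variable {D} in
lemma sep_gen {J : Set I} (h : ∀ φ, D.Sep J φ) {T U : Set I} {φ : I → ZMod n} {g : B.A}
    (hg : g ∈ B.par J) (h0 : ∀ j, j ∉ T → j ∉ U → B.ab n g j = 0)
    (hc : Mem2 (D.P T φ) (D.P U (φ + B.ab n g)) (D.c φ g)) : Mem2 (B.par T) (B.par U) g := by
  set a := B.rho T g with ha
  set b := B.rho U (a⁻¹ * g) with hb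
  have haT : a ∈ B.par T := rho_mem _ _
  have hbU : b ∈ B.par U := rho_mem _ _
  have haJ : a ∈ B.par J := par_mono Set.inter_subset_right (rho_mem_inter T hg)
  have hbJ : b ∈ B.par J :=
    par_mono Set.inter_subset_right (rho_mem_inter U (mul_mem (inv_mem haJ) hg))
  have e : B.ab n g = B.ab n a + B.ab n b := by
    funext j
    by_cases hU : j ∈ U
    · simp [hb, ab_rho_mem hU]
    · by_cases hT : j ∈ T
      · simp [ab_par hbU j hU, ha, ab_rho_mem hT]
      · simp [ab_par hbU j hU, ab_par haT j hT, h0 j hT hU]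
  have h1 := h (φ + B.ab n a) T U (a⁻¹ * g * b⁻¹)
    (mul_mem (mul_mem (inv_mem haJ) hg) (inv_mem hbJ)) (by simp [e]) (by
      have e1 : D.P T (φ + B.ab n a) = D.P T φ := by rw [P, D.V_inv T φ _ (ab_par haT)]
      have e2 : D.P U (φ + B.ab n g) = D.P U (φ + B.ab n a) := by
        rw [P, e, ← add_assoc, D.V_inv U _ _ (ab_par hbU)]
      have e3 : φ + B.ab n a + B.ab n (a⁻¹ * g) = φ + B.ab n g := by simp
      rw [D.c_mul, D.c_mul, e3, ab_inv, add_neg_cancel_right]
      exact (e1 ▸ e2 ▸ hc).mul (D.c_mem (inv_mem haT) _) (e2 ▸ D.c_mem (inv_mem hbU) _))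
  simpa [mul_assoc] using h1.mul haT hbU

end Data

section maps
variable {Λ1 Λ2 : Type} {Γ1 : SimpleGraph Λ1} {Γ2 : SimpleGraph Λ2}

/-- The homomorphism induced by a graph homomorphism. -/
def gpMap (f : Λ1 → Λ2) (hf : ∀ a b, Γ1.Adj a b → Γ2.Adj (f a) (f b)) : GP Γ1 K →* GP Γ2 K :=
  gpLift (fun v => gv Γ2 (f v)) (fun a b h => gv_comm (hf a b h))

@[simp] lemma gpMap_gv (f : Λ1 → Λ2) (hf : ∀ a b, Γ1.Adj a b → Γ2.Adj (f a) (f b)) (v) (k : K) :
    gpMap f hf (gv Γ1 v k) = gv Γ2 (f v) k := gpLift_gv _ _ _ _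

lemma gpMap_mem (f : Λ1 → Λ2) (hf : ∀ a b, Γ1.Adj a b → Γ2.Adj (f a) (f b)) {X : Set Λ1}
    {Y : Set Λ2} (h : ∀ v ∈ X, f v ∈ Y) {g : GP Γ1 K} (hg : g ∈ PX Γ1 K X) :
    gpMap f hf g ∈ PX Γ2 K Y :=
  map_mem_of_PX _ (fun v hv k => by rw [gpMap_gv]; exact gv_mem (h v hv) k) hg

variable (Γ1 Γ2) in
/-- The join of two graphs. -/
def joinG : SimpleGraph (Λ1 ⊕ Λ2) where
  Adj
    | .inl a, .inl b => Γ1.Adj a b
    | .inr a, .inr b => Γ2.Adj a b
    | _, _ => True
  symm := ⟨by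
    rintro (a | a) (b | b) h
    · exact h.symm
    · trivial
    · trivial
    · exact h.symm⟩
  loopless := ⟨by
    rintro (a | a) h
    · exact h.ne rfl
    · exact h.ne rfl⟩

/-- First inclusion. -/
def in1 : GP Γ1 K →* GP (joinG Γ1 Γ2) K := gpMap Sum.inl (fun _ _ h => h)
/-- Second inclusion. -/
def in2 : GP Γ2 K →* GP (joinG Γ1 Γ2) K := gpMap Sum.inr (fun _ _ h => h)
/-- First projection. -/
def pr1 : GP (joinG Γ1 Γ2) K →* GP Γ1 K := gpLift (Sum.elim (gv Γ1) (fun _ => 1)) (by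
  rintro (a | a) (b | b) h k k'
  · exact gv_comm (Γ := Γ1) h k k'
  all_goals simp)
/-- Second projection. -/
def pr2 : GP (joinG Γ1 Γ2) K →* GP Γ2 K := gpLift (Sum.elim (fun _ => 1) (gv Γ2)) (by
  rintro (a | a) (b | b) h k k'
  · simp
  · simp
  · simp
  · exact gv_comm (Γ := Γ2) h k k')

lemma in_comm (x : GP Γ1 K) (y : GP Γ2 K) :
    Commute (in1 x : GP (joinG Γ1 Γ2) K) (in2 y) := by
  refine (map_mem_of_PX in1 (S := Subgroup.centralizer {in2 y}) (fun v _ k => ?_) (mem_PX_univ x)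
    _ rfl).symm
  rintro _ rfl
  rw [in1, gpMap_gv]
  refine (comm_PX (X := Set.range Sum.inr) ?_ k
    (gpMap_mem _ _ (fun v _ => Set.mem_range_self v) (mem_PX_univ y))).symm.eq
  rintro _ ⟨w, rfl⟩
  trivial

lemma pr1_in (x : GP Γ1 K) (y : GP Γ2 K) : pr1 (in1 x * in2 y : GP (joinG Γ1 Γ2) K) = x := by
  have h1 : pr1.comp (in1 : GP Γ1 K →* GP (joinG Γ1 Γ2) K) = MonoidHom.id _ :=
    gp_ext fun v k => by simp [pr1, in1]
  have h2 : pr1.comp (in2 : GP Γ2 K →* GP (joinG Γ1 Γ2) K) = 1 :=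
    gp_ext fun v k => by simp [pr1, in2]
  rw [map_mul, show pr1 (in1 x) = x from DFunLike.congr_fun h1 x,
    show pr1 (in2 y) = 1 from DFunLike.congr_fun h2 y, mul_one]

lemma pr2_in (x : GP Γ1 K) (y : GP Γ2 K) : pr2 (in1 x * in2 y : GP (joinG Γ1 Γ2) K) = y := by
  have h1 : pr2.comp (in1 : GP Γ1 K →* GP (joinG Γ1 Γ2) K) = 1 :=
    gp_ext fun v k => by simp [pr2, in1]
  have h2 : pr2.comp (in2 : GP Γ2 K →* GP (joinG Γ1 Γ2) K) = MonoidHom.id _ :=
    gp_ext fun v k => by simp [pr2, in2]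
  rw [map_mul, show pr2 (in1 x) = 1 from DFunLike.congr_fun h1 x,
    show pr2 (in2 y) = y from DFunLike.congr_fun h2 y, one_mul]

end maps

namespace Data

/-- The product of two cocycles. -/
def prod (D1 D2 : Data B n K) : Data B n K where
  Λ := D1.Λ ⊕ D2.Λ
  fin := by have := D1.fin; have := D2.fin; infer_instance
  Γ := joinG D1.Γ D2.Γ
  c φ g := in1 (D1.c φ g) * in2 (D2.c φ g)
  c_mul φ g h := by
    rw [D1.c_mul, D2.c_mul, map_mul, map_mul]
    exact (in_comm _ _).mul_mul_mul_comm _ _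
  V T φ := {x | Sum.elim (· ∈ D1.V T φ) (· ∈ D2.V T φ) x}
  V_inv T φ ε h := by rw [D1.V_inv T φ ε h, D2.V_inv T φ ε h]
  V_mem T φ s hs := mul_mem (gpMap_mem Sum.inl _ (fun _ h => by exact h) (D1.V_mem T φ s hs))
    (gpMap_mem Sum.inr _ (fun _ h => by exact h) (D2.V_mem T φ s hs))

lemma prod_left {D1 D2 : Data B n K} {T U φ g}
    (h : Mem2 ((D1.prod D2).P T φ) ((D1.prod D2).P U φ) ((D1.prod D2).c φ g)) :
    Mem2 (D1.P T φ) (D1.P U φ) (D1.c φ g) := by
  have key : ∀ T, ∀ x ∈ PX (joinG D1.Γ D2.Γ) K ((D1.prod D2).V T φ), pr1 x ∈ D1.P T φ :=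
    fun T x hx => map_mem_of_PX pr1 (by
      rintro (v | v) hv k
      · simpa [pr1] using gv_mem (Γ := D1.Γ) (X := D1.V T φ) (v := v) hv k
      · simp [pr1]) hx
  have := Mem2.map (G := GP (joinG D1.Γ D2.Γ) K) pr1 (key T) (key U)
    (g := in1 (D1.c φ g) * in2 (D2.c φ g)) h
  rwa [pr1_in] at this

lemma prod_right {D1 D2 : Data B n K} {T U φ g}
    (h : Mem2 ((D1.prod D2).P T φ) ((D1.prod D2).P U φ) ((D1.prod D2).c φ g)) :
    Mem2 (D2.P T φ) (D2.P U φ) (D2.c φ g) := by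
  have key : ∀ T, ∀ x ∈ PX (joinG D1.Γ D2.Γ) K ((D1.prod D2).V T φ), pr2 x ∈ D2.P T φ :=
    fun T x hx => map_mem_of_PX pr2 (by
      rintro (v | v) hv k
      · simp [pr2]
      · simpa [pr2] using gv_mem (Γ := D2.Γ) (X := D2.V T φ) (v := v) hv k) hx
  have := Mem2.map (G := GP (joinG D1.Γ D2.Γ) K) pr2 (key T) (key U)
    (g := in1 (D1.c φ g) * in2 (D2.c φ g)) h
  rwa [pr2_in] at this

/-- The trivial cocycle. -/
def triv : Data B n K where
  Λ := Unit
  fin := inferInstance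
  Γ := ⊥
  c _ _ := 1
  c_mul _ _ _ := by simp
  V _ _ := ∅
  V_inv _ _ _ _ := rfl
  V_mem _ _ _ _ := one_mem _

open Classical in
/-- Precomposition with a retraction. -/
noncomputable def res (D : Data B n K) (J : Set I) : Data B n K where
  Λ := D.Λ
  fin := D.fin
  Γ := D.Γ
  c φ g := D.c (fun j => if j ∈ J then φ j else 0) (B.rho J g)
  c_mul φ g h := by
    rw [map_mul, D.c_mul]
    congr 2
    funext j
    by_cases hj : j ∈ J
    · simp [hj, ab_rho_mem hj]
    · simp [hj, ab_par (rho_mem J g) j hj]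
  V T φ := D.V (J ∩ T) (fun j => if j ∈ J then φ j else 0)
  V_inv T φ ε h := by
    rw [← D.V_inv (J ∩ T) (fun j => if j ∈ J then φ j else 0) (fun j => if j ∈ J then ε j else 0)
      (fun j hj => by
        by_cases hJ : j ∈ J
        · simpa [hJ] using h j (fun hT => hj ⟨hJ, hT⟩)
        · simp [hJ])]
    congr 1
    funext j
    by_cases hj : j ∈ J <;> simp [hj]
  V_mem T φ s hs := D.c_mem (rho_mem_inter J (ag_mem hs)) _

lemma res_sep {D : Data B n K} {J : Set I} (h : ∀ φ, D.Sep J φ) {T U φ g} (hg : B.ab n g = 0)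
    (hc : Mem2 ((D.res J).P T φ) ((D.res J).P U φ) ((D.res J).c φ g)) :
    Mem2 (B.par (J ∩ T)) (B.par (J ∩ U)) (B.rho J g) := by
  refine h _ _ _ _ (rho_mem J g) ?_ hc
  funext j
  by_cases hj : j ∈ J
  · simp [ab_rho_mem hj, hg]
  · exact ab_par (rho_mem J g) j hj

end Data

variable (B n K) in
/-- There is a cocycle that detects double cosets in the parabolic subgroup on `J`. -/
def Good (J : Set I) : Prop := ∃ D : Data B n K, ∀ φ, D.Sep J φ

lemma good_of_forall [Finite I] [NeZero n] {J : Set I} (h : ∀ φ, ∃ D : Data B n K, D.Sep J φ) :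
    Good B n K J := by
  classical
  have := Fintype.ofFinite (I → ZMod n)
  have key : ∀ F : Finset (I → ZMod n), ∃ D : Data B n K, ∀ φ ∈ F, D.Sep J φ := by
    intro F
    induction F using Finset.induction_on with
    | empty => exact ⟨Data.triv, by simp⟩
    | insert a F _ ih =>
      obtain ⟨D1, h1⟩ := h a
      obtain ⟨D2, h2⟩ := ih
      refine ⟨D1.prod D2, fun φ hφ T U g hg h0 hc => ?_⟩
      rcases Finset.mem_insert.mp hφ with rfl | hφ
      · exact h1 T U g hg h0 (Data.prod_left hc)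
      · exact h2 φ hφ T U g hg h0 (Data.prod_right hc)
  obtain ⟨D, hD⟩ := key Finset.univ
  exact ⟨D, fun φ => hD φ (Finset.mem_univ _)⟩

lemma good_join {J1 J2 : Set I} (h1 : Good B n K J1) (h2 : Good B n K J2) (hd : Disjoint J1 J2)
    (h : ∀ s t, B.β s ∈ J1 → B.β t ∈ J2 → B.N s t = 2) : Good B n K (J1 ∪ J2) := by
  obtain ⟨D1, h1⟩ := h1
  obtain ⟨D2, h2⟩ := h2
  have hc : ∀ x ∈ B.par J1, ∀ y ∈ B.par J2, Commute x y := by
    intro x hx y hy
    refine (par_le (H := Subgroup.centralizer {y}) (fun s hs => ?_) hx _ rfl).symm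
    rintro _ rfl
    refine (par_le (H := Subgroup.centralizer {ag B.N s}) (fun t ht => ?_) hy _ rfl).symm
    rintro _ rfl
    have hst : s ≠ t := fun e => Set.disjoint_left.mp hd hs (e ▸ ht)
    have := ag_rel B.N hst (by rw [h s t hs ht]; decide)
    rwa [h s t hs ht, omega_two, omega_two] at this
  let ψ : B.A →* B.A :=
    { toFun := fun x => B.rho J1 x * B.rho J2 x
      map_one' := by simp
      map_mul' := fun x y => by
        rw [map_mul, map_mul]
        exact (hc _ (rho_mem _ y) _ (rho_mem _ x)).mul_mul_mul_comm _ _ }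
  refine ⟨(D1.res J1).prod (D2.res J2), fun φ T U g hg h0 hm => ?_⟩
  have e : ψ g = g := eq_of_par (f' := MonoidHom.id _) (fun s hs => by
    change B.rho J1 _ * B.rho J2 _ = ag B.N s
    rcases hs with hs | hs
    · rw [rho_ag_mem hs, rho_ag_not (Set.disjoint_left.mp hd hs), mul_one]
    · rw [rho_ag_mem hs, rho_ag_not (Set.disjoint_right.mp hd hs), one_mul]) hg
  obtain ⟨a, ha, b, hb, e1⟩ := Data.res_sep h1 h0 (Data.prod_left hm)
  obtain ⟨a', ha', b', hb', e2⟩ := Data.res_sep h2 h0 (Data.prod_right hm)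
  refine ⟨a * a', mul_mem (par_mono Set.inter_subset_right ha) (par_mono Set.inter_subset_right ha'),
    b * b', mul_mem (par_mono Set.inter_subset_right hb) (par_mono Set.inter_subset_right hb'), ?_⟩
  rw [← e]
  change B.rho J1 g * B.rho J2 g = _
  rw [e1, e2]
  exact (hc _ (par_mono Set.inter_subset_left hb) _
    (par_mono Set.inter_subset_left ha')).mul_mul_mul_comm _ _

lemma good_empty : Good B n K ∅ :=
  ⟨Data.triv, fun _ _ _ g hg _ _ => ⟨1, one_mem _, 1, one_mem _, by rw [par_empty hg, mul_one]⟩⟩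

lemma good_block (u : I) (κ : B.A →* K) (h1 : ∀ s, B.β s ≠ u → κ (ag B.N s) = 1)
    (h2 : ∀ g ∈ B.par {u}, κ g = 1 → g = 1) : Good B n K {u} := by
  let D : Data B n K :=
    { Λ := Unit
      fin := inferInstance
      Γ := ⊥
      c := fun _ g => gv ⊥ () (κ g)
      c_mul := fun _ _ _ => by simp
      V := fun T _ => {_x | u ∈ T}
      V_inv := fun _ _ _ _ => rfl
      V_mem := fun T φ s hs => by
        by_cases h : B.β s = u
        · exact gv_mem (X := {_x : Unit | u ∈ T}) (show u ∈ T from h ▸ hs) (κ (ag B.N s))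
        · simp [h1 s h] }
  refine ⟨D, fun φ T U g hg _ hm => ?_⟩
  by_cases hT : u ∈ T
  · exact ⟨g, par_mono (by simpa using hT) hg, 1, one_mem _, by simp⟩
  by_cases hU : u ∈ U
  · exact ⟨1, one_mem _, g, par_mono (by simpa using hU) hg, by simp⟩
  obtain ⟨a, ha, b, hb, e⟩ := hm
  have ha' : a = 1 := PX_empty (PX_mono (fun _ h => hT h) ha)
  have hb' : b = 1 := PX_empty (PX_mono (fun _ h => hU h) hb)
  have h3 := congrArg (prj (Γ := (⊥ : SimpleGraph Unit)) (K := K) ()) e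
  rw [ha', hb', mul_one] at h3
  rw [h2 g hg (((prj_gv () (κ g)).symm.trans h3).trans (map_one _))]
  exact ⟨1, one_mem _, 1, one_mem _, by simp⟩

end Pool.Agent.Lib.MP_19b52f_al.EA
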