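import Mathlib

/-! Artin groups, braid groups, even type and FC type. -/

namespace Pool.Agent.Lib.MP_19b52f_al.EA

/-- The alternating word: `(a b)^(m/2)` for even `m`, and `(a b)^((m-1)/2) a` for odd `m`. -/
def omega {G : Type*} [Group G] (a b : G) (m : ℕ) : G :=
  if Even m then (a * b) ^ (m / 2) else (a * b) ^ ((m - 1) / 2) * a

/-- The Artin relators of a Coxeter matrix (the entry `0` stands for infinity). -/
def artinRels {S : Type*} (M : CoxeterMatrix S) : Set (FreeGroup S) :=
  {r | ∃ s t : S, s ≠ t ∧ M s t ≠ 0 ∧
    r = omega (FreeGroup.of s) (FreeGroup.of t) (M s t) *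
      (omega (FreeGroup.of t) (FreeGroup.of s) (M s t))⁻¹}

/-- The Artin group of a Coxeter matrix. -/
abbrev Artin {S : Type*} (M : CoxeterMatrix S) : Type _ := PresentedGroup (artinRels M)

/-- The Coxeter matrix restricted to a subset of the generators. -/
def restrict {S : Type*} (M : CoxeterMatrix S) (T : Set S) : CoxeterMatrix T where
  M := M.M.submatrix Subtype.val Subtype.val
  isSymm := M.isSymm.submatrix _
  diagonal s := M.diagonal s.1
  off_diagonal s t h := M.off_diagonal s.1 t.1 (fun e => h (Subtype.ext e))

/-- All labels between different generators are even or infinity (written `0`). -/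
def IsEvenType {S : Type*} (M : CoxeterMatrix S) : Prop :=
  ∀ s t : S, s ≠ t → Even (M s t)

/-- FC type: every set of generators without a label infinity has a finite Coxeter group. -/
def IsFCType {S : Type*} (M : CoxeterMatrix S) : Prop :=
  ∀ T : Set S, (∀ s ∈ T, ∀ t ∈ T, M s t ≠ 0) → Finite (restrict M T).Group

/-- Right-angled: all labels between different generators are `2` or infinity (written `0`). -/
def IsRightAngled {S : Type*} (M : CoxeterMatrix S) : Prop :=
  ∀ s t : S, s ≠ t → M s t = 2 ∨ M s t = 0

/-- The group embeds into a braid group: the Artin group of type `A n` is the braid group on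
`n + 1` strands. -/
def EmbedsInBraidGroup (G : Type*) [Group G] : Prop :=
  ∃ (n : ℕ) (f : G →* Artin (CoxeterMatrix.A n)), Function.Injective f

end Pool.Agent.Lib.MP_19b52f_al.EA
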