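import Pool.Agent.Lib.MP_19b52f_al.EA.Data

/-! The cocycle for an edge with an even label. -/

namespace Pool.Agent.Lib.MP_19b52f_al.EA

open Setup

lemma Wr.pow_c {R : Type} [Group R] {m : ℕ} (y : Wr (ZMod m) R) (hy : y.a = 1) (i : ℕ) :
    (y ^ i).a = i ∧ ∀ j, (y ^ i).c j = pp (fun t : ℕ => y.c (j + t)) i := by
  induction i with
  | zero => simp [pp]
  | succ i ih => simp [pow_succ, pp, ih.1, ih.2, hy]

lemma pp_conj {G : Type} [Group G] (a b : G) (i : ℕ) :
    pp (fun t => b ^ t * a * (b ^ t)⁻¹) i = (a * b) ^ i * (b ^ i)⁻¹ := by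
  induction i with
  | zero => simp [pp]
  | succ i ih => rw [pp, ih, pow_succ, pow_succ']; group

lemma swap_pow {G : Type} [Group G] {a b : G} {m : ℕ} (h : Commute ((a * b) ^ m) a) :
    (a * b) ^ m = (b * a) ^ m := by
  have : b * a = a⁻¹ * (a * b) * a⁻¹⁻¹ := by group
  rw [this, conj_pow, inv_inv, mul_assoc, h.eq, inv_mul_cancel_left]

/-- The star graph with centre `none`. -/
def starG (X : Type) : SimpleGraph (Option X) where
  Adj x y := x ≠ y ∧ (x = none ∨ y = none)
  symm := ⟨fun _ _ h => ⟨h.1.symm, h.2.symm⟩⟩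
  loopless := ⟨fun _ h => h.1 rfl⟩

variable {S I : Type} {B : Setup S I} {n : ℕ} {K : Type} [Group K]

lemma good_dihedral [Finite I] [NeZero n] (dg : K →* Multiplicative ℤ) (τ : K)
    (hτ : dg τ = Multiplicative.ofAdd 1) {a b : S} (hab : B.β a ≠ B.β b)
    (ha : ∀ s, B.β s = B.β a → s = a) (hb : ∀ s, B.β s = B.β b → s = b) {k : ℕ}
    (hN : B.N a b = 2 * (k + 2)) (hmn : k + 2 ∣ n) : Good B n K {B.β a, B.β b} := by
  classical
  have hne : a ≠ b := fun e => hab (e ▸ rfl)
  have hcast : ∀ i : ℕ, i < k + 1 → (i : ZMod (k + 2)) ≠ -1 := by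
    intro i hi h
    have h1 := congrArg ZMod.val h
    rw [ZMod.val_natCast_of_lt (by omega), ZMod.val_neg_one] at h1
    omega
  have hlast : ((k + 1 : ℕ) : ZMod (k + 2)) = -1 := by
    rw [← ZMod.natCast_zmod_val (-1 : ZMod (k + 2)), ZMod.val_neg_one]
  have h01 : (0 : ZMod (k + 2)) ≠ -1 := by simpa using hcast 0 (by omega)
  let R := GP (starG (ZMod (k + 2))) K
  let e : Option (ZMod (k + 2)) → R := fun x => gv _ x τ
  have hζ : ∀ j, Commute (e none) (e (some j)) := fun j =>
    gv_comm (Γ := starG _) (And.intro (by simp) (Or.inl rfl)) τ τ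
  let pa : R := pp (fun i : ℕ => e (some i)) (k + 1)
  have hpa : Commute (e none) pa :=
    pp_mem (Subgroup.centralizer {e none}) _ _ (fun i _ => by
      rintro _ rfl; exact (hζ _).eq) _ rfl
  let xa : Wr (ZMod (k + 2)) R :=
    ⟨fun j => if j = -1 then pa⁻¹ * e none * (e (some (-1)))⁻¹ else e (some j), 0⟩
  let xb : Wr (ZMod (k + 2)) R := ⟨fun j => if j = -1 then e (some (-1)) else 1, 1⟩
  have hxa : ∀ j, Commute (e none) (xa.c j) := by
    intro j
    by_cases h : j = -1
    · simpa [xa, h] using (hpa.inv_right.mul_right (Commute.refl _)).mul_right (hζ _).inv_right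
    · simpa [xa, h] using hζ j
  have hxb : ∀ j, Commute (e none) (xb.c j) := by
    intro j
    by_cases h : j = -1
    · simpa [xb, h] using hζ _
    · simp [xb, h]
  have hy : (xa * xb).a = 1 := by simp [xa, xb]
  have hz := Wr.pow_c (xa * xb) hy (k + 2)
  have hza : ((xa * xb) ^ (k + 2)).a = 0 := by rw [hz.1, ZMod.natCast_self]
  have hz0 : ((xa * xb) ^ (k + 2)).c 0 = e none := by
    have h1 := map_pp (MonoidHom.id R) (fun t : ℕ => (xa * xb).c (0 + t))
      (fun i : ℕ => e (some i)) (k + 1) (fun i hi => by simp [xa, xb, hcast i hi])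
    rw [MonoidHom.id_apply] at h1
    rw [hz.2, pp, h1, hlast]
    simp [xa, xb, pa]
  have hzc : ∀ j, ((xa * xb) ^ (k + 2)).c j = e none := by
    have key : ∀ i : ℕ, ((xa * xb) ^ (k + 2)).c i = e none := by
      intro i
      induction i with
      | zero => simpa using hz0
      | succ i ih =>
        have h1 := congrArg (fun x => Wr.c x (i : ZMod (k + 2))) ((Commute.refl (xa * xb)).pow_left (k + 2)).eq
        simp only [Wr.mul_c ((xa * xb) ^ (k + 2)), Wr.mul_c (xa * xb), hza, hy, add_zero, ih] at h1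
        have h2 : Commute (e none) ((xa * xb).c i) := (hxa _).mul_right (hxb _)
        rw [h2.eq, mul_left_cancel_iff] at h1
        rw [Nat.cast_succ, ← h1]
    intro j
    rw [← ZMod.natCast_zmod_val j, key]
  have hrel : (xa * xb) ^ (k + 2) = (xb * xa) ^ (k + 2) := by
    refine swap_pow ?_
    ext j
    · rw [Wr.mul_c, Wr.mul_c, hzc, hzc, hza, add_zero, (hxa j).eq]
    · exact add_comm _ _
  have hev : Even (2 * (k + 2)) := even_two_mul _
  have hdiv : 2 * (k + 2) / 2 = k + 2 := by omega
  let Ψ : B.A →* Wr (ZMod (k + 2)) R := B.killLift {B.β a, B.β b}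
    (fun s => if s = a then xa else if s = b then xb else 1)
    (fun s hs => by
      rw [if_neg (fun e => hs (by simp [e])), if_neg (fun e => hs (by simp [e]))])
    (fun s t hs ht hst _ => by
      rcases hs with hs | hs <;> rcases ht with ht | ht
      · exact absurd ((ha s hs).trans (ha t ht).symm) hst
      · rw [ha s hs, hb t ht, hN]
        simp [omega_even _ _ hev, hne.symm, hrel]
      · rw [hb s hs, ha t ht, B.N.symmetric, hN]
        simp [omega_even _ _ hev, hne.symm, hrel]
      · exact absurd ((hb s hs).trans (hb t ht).symm) hst)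
  have hΨa : Ψ (ag B.N a) = xa := by simp [Ψ]
  have hΨb : Ψ (ag B.N b) = xb := by simp [Ψ, hne.symm]
  have hΨo : ∀ s, s ≠ a → s ≠ b → Ψ (ag B.N s) = 1 := fun s h1 h2 => by simp [Ψ, h1, h2]
  let π : (I → ZMod n) → ZMod (k + 2) := fun φ => ZMod.castHom hmn (ZMod (k + 2)) (φ (B.β b))
  have hπ : ∀ φ g, π (φ + B.ab n g) = π φ + (Ψ g).a := by
    intro φ g
    have : Wr.aHom.comp Ψ = redChar (B.deg (B.β b)) (k + 2) := artin_ext fun s => by
      by_cases h1 : s = a
      · simp [h1, hΨa, xa, Wr.aHom, redChar, deg, hab]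
      · by_cases h2 : s = b
        · simp [h2, hΨb, xb, Wr.aHom, redChar, deg]
        · have : B.β s ≠ B.β b := fun e => h2 (hb s e)
          simp [hΨo s h1 h2, redChar, deg, this]
    have h1 : (Ψ g).a = ((B.deg (B.β b) g).toAdd : ℤ) :=
      congrArg Multiplicative.toAdd (DFunLike.congr_fun this g)
    simp only [π, h1, ab, Pi.add_apply, map_add, map_intCast]
  set A := ag B.N a with hA
  set Bb := ag B.N b with hB
  have hAB : (A * Bb) ^ (k + 2) = (Bb * A) ^ (k + 2) := by
    have := ag_rel B.N hne (by rw [hN]; omega)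
    rwa [hN, omega_even _ _ hev, omega_even _ _ hev, hdiv] at this
  have hcA : Commute ((A * Bb) ^ (k + 2)) A := by
    have : A * Bb = A * (Bb * A) * A⁻¹ := by group
    rw [Commute, SemiconjBy]
    nth_rewrite 1 [this]
    rw [conj_pow, ← hAB, inv_mul_cancel_right]
  have hcB : Commute ((A * Bb) ^ (k + 2)) Bb := by
    have := hcA.inv_right.mul_right ((Commute.refl (A * Bb)).pow_left (k + 2))
    simpa using this
  let w : Option (ZMod (k + 2)) → B.A := fun x => x.elim ((A * Bb) ^ (k + 2))
    (fun j => if j = -1 then Bb ^ (k + 2) else Bb ^ j.val * A * (Bb ^ j.val)⁻¹)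
  have hw : ∀ x, Commute (w none) (w x) := by
    rintro (_ | j)
    · exact Commute.refl _
    · by_cases h : j = -1
      · simpa [w, h] using hcB.pow_right (k + 2)
      · simpa [w, h] using ((hcB.pow_right _).mul_right hcA).mul_right (hcB.pow_right _).inv_right
  let κ : R →* B.A := gpLift (fun x => (zpowersHom _ (w x)).comp dg) (by
    rintro x y ⟨-, rfl | rfl⟩ p q
    · exact (hw y).zpow_zpow _ _
    · exact (hw x).symm.zpow_zpow _ _)
  have hκ0 : ∀ x p, κ (gv (starG _) x p) = w x ^ (dg p).toAdd := fun x p => gpLift_gv _ _ _ _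
  have hκ : ∀ x, κ (e x) = w x := fun x => by simp [hκ0, e, hτ]
  have hκpa : κ pa = (A * Bb) ^ (k + 1) * (Bb ^ (k + 1))⁻¹ := by
    rw [← pp_conj]
    refine map_pp _ _ _ _ (fun i hi => ?_)
    simp [hκ, w, hcast i hi, ZMod.val_natCast_of_lt (show i < k + 2 by omega)]
  have key : ∀ g ∈ B.par {B.β a, B.β b}, ∀ j,
      κ ((Ψ g).c j) = Bb ^ j.val * g * (Bb ^ (j + (Ψ g).a).val)⁻¹ := by
    intro g hg
    induction hg using Subgroup.closure_induction with
    | mem x hx =>
      obtain ⟨s, hs | hs, rfl⟩ := hx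
      · intro j
        rw [ha s hs, ← hA, hΨa]
        by_cases h : j = -1
        · simp only [xa, h, if_true, map_mul, map_inv, hκ, hκpa, w, Option.elim, add_zero,
            ZMod.val_neg_one]
          rw [pow_succ (A * Bb) (k + 1), pow_succ' Bb (k + 1)]
          group
        · simp [xa, h, hκ, w]
      · intro j
        rw [hb s hs, ← hB, hΨb]
        by_cases h : j = -1
        · simp [xb, h, hκ, w, ZMod.val_neg_one, pow_succ]
        · have h1 : (j + 1).val = j.val + 1 := by
            have h2 := ZMod.val_lt j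
            have h3 : j.val ≠ k + 1 := fun e => h (by rw [← ZMod.natCast_zmod_val j, e, hlast])
            rw [← ZMod.natCast_zmod_val j, ← Nat.cast_succ, ZMod.val_natCast_of_lt (by omega),
              ZMod.val_natCast_of_lt h2]
          simp [xb, h, h1, pow_succ]
    | one => simp
    | mul x y _ _ hx hy =>
      intro j
      rw [map_mul, Wr.mul_c, map_mul, hx, hy, Wr.mul_a, add_assoc]; group
    | inv x _ hx =>
      intro j
      rw [map_inv, Wr.inv_c, map_inv, hx, Wr.inv_a, sub_add_cancel, ← sub_eq_add_neg]; group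
  refine good_of_forall (fun φ0 => ?_)
  let D : Data B n K :=
    { Λ := Option (ZMod (k + 2))
      fin := inferInstance
      Γ := starG _
      c := fun φ g => (Ψ g).c (π φ - π φ0)
      c_mul := fun φ g h => by rw [map_mul, Wr.mul_c, hπ, add_sub_right_comm]
      V := fun T φ => {x | (B.β a ∈ T ∧ (B.β b ∈ T ∨ π φ - π φ0 ≠ 0 ∨ x = some 0)) ∨
        (B.β b ∈ T ∧ x = some (-1))}
      V_inv := fun T φ ε h => by
        by_cases hT : B.β b ∈ T
        · simp [hT]
        · simp [π, h _ hT]
      V_mem := fun T φ s hs => by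
        by_cases h1 : s = a
        · subst h1
          rw [← hA, hΨa]
          by_cases h2 : π φ - π φ0 = 0
          · simp only [xa, h2, if_neg h01]
            exact gv_mem (by exact Or.inl ⟨hs, Or.inr (Or.inr rfl)⟩) τ
          · exact PX_mono (fun _ _ => Or.inl ⟨hs, Or.inr (Or.inl h2)⟩) (mem_PX_univ _)
        · by_cases h2 : s = b
          · subst h2
            rw [← hB, hΨb]
            simp only [xb]
            split_ifs
            · exact gv_mem (by exact Or.inr ⟨hs, rfl⟩) τ
            · exact one_mem _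
          · rw [hΨo s h1 h2]; exact one_mem _ }
  refine ⟨D, fun T U g hg h0 hm => ?_⟩
  have h1 : (Ψ g).a = 0 := by simpa [h0] using hπ φ0 g
  have h2 : κ (D.c φ0 g) = g := by simp [D, key g hg, h1]
  have h3 : ∀ T, ∀ x ∈ D.P T φ0, κ x ∈ B.par T := fun T x hx =>
    map_mem_of_PX (Γ := starG _) κ (fun v hv p => by
      have : w v ∈ B.par T := by
        rcases hv with ⟨h3, h4 | h4 | rfl⟩ | ⟨h3, rfl⟩
        · have h5 : A ∈ B.par T := ag_mem h3
          have h6 : Bb ∈ B.par T := ag_mem h4
          rcases v with _ | j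
          · exact pow_mem (mul_mem h5 h6) _
          · simp only [w, Option.elim]
            split_ifs
            · exact pow_mem h6 _
            · exact mul_mem (mul_mem (pow_mem h6 _) h5) (inv_mem (pow_mem h6 _))
        · exact absurd (sub_self _) h4
        · simpa [w, h01] using ag_mem h3
        · simpa [w] using pow_mem (ag_mem h3) (k + 2)
      rw [hκ0]
      exact zpow_mem this _) hx
  exact h2 ▸ Mem2.map (G := R) κ (h3 T) (h3 U) hm

end Pool.Agent.Lib.MP_19b52f_al.EA
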