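import Mathlib

/-! Free groups: wreath cocycles, residual 2-finiteness, free families of conjugates. -/

namespace Pool.Agent.Lib.MP_19b52f_al.EA

/-- Cocycle group: functions on an additive group with a shift. -/
@[ext] structure Wr (Φ R : Type) where
  c : Φ → R
  a : Φ

namespace Wr
variable {Φ R : Type} [AddCommGroup Φ] [Group R]

instance instMulWr : Mul (Wr Φ R) := ⟨fun x y => ⟨fun φ => x.c φ * y.c (φ + x.a), x.a + y.a⟩⟩
instance instOneWr : One (Wr Φ R) := ⟨⟨fun _ => 1, 0⟩⟩
instance instInvWr : Inv (Wr Φ R) := ⟨fun x => ⟨fun φ => (x.c (φ - x.a))⁻¹, -x.a⟩⟩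

@[simp] lemma mul_c (x y : Wr Φ R) (φ : Φ) : (x * y).c φ = x.c φ * y.c (φ + x.a) := rfl
@[simp] lemma mul_a (x y : Wr Φ R) : (x * y).a = x.a + y.a := rfl
@[simp] lemma one_c (φ : Φ) : (1 : Wr Φ R).c φ = 1 := rfl
@[simp] lemma one_a : (1 : Wr Φ R).a = 0 := rfl
@[simp] lemma inv_c (x : Wr Φ R) (φ : Φ) : (x⁻¹).c φ = (x.c (φ - x.a))⁻¹ := rfl
@[simp] lemma inv_a (x : Wr Φ R) : (x⁻¹).a = -x.a := rfl

instance instGroupWr : Group (Wr Φ R) where
  mul_assoc x y z := by ext φ <;> simp [mul_assoc, add_assoc]
  one_mul x := by ext φ <;> simp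
  mul_one x := by ext φ <;> simp
  inv_mul_cancel x := by ext φ <;> simp [sub_eq_add_neg]

/-- Apply a homomorphism to the values. -/
def map {R' : Type} [Group R'] (f : R →* R') : Wr Φ R →* Wr Φ R' where
  toFun x := ⟨fun φ => f (x.c φ), x.a⟩
  map_one' := by ext φ <;> simp
  map_mul' x y := by ext φ <;> simp

@[simp] lemma map_c {R' : Type} [Group R'] (f : R →* R') (x : Wr Φ R) (φ : Φ) :
    (map f x).c φ = f (x.c φ) := rfl
@[simp] lemma map_a {R' : Type} [Group R'] (f : R →* R') (x : Wr Φ R) : (map f x).a = x.a := rfl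

lemma pow_c_of_a_eq_zero (x : Wr Φ R) (h : x.a = 0) (n : ℕ) :
    (x ^ n).a = 0 ∧ ∀ φ, (x ^ n).c φ = (x.c φ) ^ n := by
  induction n with
  | zero => simp
  | succ n ih => simp [pow_succ, ih.1, ih.2, h]

instance instFiniteWr [Finite Φ] [Finite R] : Finite (Wr Φ R) :=
  Finite.of_injective (fun x : Wr Φ R => (x.c, x.a)) (fun x y h => by
    ext1
    · exact congrArg Prod.fst h
    · exact congrArg Prod.snd h)

lemma isPGroup_two [Finite R] (h : IsPGroup 2 R) : IsPGroup 2 (Wr (ZMod 2) R) := by
  have : Fact (Nat.Prime 2) := ⟨Nat.prime_two⟩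
  obtain ⟨k, hk⟩ := IsPGroup.iff_card.mp h
  intro x
  refine ⟨k + 1, ?_⟩
  have h2 : (x ^ 2).a = 0 := by
    rw [pow_two, mul_a]
    exact CharTwo.add_self_eq_zero _
  have := pow_c_of_a_eq_zero _ h2 (2 ^ k)
  rw [pow_succ', pow_mul]
  ext φ
  · rw [this.2, ← hk, pow_card_eq_one', one_c]
  · rw [this.1, one_a]

end Wr

open FreeGroup hiding map_mul map_inv map_one

/-- Free groups are residually finite 2-groups. -/
lemma exists_two_group (n : ℕ) : ∀ (Y : Type) (L : List (Y × Bool)), L.length ≤ n → mk L ≠ 1 →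
    ∃ (P : Type) (_ : Group P) (_ : Finite P), IsPGroup 2 P ∧
      ∃ h : FreeGroup Y →* P, h (mk L) ≠ 1 := by
  classical
  induction n with
  | zero =>
    intro Y L hL h
    rw [List.length_eq_zero_iff.mp (Nat.le_zero.mp hL)] at h
    exact absurd rfl h
  | succ n ih =>
    intro Y L hL h
    rcases L with _ | ⟨⟨y, ε⟩, L⟩
    · exact absurd rfl h
    have hL' : L.length ≤ n := by simpa using hL
    let j0 : ZMod 2 := if ε then 0 else 1
    let lab : Y → ZMod 2 → FreeGroup (Y × ZMod 2) := fun z j =>
      if z = y ∧ j = j0 then 1 else of (z, j)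
    let η : FreeGroup Y →* Wr (ZMod 2) (FreeGroup (Y × ZMod 2)) :=
      lift (fun z => ⟨lab z, if z = y then 1 else 0⟩)
    let t : ZMod 2 → FreeGroup Y := fun j => if j = 0 then 1 else mk [(y, ε)]
    let κ : FreeGroup (Y × ZMod 2) →* FreeGroup Y :=
      lift (fun p => t p.2 * of p.1 * (t (p.2 + if p.1 = y then 1 else 0))⁻¹)
    have hκ : ∀ g : FreeGroup Y, ∀ j, κ ((η g).c j) = t j * g * (t (j + (η g).a))⁻¹ := by
      intro g
      induction g using FreeGroup.induction_on with
      | C1 => intro j; simp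
      | of z =>
        intro j
        simp only [η, lift_apply_of, lab]
        by_cases hz : z = y ∧ j = j0
        · rw [if_pos hz, map_one]
          obtain ⟨rfl, rfl⟩ := hz
          cases ε
          · have : (1 : ZMod 2) + 1 = 0 := by decide
            have e : mk [(z, false)] = (of z)⁻¹ := rfl
            simp [j0, t, this, e]
          · have e : mk [(z, true)] = of z := rfl
            simp [j0, t, e]
        · rw [if_neg hz]; simp [κ]
      | inv_of z ih' =>
        intro j
        rw [map_inv, Wr.inv_c, map_inv, ih', Wr.inv_a, sub_add_cancel, ← sub_eq_add_neg]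
        simp [mul_assoc]
      | mul a b iha ihb =>
        intro j
        rw [map_mul, Wr.mul_c, map_mul, iha, ihb, Wr.mul_a]
        simp [mul_assoc, add_assoc]
    have hlen : ∀ (L : List (Y × Bool)) (j : ZMod 2), ∃ L' : List ((Y × ZMod 2) × Bool),
        L'.length ≤ L.length ∧ mk L' = (η (mk L)).c j := by
      intro L
      induction L with
      | nil => intro j; exact ⟨[], le_rfl, by rw [← one_eq_mk, ← one_eq_mk]; simp⟩
      | cons p L ihL =>
        intro j
        obtain ⟨z, b⟩ := p
        have e : mk ((z, b) :: L) = mk [(z, b)] * mk L := rfl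
        obtain ⟨L', h1, h2⟩ := ihL (j + (η (mk [(z, b)])).a)
        have h3 : ∃ L0 : List ((Y × ZMod 2) × Bool), L0.length ≤ 1 ∧
            mk L0 = (η (mk [(z, b)])).c j := by
          have key : ∀ j, ∃ L0 : List ((Y × ZMod 2) × Bool), L0.length ≤ 1 ∧ mk L0 = lab z j := by
            intro j
            simp only [lab]
            split_ifs
            · exact ⟨[], by simp, rfl⟩
            · exact ⟨[((z, j), true)], by simp, rfl⟩
          cases b
          · have e : mk [(z, false)] = (of z)⁻¹ := rfl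
            rw [e, map_inv, Wr.inv_c]
            obtain ⟨L0, h4, h5⟩ := key (j - (η (of z)).a)
            refine ⟨invRev L0, by simpa using h4, ?_⟩
            rw [← inv_mk, h5]
            simp [η]
          · have e : mk [(z, true)] = of z := rfl
            rw [e]
            simpa [η] using key j
        obtain ⟨L0, h4, h5⟩ := h3
        refine ⟨L0 ++ L', by simp; omega, ?_⟩
        rw [e, map_mul, Wr.mul_c, ← h5, ← h2, mul_mk]
    have e : mk ((y, ε) :: L) = mk [(y, ε)] * mk L := rfl
    have h0 : (η (mk [(y, ε)])).c 0 = 1 := by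
      cases ε
      · have e : mk [(y, false)] = (of y)⁻¹ := rfl
        have : -(1 : ZMod 2) = 1 := by decide
        rw [e, map_inv, Wr.inv_c]
        simp [η, lab, j0, this]
      · have e : mk [(y, true)] = of y := rfl
        simp [e, η, lab, j0]
    by_cases ha : (η (mk ((y, ε) :: L))).a = 0
    · obtain ⟨L', h1, h2⟩ := hlen L (0 + (η (mk [(y, ε)])).a)
      have h3 : mk L' = (η (mk ((y, ε) :: L))).c 0 := by
        rw [e, map_mul, Wr.mul_c, h0, one_mul, h2]
      have h4 : mk L' ≠ 1 := by
        intro h4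
        have := hκ (mk ((y, ε) :: L)) 0
        rw [← h3, h4, ha] at this
        apply h
        simpa [t] using this.symm
      obtain ⟨P, _, _, hP, f, hf⟩ := ih _ L' (h1.trans hL') h4
      refine ⟨Wr (ZMod 2) P, inferInstance, inferInstance, Wr.isPGroup_two hP,
        (Wr.map f).comp η, fun h5 => hf ?_⟩
      have := congrArg (fun x => Wr.c x 0) h5
      simpa [h3] using this
    · refine ⟨Wr (ZMod 2) Unit, inferInstance, inferInstance,
        Wr.isPGroup_two (fun x => ⟨0, Subsingleton.elim _ _⟩), (Wr.map 1).comp η, fun h5 => ha ?_⟩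
      have := congrArg Wr.a h5
      simpa using this

lemma solve_nilpotent {Y : Type} (n : Y → FreeGroup Y) (P : Type) [Group P] [Group.IsNilpotent P] :
    ∀ q : Y → P, ∃ p : Y → P, ∀ y, lift p (n y) * p y * (lift p (n y))⁻¹ = q y := by
  refine Group.nilpotent_center_quotient_ind
    (P := fun P _ _ => ∀ q : Y → P, ∃ p : Y → P, ∀ y, lift p (n y) * p y * (lift p (n y))⁻¹ = q y)
    P ?_ ?_
  · intro G _ _ q
    exact ⟨q, fun _ => Subsingleton.elim _ _⟩
  · intro G _ _ ih q
    let π := QuotientGroup.mk' (Subgroup.center G)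
    obtain ⟨pb, hpb⟩ := ih (fun y => π (q y))
    choose p0 hp0 using fun y => QuotientGroup.mk'_surjective (Subgroup.center G) (pb y)
    have hl : ∀ p : Y → G, (∀ y, π (p y) = pb y) → ∀ w, π (lift p w) = lift pb w := by
      intro p hp w
      have : π.comp (lift p) = lift pb := by
        ext y; simp [hp]
      exact DFunLike.congr_fun this w
    let z : Y → G := fun y => (lift p0 (n y) * p0 y * (lift p0 (n y))⁻¹)⁻¹ * q y
    have hz : ∀ y, z y ∈ Subgroup.center G := by
      intro y
      rw [← QuotientGroup.eq_one_iff]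
      change π _ = 1
      simp only [z, map_mul, map_inv, hl p0 hp0]
      rw [show π (p0 y) = pb y from hp0 y, hpb y, inv_mul_cancel]
    have hp : ∀ y, π (p0 y * z y) = pb y := by
      intro y
      rw [map_mul, show π (z y) = 1 from (QuotientGroup.eq_one_iff _).mpr (hz y), mul_one]
      exact hp0 y
    refine ⟨fun y => p0 y * z y, fun y => ?_⟩
    have h1 : (lift p0 (n y))⁻¹ * lift (fun y => p0 y * z y) (n y) ∈ Subgroup.center G := by
      rw [← QuotientGroup.eq_one_iff]
      change π _ = 1
      rw [map_mul, map_inv, hl p0 hp0, hl _ hp, inv_mul_cancel]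
    set a := lift p0 (n y) with ha
    set b := lift (fun y => p0 y * z y) (n y) with hb
    have h2 := Subgroup.mem_center_iff.mp h1 (p0 y * z y)
    have h3 := Subgroup.mem_center_iff.mp (hz y) a⁻¹
    calc b * (p0 y * z y) * b⁻¹ = a * (a⁻¹ * b * (p0 y * z y)) * b⁻¹ := by group
      _ = a * p0 y * (z y * a⁻¹) := by rw [← h2]; group
      _ = a * p0 y * a⁻¹ * z y := by rw [← h3]; group
      _ = q y := by simp only [z, ← ha]; group

/-- Conjugates of distinct basis elements form a free family. -/
lemma lift_injective_of_isConj {Y Z : Type} (ι : Y → Z) (hι : Function.Injective ι)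
    (c : Y → FreeGroup Z) (hc : ∀ y, IsConj (of (ι y)) (c y)) :
    Function.Injective (lift c) := by
  classical
  let r : FreeGroup Z →* FreeGroup Y :=
    lift (fun z => if h : ∃ y, ι y = z then of h.choose else 1)
  have hr : ∀ y, r (of (ι y)) = of y := by
    intro y
    have h : ∃ y', ι y' = ι y := ⟨y, rfl⟩
    simp only [r, lift_apply_of, dif_pos h]
    rw [hι h.choose_spec]
  choose m hm using fun y => isConj_iff.mp (hc y)
  rw [injective_iff_map_eq_one]
  intro W hW
  by_contra hne
  obtain ⟨P, _, _, hP, h, hh⟩ := exists_two_group W.toWord.length Y W.toWord le_rfl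
    (by rwa [mk_toWord])
  rw [mk_toWord] at hh
  have : Fact (Nat.Prime 2) := ⟨Nat.prime_two⟩
  have := hP.isNilpotent
  obtain ⟨p, hp⟩ := solve_nilpotent (fun y => r (m y)) P (fun y => h (of y))
  have : ((lift p).comp r).comp (lift c) = h := by
    ext y
    simp only [MonoidHom.comp_apply, lift_apply_of]
    rw [← hm y]
    simp only [map_mul, map_inv, hr, lift_apply_of]
    exact hp y
  apply hh
  rw [← this]
  simp [hW]

/-- The subgroup generated by a set of basis elements. -/
def gen {Ω : Type} (X : Set Ω) : Subgroup (FreeGroup Ω) := Subgroup.closure (of '' X)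

lemma toWord_mem_of_mem_gen {Ω : Type} [DecidableEq Ω] {X : Set Ω} {x : FreeGroup Ω}
    (hx : x ∈ gen X) : ∀ p ∈ x.toWord, p.1 ∈ X := by
  induction hx using Subgroup.closure_induction with
  | mem x hx =>
    obtain ⟨a, ha, rfl⟩ := hx
    intro p hp
    simp only [toWord_of, List.mem_singleton] at hp
    rw [hp]; exact ha
  | one => simp
  | mul x y _ _ hx hy =>
    intro p hp
    rcases List.mem_append.mp ((toWord_mul_sublist x y).subset hp) with h | h
    · exact hx p h
    · exact hy p h
  | inv x _ hx =>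
    intro p hp
    rw [toWord_inv, invRev] at hp
    simp only [List.mem_reverse, List.mem_map] at hp
    obtain ⟨q, hq, rfl⟩ := hp
    exact hx q hq

/-- A reduced word in the product of two basis subgroups splits. -/
lemma reduced_split {Ω : Type} {X Y : Set Ω} {W : List (Ω × Bool)} (hW : IsReduced W)
    {x y : FreeGroup Ω} (hx : x ∈ gen X) (hy : y ∈ gen Y) (h : mk W = x * y) :
    W.Pairwise (fun a b => a.1 ∈ X ∨ b.1 ∈ Y) ∧ ∀ a ∈ W, a.1 ∈ X ∨ a.1 ∈ Y := by
  classical
  have h1 : W = (x * y).toWord := by rw [← h, toWord_mk, hW.reduce_eq]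
  have h2 := toWord_mul_sublist x y
  rw [← h1] at h2
  have hx' := toWord_mem_of_mem_gen hx
  have hy' := toWord_mem_of_mem_gen hy
  constructor
  · refine List.Pairwise.sublist h2 ?_
    rw [List.pairwise_append]
    refine ⟨?_, ?_, fun a ha b _ => Or.inl (hx' a ha)⟩
    · exact List.pairwise_of_forall_mem_list (fun a ha b _ => Or.inl (hx' a ha))
    · exact List.pairwise_of_forall_mem_list (fun a _ b hb => Or.inr (hy' b hb))
  · intro a ha
    rcases List.mem_append.mp (h2.subset ha) with h | h
    · exact Or.inl (hx' a h)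
    · exact Or.inr (hy' a h)

/-- The action on the free group induced by an action on the basis. -/
def freeAct (D Ω : Type) [Group D] [MulAction D Ω] : D →* MulAut (FreeGroup Ω) where
  toFun d := freeGroupCongr (MulAction.toPerm d)
  map_one' := by
    apply MulEquiv.toMonoidHom_injective
    ext ω; simp
  map_mul' d e := by
    apply MulEquiv.toMonoidHom_injective
    ext ω; simp [mul_smul]

@[simp] lemma freeAct_of {D Ω : Type} [Group D] [MulAction D Ω] (d : D) (ω : Ω) :
    freeAct D Ω d (of ω) = of (d • ω) := by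
  simp [freeAct]

lemma freeAct_mem_gen {D Ω : Type} [Group D] [MulAction D Ω] (d : D) {X Y : Set Ω}
    (h : ∀ ω ∈ X, d • ω ∈ Y) {x : FreeGroup Ω} (hx : x ∈ gen X) : freeAct D Ω d x ∈ gen Y := by
  induction hx using Subgroup.closure_induction with
  | mem x hx =>
    obtain ⟨a, ha, rfl⟩ := hx
    rw [freeAct_of]
    exact Subgroup.subset_closure ⟨_, h a ha, rfl⟩
  | one => simp
  | mul x y _ _ hx hy => rw [map_mul]; exact mul_mem hx hy
  | inv x _ hx => rw [map_inv]; exact inv_mem hx

end Pool.Agent.Lib.MP_19b52f_al.EA
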