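import Pool.Agent.Lib.MP_19b52f_al.EA.Alt
import Pool.Agent.Lib.MP_19b52f_al.EA.Closed

/-! Graph powers of a group; their standard parabolic subgroups are closed. -/

namespace Pool.Agent.Lib.MP_19b52f_al.EA

open FreeGroup hiding map_mul map_inv map_one lift_unique
open SemidirectProduct (inl inr)

section sd
variable {D Ω : Type} [Group D] [MulAction D Ω]

lemma sd_comm {g : D} {ω : Ω} (h : g • ω = ω) : Commute (inl (of ω) : SD D Ω) (inr g) := by
  have := SemidirectProduct.inl_aut (φ := freeAct D Ω) g (of ω)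
  rw [freeAct_of, h, map_inv, eq_mul_inv_iff_mul_eq] at this
  exact this

lemma sd_left (x : SD D Ω) (ω ω' : Ω) (d : D) :
    (x * (inl (of ω) * inr d * (inl (of ω'))⁻¹)).left =
      x.left * of (x.right • ω) * (of ((x.right * d) • ω'))⁻¹ := by
  simp [mul_assoc, mul_smul]

end sd

variable {Λ : Type} (Γ : SimpleGraph Λ) (K : Type) [Group K]

/-- The relators of a graph power. -/
def gpRels : Set (FreeGroup (Λ × K)) :=
  {r | (∃ v k k', r = of (v, k) * of (v, k') * (of (v, k * k'))⁻¹) ∨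
    ∃ v w k k', Γ.Adj v w ∧ r = of (v, k) * of (w, k') * (of (w, k') * of (v, k))⁻¹}

/-- The graph product of copies of `K`. -/
abbrev GP : Type := PresentedGroup (gpRels Γ K)

variable {K}

/-- The vertex groups. -/
def gv (v : Λ) : K →* GP Γ K := MonoidHom.mk' (fun k => PresentedGroup.of (v, k)) (fun k k' => by
  have := PresentedGroup.one_of_mem (rels := gpRels Γ K) (Or.inl ⟨v, k, k', rfl⟩)
  simp only [map_mul, map_inv, mul_inv_eq_one] at this
  exact this.symm)

variable {Γ}

lemma gv_comm {v w : Λ} (h : Γ.Adj v w) (k k' : K) : Commute (gv Γ v k) (gv Γ w k') := by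
  have := PresentedGroup.one_of_mem (rels := gpRels Γ K) (Or.inr ⟨v, w, k, k', h, rfl⟩)
  simp only [map_mul, map_inv, mul_inv_eq_one] at this
  exact this

/-- The universal property. -/
def gpLift {H : Type} [Group H] (f : Λ → K →* H)
    (h : ∀ v w, Γ.Adj v w → ∀ k k', Commute (f v k) (f w k')) : GP Γ K →* H :=
  PresentedGroup.toGroup (f := fun p => f p.1 p.2) (by
    rintro r (⟨v, k, k', rfl⟩ | ⟨v, w, k, k', hvw, rfl⟩)
    · simp
    · simp only [map_mul, map_inv, lift_apply_of, mul_inv_eq_one]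
      exact (h v w hvw k k').eq)

@[simp] lemma gpLift_gv {H : Type} [Group H] (f : Λ → K →* H) (h) (v : Λ) (k : K) :
    gpLift (Γ := Γ) f h (gv Γ v k) = f v k := PresentedGroup.toGroup.of _

lemma gp_ext {H : Type} [Group H] {f g : GP Γ K →* H}
    (h : ∀ v k, f (gv Γ v k) = g (gv Γ v k)) : f = g :=
  PresentedGroup.ext (fun p => h p.1 p.2)

variable (Γ K) in
/-- Standard parabolic subgroups. -/
def PX (X : Set Λ) : Subgroup (GP Γ K) := Subgroup.closure {x | ∃ v ∈ X, ∃ k, x = gv Γ v k}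

lemma gv_mem {X : Set Λ} {v : Λ} (h : v ∈ X) (k : K) : gv Γ v k ∈ PX Γ K X :=
  Subgroup.subset_closure ⟨v, h, k, rfl⟩

lemma PX_le {X : Set Λ} {S : Subgroup (GP Γ K)} (h : ∀ v ∈ X, ∀ k, gv Γ v k ∈ S) :
    PX Γ K X ≤ S := by
  rw [PX, Subgroup.closure_le]
  rintro _ ⟨v, hv, k, rfl⟩
  exact h v hv k

lemma PX_mono {X Y : Set Λ} (h : X ⊆ Y) : PX Γ K X ≤ PX Γ K Y :=
  PX_le fun _ hv k => gv_mem (h hv) k

lemma mem_PX_univ (g : GP Γ K) : g ∈ PX Γ K Set.univ :=
  PresentedGroup.generated_by _ _ (fun p => gv_mem (Set.mem_univ p.1) p.2) g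

lemma PX_empty {g : GP Γ K} (h : g ∈ PX Γ K ∅) : g = 1 :=
  Subgroup.mem_bot.mp (PX_le (S := ⊥) (fun _ hv => hv.elim) h)

lemma map_mem_of_PX {H : Type} [Group H] (f : GP Γ K →* H) {X : Set Λ} {S : Subgroup H}
    (h : ∀ v ∈ X, ∀ k, f (gv Γ v k) ∈ S) {g : GP Γ K} (hg : g ∈ PX Γ K X) : f g ∈ S :=
  PX_le (S := S.comap f) h hg

lemma eq_of_PX {H : Type} [Group H] {f f' : GP Γ K →* H} {X : Set Λ}
    (h : ∀ v ∈ X, ∀ k, f (gv Γ v k) = f' (gv Γ v k)) {g : GP Γ K} (hg : g ∈ PX Γ K X) :
    f g = f' g :=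
  PX_le (S := f.eqLocus f') h hg

lemma comm_PX {X : Set Λ} {v : Λ} (h : ∀ w ∈ X, Γ.Adj v w) (k : K) {g : GP Γ K}
    (hg : g ∈ PX Γ K X) : Commute (gv Γ v k) g := by
  refine PX_le (S := Subgroup.centralizer {gv Γ v k}) (fun w hw k' => ?_) hg _ rfl
  rintro _ rfl
  exact (gv_comm (h w hw) k k').eq

open Classical in
/-- The retraction onto a standard parabolic subgroup. -/
noncomputable def ret (X : Set Λ) : GP Γ K →* GP Γ K :=
  gpLift (fun v => if v ∈ X then gv Γ v else 1) (fun v w h k k' => by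
    by_cases hv : v ∈ X
    · by_cases hw : w ∈ X
      · simpa [hv, hw] using gv_comm h k k'
      · simp [hw]
    · simp [hv])

lemma ret_gv_mem {X : Set Λ} {v : Λ} (h : v ∈ X) (k : K) : ret X (gv Γ v k) = gv Γ v k := by
  simp [ret, h]

lemma ret_gv_not {X : Set Λ} {v : Λ} (h : v ∉ X) (k : K) : ret X (gv Γ v k) = 1 := by
  simp [ret, h]

lemma ret_of_mem {X : Set Λ} {g : GP Γ K} (h : g ∈ PX Γ K X) : ret X g = g :=
  eq_of_PX (f' := MonoidHom.id _) (fun _ hv k => ret_gv_mem hv k) h

lemma ret_mem_inter (X : Set Λ) {Y : Set Λ} {g : GP Γ K} (h : g ∈ PX Γ K Y) :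
    ret X g ∈ PX Γ K (X ∩ Y) := by
  refine map_mem_of_PX _ (fun v hv k => ?_) h
  by_cases h : v ∈ X
  · rw [ret_gv_mem h]; exact gv_mem (Set.mem_inter h hv) k
  · rw [ret_gv_not h]; exact one_mem _

lemma ret_mem (X : Set Λ) (g : GP Γ K) : ret X g ∈ PX Γ K X :=
  PX_mono Set.inter_subset_left (ret_mem_inter X (mem_PX_univ g))

lemma ret_ret {X Y : Set Λ} (h : X ⊆ Y) (g : GP Γ K) : ret X (ret Y g) = ret X g := by
  have : (ret X).comp (ret Y) = (ret X : GP Γ K →* GP Γ K) := gp_ext fun v k => by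
    by_cases hv : v ∈ Y
    · rw [MonoidHom.comp_apply, ret_gv_mem hv]
    · rw [MonoidHom.comp_apply, ret_gv_not hv, ret_gv_not (fun h' => hv (h h')), map_one]
  exact DFunLike.congr_fun this g

lemma mem_PX_inter {X Y : Set Λ} {g : GP Γ K} (h : g ∈ PX Γ K X) (h' : g ∈ PX Γ K Y) :
    g ∈ PX Γ K (X ∩ Y) := ret_of_mem h ▸ ret_mem_inter X h'

open Classical in
/-- The projection to a vertex group. -/
noncomputable def prj (v : Λ) : GP Γ K →* K :=
  gpLift (fun w => if w = v then MonoidHom.id K else 1) (fun a b h k k' => by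
    by_cases ha : a = v
    · have hb : b ≠ v := fun hb => h.ne (ha.trans hb.symm)
      simp [hb]
    · simp [ha])

lemma prj_gv (v : Λ) (k : K) : prj v (gv Γ v k) = k := by simp [prj]

lemma prj_gv_ne {v w : Λ} (h : w ≠ v) (k : K) : prj v (gv Γ w k) = 1 := by simp [prj, h]

lemma star_decomp {v : Λ} {Z : Set Λ} (hZ : ∀ w ∈ Z, Γ.Adj v w) {g : GP Γ K}
    (hg : g ∈ PX Γ K (insert v Z)) : ret Z g * gv Γ v (prj v g) = g := by
  let ψ : GP Γ K →* GP Γ K :=
    { toFun := fun x => ret Z x * gv Γ v (prj v x)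
      map_one' := by simp
      map_mul' := fun x y => by
        rw [map_mul, map_mul, map_mul]
        exact (comm_PX hZ _ (ret_mem Z y)).symm.mul_mul_mul_comm _ _ }
  refine eq_of_PX (f := ψ) (f' := MonoidHom.id _) (fun w hw k => ?_) hg
  change ret Z (gv Γ w k) * gv Γ v (prj v (gv Γ w k)) = gv Γ w k
  rcases hw with rfl | hw
  · rw [ret_gv_not (fun h => (hZ _ h).ne rfl), prj_gv, one_mul]
  · rw [ret_gv_mem hw, prj_gv_ne (hZ w hw).ne', map_one, mul_one]

lemma closed_erase (hK : Emb K) {Y : Set Λ} {v : Λ} (hv : v ∉ Y)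
    (h : Closed ((PX Γ K (Γ.neighborSet v)).comap (ret Y))) :
    Closed ((PX Γ K Y).comap (ret (insert v Y))) := by
  classical
  have hQ := h.inf (hK.closed_ker (prj (Γ := Γ) v))
  set Q := (PX Γ K (Γ.neighborSet v)).comap (ret Y) ⊓ (prj (Γ := Γ) v).ker with hQd
  let t : SD (GP Γ K) (GP Γ K ⧸ Q) := inl (of ((1 : GP Γ K) : GP Γ K ⧸ Q))
  have hw : ∀ w, Γ.Adj v w → ∀ k, Commute t (inr (gv Γ w k)) := by
    intro w hw k
    refine sd_comm ?_
    rw [MulAction.Quotient.smul_mk, smul_eq_mul, mul_one, eq_comm, QuotientGroup.eq, inv_one,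
      one_mul]
    refine ⟨?_, prj_gv_ne hw.ne' k⟩
    exact PX_mono Set.inter_subset_right (ret_mem_inter Y (gv_mem (X := Γ.neighborSet v) hw k))
  let η : GP Γ K →* SD (GP Γ K) (GP Γ K ⧸ Q) :=
    gpLift (fun w => if w = v then (MulAut.conj t).toMonoidHom.comp (inr.comp (gv Γ w))
      else inr.comp (gv Γ w)) (by
      have key : ∀ w, Γ.Adj v w → ∀ k k',
          Commute (t * inr (gv Γ v k) * t⁻¹) (inr (gv Γ w k')) := fun w h k k' =>
        ((hw w h k').mul_left ((gv_comm h k k').map inr)).mul_left (hw w h k').inv_left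
      intro a b hab k k'
      by_cases ha : a = v
      · subst ha
        simpa [hab.ne'] using key b hab k k'
      · by_cases hb : b = v
        · subst hb
          simpa [ha] using (key a hab.symm k' k).symm
        · simpa [ha, hb] using (gv_comm hab k k').map inr)
  have hr : ∀ g, (η g).right = g := by
    intro g
    have : SemidirectProduct.rightHom.comp η = MonoidHom.id _ := gp_ext fun w k => by
      by_cases h : w = v <;> simp [η, h, t]
    exact DFunLike.congr_fun this g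
  have h1 : ∀ g ∈ PX Γ K Y, η g = inr g := fun g hg =>
    eq_of_PX (fun w hw k => by
      have : w ≠ v := fun e => hv (e ▸ hw)
      simp [η, this]) hg
  have h2 : ∀ g ∈ PX Γ K (insert v (Γ.neighborSet v ∩ Y)), η g = t * inr g * t⁻¹ := fun g hg =>
    eq_of_PX (f' := (MulAut.conj t).toMonoidHom.comp inr) (fun w hw' k => by
      rcases hw' with rfl | hw'
      · simp [η]
      · have h3 : Γ.Adj v w := hw'.1
        simp [η, h3.ne', (hw w h3 k).eq]) hg
  have H : AltData (PX Γ K Y) (PX Γ K (insert v (Γ.neighborSet v ∩ Y)))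
      (fun g => (η g).left) (fun g => (g : GP Γ K ⧸ Q)) :=
    { h1 := by simp
      h2 := fun g g' hg => by simp [h1 g' hg]
      h3 := fun g g' hg => by
        rw [map_mul, h2 g' hg, sd_left, hr]
        simp
      h4 := fun g g' hg h3 => by
        rw [eq_comm, QuotientGroup.eq, inv_mul_cancel_left] at h3
        have h4 : g' ∈ PX Γ K (Γ.neighborSet v ∩ Y) := by
          rcases hg with hg | hg
          · have h5 : ret Y g' ∈ PX Γ K (Γ.neighborSet v) := h3.1
            rw [ret_of_mem hg] at h5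
            exact mem_PX_inter h5 hg
          · have h5 := star_decomp (fun w hw => hw.1) hg
            rw [show prj v g' = 1 from h3.2, map_one, mul_one] at h5
            exact h5 ▸ ret_mem _ _
        exact ⟨PX_mono Set.inter_subset_right h4, PX_mono (Set.subset_insert _ _) h4⟩ }
  have h5 := hQ.sd.comap (η.comp (ret (insert v Y)))
  have e : Subgroup.comap (η.comp (ret (insert v Y))) (inr : GP Γ K →* SD _ (GP Γ K ⧸ Q)).range =
      (PX Γ K Y).comap (ret (insert v Y)) := by
    ext g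
    simp only [Subgroup.mem_comap, MonoidHom.comp_apply]
    constructor
    · rintro ⟨x, hx⟩
      refine H.mem_of_eq_one (PX_le (fun w hw k => ?_) (ret_mem _ g)) (by rw [← hx]; rfl)
      rcases hw with rfl | hw
      · exact Subgroup.mem_sup_right (gv_mem (Set.mem_insert _ _) k)
      · exact Subgroup.mem_sup_left (gv_mem hw k)
    · intro hg
      exact ⟨_, (h1 _ hg).symm⟩
  rwa [e] at h5

lemma closed_comap_ret (hK : Emb K) (Y : Finset Λ) (X : Set Λ) :
    Closed ((PX Γ K X).comap (ret (Y : Set Λ))) := by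
  classical
  induction Y using Finset.strongInduction generalizing X with
  | H Y ih =>
    by_cases h : (Y : Set Λ) ⊆ X
    · have : (PX Γ K X).comap (ret (Y : Set Λ)) = ⊤ :=
        eq_top_iff.mpr fun g _ => PX_mono h (ret_mem _ g)
      rw [this]; exact closed_top
    · obtain ⟨v, hv, hvX⟩ := Set.not_subset.mp h
      have ih' := ih (Y.erase v) (Finset.erase_ssubset hv)
      have h1 := closed_erase (Γ := Γ) hK (Y := (Y.erase v : Finset Λ)) (v := v) (by simp) (ih' _)
      have e1 : insert v ((Y.erase v : Finset Λ) : Set Λ) = Y := by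
        rw [← Finset.coe_insert, Finset.insert_erase hv]
      rw [e1] at h1
      have hs : ((Y.erase v : Finset Λ) : Set Λ) ⊆ Y := Finset.coe_subset.mpr (Finset.erase_subset _ _)
      have e : (PX Γ K X).comap (ret (Y : Set Λ)) =
          (PX Γ K (Y.erase v : Finset Λ)).comap (ret (Y : Set Λ)) ⊓
            (PX Γ K X).comap (ret ((Y.erase v : Finset Λ) : Set Λ)) := by
        ext g
        simp only [Subgroup.mem_inf, Subgroup.mem_comap]
        constructor
        · intro hg
          refine ⟨PX_mono ?_ (mem_PX_inter hg (ret_mem _ g)), ?_⟩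
          · rintro w ⟨h1, h2⟩
            simp only [Finset.coe_erase, Set.mem_sdiff, Set.mem_singleton_iff]
            exact ⟨h2, fun e => hvX (e ▸ h1)⟩
          · rw [← ret_ret hs]
            exact PX_mono Set.inter_subset_right (ret_mem_inter _ hg)
        · rintro ⟨h1, h2⟩
          rwa [← ret_ret hs, ret_of_mem h1] at h2
      rw [e]
      exact h1.inf (ih' X)

theorem emb_gp [Finite Λ] (hK : Emb K) : Emb (GP Γ K) := by
  have := Fintype.ofFinite Λ
  refine (closed_comap_ret (Γ := Γ) hK Finset.univ ∅).emb (fun g hg => ?_)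
  rw [Subgroup.mem_comap, Finset.coe_univ, ret_of_mem (mem_PX_univ g)] at hg
  exact PX_empty hg

end Pool.Agent.Lib.MP_19b52f_al.EA
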