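import Pool.Agent.Lib.MP_19b52f_al.EA.Defs

/-! In an even Coxeter matrix of FC type, two edges of a triangle at a common vertex cannot both have
a label above 2. -/

namespace Pool.Agent.Lib.MP_19b52f_al.EA

open Polynomial in
theorem tri_order {n : ℕ} (hn : Even n) (h0 : n ≠ 0) (h2 : n ≠ 2) :
    ∃ p : ℂ, ∀ u : Matrix (Fin 4) (Fin 4) ℂ, (u * u - p • u + 1) * (u * u - 1) = 0 → u ^ n = 1 := by
  have hζ := Complex.isPrimitiveRoot_exp n h0
  set ζ := Complex.exp (2 * Real.pi * Complex.I / n) with hζd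
  have hz0 : ζ ≠ 0 := hζ.ne_zero h0
  have h4 : 2 < n := by obtain ⟨k, rfl⟩ := hn; omega
  have hsq : ζ ^ 2 ≠ 1 := hζ.pow_ne_one_of_pos_of_lt two_ne_zero h4
  have a1 : ζ ≠ ζ⁻¹ := fun e => hsq (by rw [sq]; nth_rewrite 2 [e]; exact mul_inv_cancel₀ hz0)
  have a2 : ζ ≠ 1 := fun e => hsq (by rw [e]; norm_num)
  have a3 : ζ ≠ -1 := fun e => hsq (by rw [e]; norm_num)
  have a4 : ζ⁻¹ ≠ 1 := fun e => a2 (inv_eq_one.1 e)
  have a5 : ζ⁻¹ ≠ -1 := fun e => a3 (by rw [← inv_inv ζ, e]; norm_num)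
  have a6 : (1 : ℂ) ≠ -1 := by norm_num
  have hp : (X ^ n - C 1 : ℂ[X]) ≠ 0 := X_pow_sub_C_ne_zero (by omega) 1
  have hd : (({ζ, ζ⁻¹, 1, -1} : Multiset ℂ).map fun a => X - C a).prod ∣ X ^ n - C 1 := by
    rw [Multiset.prod_X_sub_C_dvd_iff_le_roots hp, Multiset.le_iff_subset (by simp [a1, a2, a3, a5, a6])]
    intro z hz
    simp only [Multiset.insert_eq_cons, Multiset.mem_cons, Multiset.mem_singleton] at hz
    rw [mem_roots hp, IsRoot, eval_sub, eval_pow, eval_X, eval_C, sub_eq_zero]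
    rcases hz with rfl | rfl | rfl | rfl
    · exact hζ.pow_eq_one
    · rw [inv_pow, hζ.pow_eq_one, inv_one]
    · exact one_pow n
    · exact hn.neg_one_pow
  have e : (({ζ, ζ⁻¹, 1, -1} : Multiset ℂ).map fun a => X - C a).prod
      = (X * X - C (ζ + ζ⁻¹) * X + 1) * (X * X - 1) := by
    have e1 : (C ζ * C ζ⁻¹ : ℂ[X]) = 1 := by rw [← C_mul, mul_inv_cancel₀ hz0, C_1]
    simp only [Multiset.insert_eq_cons, Multiset.map_cons, Multiset.prod_cons,
      Multiset.map_singleton, Multiset.prod_singleton, C_add, C_neg, C_1]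
    linear_combination (X * X - 1) * e1
  refine ⟨ζ + ζ⁻¹, fun u hu => ?_⟩
  obtain ⟨q, hq⟩ := hd
  have h5 := congrArg (aeval u) hq
  rw [e] at h5
  simp only [map_sub, map_mul, map_add, map_pow, aeval_X, aeval_C, map_one,
    Algebra.algebraMap_eq_smul_one, smul_mul_assoc, one_mul, ← add_smul] at h5
  rw [← sub_eq_zero, h5, hu, zero_mul]

theorem tri_swap {G : Type*} [Monoid G] {a b : G} {m : ℕ} (ha : a * a = 1)
    (h : (a * b) ^ m = 1) : (b * a) ^ m = 1 := by
  have h1 := mul_pow_mul a b m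
  rw [h, one_mul] at h1
  rw [← one_mul ((b * a) ^ m), ← ha, mul_assoc, ← h1]

/-- The reflection. -/
def triS (p q : ℂ) : Matrix (Fin 4) (Fin 4) ℂ := !![-1, p, q, 2; 0, 1, 0, 0; 0, 0, 1, 0; 0, 0, 0, 1]

/-- The first coordinate exchange. -/
def triT : Matrix (Fin 4) (Fin 4) ℂ := !![0, 1, 0, 0; 1, 0, 0, 0; 0, 0, 0, 1; 0, 0, 1, 0]

/-- The second coordinate exchange. -/
def triR : Matrix (Fin 4) (Fin 4) ℂ := !![0, 0, 1, 0; 0, 0, 0, 1; 1, 0, 0, 0; 0, 1, 0, 0]

theorem triS_sq (p q : ℂ) : triS p q * triS p q = 1 := by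
  ext i j
  fin_cases i <;> fin_cases j <;> simp [triS, Matrix.mul_apply, Fin.sum_univ_four]

theorem triT_sq : triT * triT = 1 := by
  ext i j
  fin_cases i <;> fin_cases j <;> simp [triT, Matrix.mul_apply, Fin.sum_univ_four]

theorem triR_sq : triR * triR = 1 := by
  ext i j
  fin_cases i <;> fin_cases j <;> simp [triR, Matrix.mul_apply, Fin.sum_univ_four]

theorem triTR_sq : (triT * triR) ^ 2 = 1 := by
  ext i j
  fin_cases i <;> fin_cases j <;> simp [triT, triR, sq, Matrix.mul_apply, Fin.sum_univ_four]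

theorem triST (p q : ℂ) : (triS p q * triT * (triS p q * triT) - p • (triS p q * triT) + 1) *
    (triS p q * triT * (triS p q * triT) - 1) = 0 := by
  ext i j
  fin_cases i <;> fin_cases j <;>
    simp [triS, triT, Matrix.mul_apply, Fin.sum_univ_four, Matrix.one_apply]

theorem triSR (p q : ℂ) : (triS p q * triR * (triS p q * triR) - q • (triS p q * triR) + 1) *
    (triS p q * triR * (triS p q * triR) - 1) = 0 := by
  ext i j
  fin_cases i <;> fin_cases j <;>
    simp [triS, triR, Matrix.mul_apply, Fin.sum_univ_four, Matrix.one_apply]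

theorem triSTR (p q : ℂ) (n : ℕ) :
    ((triS p q * triT * triR) ^ n).mulVec ![1, 0, 0, 0] = ![(n : ℂ) + 1, 0, 0, n] := by
  induction n with
  | zero => simp
  | succ n ih =>
    rw [pow_succ', ← Matrix.mulVec_mulVec, ih]
    ext i
    fin_cases i <;>
      simp [triS, triT, triR, Matrix.mulVec, dotProduct, Fin.sum_univ_four] <;> ring

/- Sketch. Suppose M s t = 2a, M s r = 2b with a, b ≥ 2, M t r = 2c, c ≥ 1. The Coxeter group of the
restriction to T = {s, t, r} is finite by hFC. Build an infinite quotient by affine maps of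
V = ℂ × ℂ × ℂ × ℂ (= ℂ² ⊗ ℂ²; or functions Bool × Bool → ℂ), with ζ = exp(π i / a), ξ = exp(π i / b):
on ℂ² put J(x,y) = (y,x), Jζ(x,y) = (ζ⁻¹ y, ζ x) (involutions, J Jζ = diag(ζ, ζ⁻¹)).
t = Jζ ⊗ 1, r = 1 ⊗ Jξ (commuting involutions, so (t r)^(2c) = 1), s = (J ⊗ J) + v with (J ⊗ J) v = -v.
Linear part of s t = diag(ζ,ζ⁻¹) ⊗ J has (2a)-th power 1 and no eigenvalue 1 (its square is
diag(ζ²,ζ⁻²) ⊗ 1, ζ² ≠ 1 as a ≥ 2), so the affine map s t has a fixed point and (s t)^(2a) = 1; same for s r.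
A finite group of affine maps fixes the barycentre of an orbit x; x fixed by t and r lies on the line
ℂ (1,ζ) ⊗ (1,ξ), and s x = x forces v = (1 - J ⊗ J) x, which lies on one line; the (-1)-eigenspace of
J ⊗ J is 2-dimensional, choose v off that line (v = e11 - e22 or e12 - e21). Any other proof is fine. -/
theorem fc_triangle {S : Type} (M : CoxeterMatrix S) (hE : IsEvenType M) (hFC : IsFCType M)
    {s t r : S} (hst : s ≠ t) (hsr : s ≠ r) (htr : t ≠ r) (h1 : M s t ≠ 0) (h2 : M s r ≠ 0)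
    (h3 : M t r ≠ 0) : M s t = 2 ∨ M s r = 2 := by
  classical
  by_contra hn
  push Not at hn
  obtain ⟨p, hp⟩ := tri_order (hE s t hst) h1 hn.1
  obtain ⟨q, hq⟩ := tri_order (hE s r hsr) h2 hn.2
  have c1 : (triS p q * triT) ^ M s t = 1 := hp _ (triST p q)
  have c2 : (triS p q * triR) ^ M s r = 1 := hq _ (triSR p q)
  have c3 : (triT * triR) ^ M t r = 1 := by
    obtain ⟨k, hk⟩ := hE t r htr
    rw [hk, ← two_mul, pow_mul, triTR_sq, one_pow]
  have d1 : (triT * triS p q) ^ M t s = 1 := M.symmetric s t ▸ tri_swap (triS_sq p q) c1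
  have d2 : (triR * triS p q) ^ M r s = 1 := M.symmetric s r ▸ tri_swap (triS_sq p q) c2
  have d3 : (triR * triT) ^ M r t = 1 := M.symmetric t r ▸ tri_swap triT_sq c3
  have hfin : Finite (restrict M {s, t, r}).Group := by
    refine hFC _ ?_
    have e1 := M.symmetric s t
    have e2 := M.symmetric s r
    have e3 := M.symmetric t r
    rintro x (rfl | rfl | rfl) y (rfl | rfl | rfl) <;> first | omega | simp
  let f : ({s, t, r} : Set S) → Matrix (Fin 4) (Fin 4) ℂ := fun x =>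
    if x.1 = s then triS p q else if x.1 = t then triT else triR
  have hf : (restrict M {s, t, r}).IsLiftable f := by
    have b1 := hst.symm
    have b2 := hsr.symm
    have b3 := htr.symm
    rintro ⟨x, hx⟩ ⟨y, hy⟩
    change (f _ * f _) ^ M x y = 1
    rcases hx with rfl | rfl | rfl <;> rcases hy with rfl | rfl | rfl <;>
      simp [f, triS_sq, triT_sq, triR_sq, *]
  set cs := (restrict M {s, t, r}).toCoxeterSystem with hcs
  have ho := (cs.lift ⟨f, hf⟩).isOfFinOrder (isOfFinOrder_of_finite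
    (cs.simple ⟨s, by simp⟩ * cs.simple ⟨t, by simp⟩ * cs.simple ⟨r, by simp⟩))
  simp only [map_mul, CoxeterSystem.lift_apply_simple] at ho
  obtain ⟨n, hn0, hn1⟩ := isOfFinOrder_iff_pow_eq_one.1 ho
  simp only [f, if_pos, if_neg hst.symm, if_neg hsr.symm, if_neg htr.symm] at hn1
  have h5 := congrFun (triSTR p q n) 3
  rw [hn1] at h5
  simp at h5
  exact hn0.ne' (by exact_mod_cast h5.symm)

end Pool.Agent.Lib.MP_19b52f_al.EA
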