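import Pool.Agent.Lib.MP_19b52f_al.EA.Dihedral
import Pool.Agent.Lib.MP_19b52f_al.EA.Amalg
import Pool.Agent.Lib.MP_19b52f_al.EA.Triangle

/-! The induction over the blocks and the two embedding theorems. -/

namespace Pool.Agent.Lib.MP_19b52f_al.EA

open Setup

variable {S I : Type} {B : Setup S I} {n : ℕ} {K : Type} [Group K]

lemma good_all [Finite I] [NeZero n] (M : CoxeterMatrix I) (hE : IsEvenType M) (hFC : IsFCType M)
    (hβ : ∀ s t, B.β s ≠ B.β t → B.N s t = M (B.β s) (B.β t))
    (h1 : ∀ s s' j, B.β s = B.β s' → j ≠ B.β s → M (B.β s) j ≠ 0 → M (B.β s) j ≠ 2 → s = s')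
    (hn : ∀ i j, M i j ≠ 0 → M i j ∣ n)
    (dg : K →* Multiplicative ℤ) (τ : K) (hτ : dg τ = Multiplicative.ofAdd 1)
    (κ : I → B.A →* K) (hκ1 : ∀ u s, B.β s ≠ u → κ u (ag B.N s) = 1)
    (hκ2 : ∀ u, ∀ g ∈ B.par {u}, κ u g = 1 → g = 1) (J : Finset I) : Good B n K (J : Set I) := by
  classical
  induction J using Finset.strongInduction with
  | H J ih =>
    by_cases hinf : ∃ u ∈ J, ∃ v ∈ J, u ≠ v ∧ ∀ s t, B.β s = u → B.β t = v → B.N s t = 0
    · obtain ⟨u, hu, v, hv, huv, h⟩ := hinf
      refine good_amalg dg τ hτ huv h ?_ ?_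
      · simpa using ih _ (Finset.erase_ssubset hu)
      · simpa using ih _ (Finset.erase_ssubset hv)
    have hfin : ∀ u ∈ J, ∀ v ∈ J, u ≠ v → M u v ≠ 0 ∧ ∃ s t, B.β s = u ∧ B.β t = v := by
      intro u hu v hv huv
      by_contra hc
      refine hinf ⟨u, hu, v, hv, huv, fun s t hs ht => ?_⟩
      rw [hβ s t (by rw [hs, ht]; exact huv), hs, ht]
      by_contra h0
      exact hc ⟨h0, s, t, hs, ht⟩
    rcases J.eq_empty_or_nonempty with rfl | ⟨u, hu⟩
    · simpa using good_empty
    by_cases h2 : ∀ v ∈ J, v ≠ u → M u v = 2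
    · have e : (J : Set I) = ({u} : Set I) ∪ ((J.erase u : Finset I) : Set I) := by
        rw [Set.singleton_union, ← Finset.coe_insert, Finset.insert_erase hu]
      rw [e]
      refine good_join (good_block u (κ u) (hκ1 u) (hκ2 u)) (ih _ (Finset.erase_ssubset hu))
        (by simp) (fun s t hs ht => ?_)
      have hs' : B.β s = u := hs
      have ht' := Finset.mem_erase.mp (Finset.mem_coe.mp ht)
      rw [hβ s t (hs' ▸ ht'.1.symm), hs', h2 _ ht'.2 ht'.1]
    · push Not at h2
      obtain ⟨v, hv, hvu, h2⟩ := h2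
      obtain ⟨h0, a, b, rfl, rfl⟩ := hfin u hu v hv hvu.symm
      obtain ⟨m, hm⟩ := hE _ _ hvu.symm
      obtain ⟨k, rfl⟩ : ∃ k, m = k + 2 := ⟨m - 2, by omega⟩
      have hd : Good B n K {B.β a, B.β b} := by
        refine good_dihedral dg τ hτ hvu.symm (fun s hs => (h1 a s _ hs.symm hvu h0 h2).symm)
          (fun s hs => (h1 b s _ hs.symm hvu.symm (M.symmetric _ _ ▸ h0)
            (M.symmetric _ _ ▸ h2)).symm) (k := k) (by rw [hβ a b hvu.symm, hm, two_mul]) ?_
        exact Dvd.dvd.trans ⟨2, by rw [hm, mul_two]⟩ (hn _ _ h0)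
      have e : (J : Set I) =
          {B.β a, B.β b} ∪ (((J.erase (B.β a)).erase (B.β b) : Finset I) : Set I) := by
        ext j
        by_cases e1 : j = B.β a
        · simp [e1, hu]
        · by_cases e2 : j = B.β b <;> simp [e1, e2, hv]
      rw [e]
      refine good_join hd (ih _ ((Finset.erase_subset _ _).trans_ssubset (Finset.erase_ssubset hu)))
        (by simp) (fun s t hs ht => ?_)
      obtain ⟨⟨t3, t2⟩, t1⟩ : (B.β t ∈ J ∧ B.β t ≠ B.β a) ∧ B.β t ≠ B.β b := by simpa using ht
      have f1 := (hfin _ hu _ t3 t2.symm).1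
      have f2 := (hfin _ hv _ t3 t1.symm).1
      rcases hs with hs | hs
      · rw [hβ s t (hs ▸ t2.symm), hs]
        exact (fc_triangle M hE hFC hvu.symm t2.symm t1.symm h0 f1 f2).resolve_left h2
      · have hs' : B.β s = B.β b := hs
        rw [hβ s t (hs' ▸ t1.symm), hs']
        exact (fc_triangle M hE hFC hvu t1.symm t2.symm (M.symmetric _ _ ▸ h0) f2 f1).resolve_left
          (M.symmetric _ _ ▸ h2)

variable (B n) in
/-- The elements whose degrees in the blocks of `J` vanish modulo `n`. -/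
def lev (J : Set I) : Subgroup B.A where
  carrier := {g | ∀ j ∈ J, B.ab n g j = 0}
  one_mem' := by simp
  mul_mem' := fun {_ _} ha hb j hj => by simp [ha j hj, hb j hj]
  inv_mem' := fun {_} ha j hj => by simp [ha j hj]

lemma Good.hom (h : Good B n K Set.univ) : ∃ (Λ : Type) (_ : Finite Λ) (Γ : SimpleGraph Λ)
    (f : lev B n Set.univ →* GP Γ K), Function.Injective f := by
  obtain ⟨D, hD⟩ := h
  have h0 : ∀ g : lev B n Set.univ, B.ab n g = 0 := fun g => funext fun j => g.2 j trivial
  refine ⟨D.Λ, D.fin, D.Γ, MonoidHom.mk' (fun g => D.c 0 g) (fun g h => ?_), ?_⟩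
  · rw [Subgroup.coe_mul, D.c_mul, h0, add_zero]
  · rw [injective_iff_map_eq_one]
    intro g hg
    obtain ⟨a, ha, b, hb, e⟩ := hD 0 ∅ ∅ g (mem_par_univ _) (h0 g)
      ⟨1, one_mem _, 1, one_mem _, by simpa using hg⟩
    rw [par_empty ha, par_empty hb, mul_one] at e
    exact Subtype.ext e

lemma emb_of_lev [Finite I] [NeZero n] (h : Emb (lev B n Set.univ)) : Emb B.A := by
  classical
  have := Fintype.ofFinite I
  have key : ∀ J : Finset I, Emb (lev B n (J : Set I)) → Emb B.A := by
    intro J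
    induction J using Finset.induction_on with
    | empty =>
      intro h
      exact h.of_injective ((MonoidHom.id _).codRestrict _ (fun g j hj => by simp at hj))
        (fun a b e => congrArg Subtype.val e)
    | insert j J hj ih =>
      intro h
      refine ih ?_
      by_cases hs : ∃ s, B.β s = j
      · obtain ⟨s, rfl⟩ := hs
        refine emb_of_cyclic ((B.deg (B.β s)).comp (lev B n J).subtype)
          ⟨ag B.N s, fun i hi => ab_ag_ne (fun e => hj (e ▸ hi))⟩ (by simp [deg]) n ?_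
        refine h.of_injective (((lev B n J).subtype.comp (Subgroup.subtype _)).codRestrict _
          (fun g i hi => ?_)) (fun a b e => Subtype.ext (Subtype.ext (by
            have h2 := congrArg Subtype.val e
            exact h2)))
        rcases Finset.mem_insert.mp (Finset.mem_coe.mp hi) with rfl | hi
        · exact mem_ker_redChar.mp g.2
        · exact g.1.2 i hi
      · refine h.of_injective ((lev B n J).subtype.codRestrict _ (fun g i hi => ?_))
          (fun a b e => Subtype.ext (by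
            have h2 := congrArg Subtype.val e
            exact h2))
        rcases Finset.mem_insert.mp (Finset.mem_coe.mp hi) with rfl | hi
        · exact ab_par (T := {i}ᶜ) (mem_of_ag (fun s => ag_mem (B := B) (T := {i}ᶜ)
            (fun e => hs ⟨s, e⟩)) _) i (by simp)
        · exact g.2 i hi
  refine key Finset.univ ?_
  rwa [Finset.coe_univ]

lemma exists_modulus [Finite I] (M : CoxeterMatrix I) :
    ∃ n : ℕ, n ≠ 0 ∧ ∀ i j, M i j ≠ 0 → M i j ∣ n := by
  classical
  have := Fintype.ofFinite I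
  refine ⟨∏ p : I × I, if M p.1 p.2 = 0 then 1 else M p.1 p.2, ?_, fun i j h => ?_⟩
  · refine Finset.prod_ne_zero_iff.mpr (fun p _ => ?_)
    split_ifs with h
    · exact one_ne_zero
    · exact h
  · have := Finset.dvd_prod_of_mem (fun p : I × I => if M p.1 p.2 = 0 then 1 else M p.1 p.2)
      (Finset.mem_univ (i, j))
    simpa [h] using this

lemma eq_one_of_deg {u : I} (hu : ∀ s s', B.β s = u → B.β s' = u → s = s') {g : B.A}
    (hg : g ∈ B.par {u}) (h : B.deg u g = 1) : g = 1 := by
  by_cases hs : ∃ s, B.β s = u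
  · obtain ⟨s, hs⟩ := hs
    obtain ⟨k, rfl⟩ : g ∈ Subgroup.zpowers (ag B.N s) :=
      par_le (fun s' hs' => by rw [hu s' s hs' hs]; exact Subgroup.mem_zpowers _) hg
    have : k = 0 := by simpa [deg, hs, ← ofAdd_zsmul] using h
    simp [this]
  · exact Subgroup.mem_bot.mp (par_le (H := ⊥) (fun s hs' => absurd ⟨s, hs'⟩ hs) hg)

lemma block_hom (u : I) : ∃ r : B.A →* Artin (restrict B.N {s | B.β s = u}),
    (∀ s, B.β s ≠ u → r (ag B.N s) = 1) ∧ ∀ g ∈ B.par {u}, r g = 1 → g = 1 := by
  classical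
  let r : B.A →* Artin (restrict B.N {s | B.β s = u}) := B.killLift {u}
    (fun s => if h : B.β s = u then ag _ ⟨s, h⟩ else 1) (fun s hs => dif_neg hs)
    (fun s t hs ht hst h0 => by
      have hs' : B.β s = u := hs
      have ht' : B.β t = u := ht
      rw [dif_pos hs', dif_pos ht']
      exact ag_rel (restrict B.N {s | B.β s = u}) (s := ⟨s, hs'⟩) (t := ⟨t, ht'⟩)
        (fun e => hst (congrArg Subtype.val e)) h0)
  let i : Artin (restrict B.N {s | B.β s = u}) →* B.A := artinLift _ (fun s => ag B.N s.1)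
    (fun s t hst h0 => ag_rel B.N (fun e => hst (Subtype.ext e)) h0)
  refine ⟨r, fun s hs => by simp [r, hs], fun g hg h => ?_⟩
  have : (i.comp r) g = MonoidHom.id _ g := eq_of_par (fun s hs => by
    have hs' : B.β s = u := hs
    simp [i, r, hs']) hg
  simpa [h] using this.symm

lemma exists_target [Finite I] (m : I → ℕ) (r : ∀ u, B.A →* Br (m u) × Multiplicative ℤ) :
    ∃ (K : Type) (_ : Group K) (dg : K →* Multiplicative ℤ) (τ : K) (κ : I → B.A →* K),
      Emb K ∧ dg τ = Multiplicative.ofAdd 1 ∧ ∀ u g, κ u g = 1 ↔ r u g = 1 := by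
  classical
  refine ⟨(∀ u, Br (m u) × Multiplicative ℤ) × Multiplicative ℤ, inferInstance,
    MonoidHom.snd _ _, (1, Multiplicative.ofAdd 1),
    fun u => (MonoidHom.inl _ _).comp ((MonoidHom.mulSingle _ u).comp (r u)),
    (emb_pi _ (fun u => (emb_br _).prod emb_int)).prod emb_int, rfl, fun u g => ⟨fun e => ?_,
      fun e => by rw [MonoidHom.comp_apply, MonoidHom.comp_apply, e, map_one, map_one]⟩⟩
  have h2 : Pi.mulSingle (M := fun u => Br (m u) × Multiplicative ℤ) u (r u g) u = 1 :=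
    congrFun (congrArg Prod.fst e) u
  rwa [Pi.mulSingle_eq_same] at h2

lemma emb_setup [Finite I] (M : CoxeterMatrix I) (hE : IsEvenType M) (hFC : IsFCType M)
    (hβ : ∀ s t, B.β s ≠ B.β t → B.N s t = M (B.β s) (B.β t))
    (h1 : ∀ s s' j, B.β s = B.β s' → j ≠ B.β s → M (B.β s) j ≠ 0 → M (B.β s) j ≠ 2 → s = s')
    (hB : ∀ i, (∃ s s', s ≠ s' ∧ B.β s = i ∧ B.β s' = i) →
      EmbedsInBraidGroup (Artin (restrict B.N {s | B.β s = i}))) : Emb B.A := by
  obtain ⟨n, hn0, hn⟩ := exists_modulus M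
  have : NeZero n := ⟨hn0⟩
  have hblock : ∀ u, ∃ (m : ℕ) (r : B.A →* Br m × Multiplicative ℤ),
      (∀ s, B.β s ≠ u → r (ag B.N s) = 1) ∧ ∀ g ∈ B.par {u}, r g = 1 → g = 1 := by
    intro u
    by_cases h : ∃ s s', s ≠ s' ∧ B.β s = u ∧ B.β s' = u
    · obtain ⟨m, f, hf⟩ := hB u h
      obtain ⟨r, h2, h3⟩ := block_hom (B := B) u
      refine ⟨m, (MonoidHom.inl _ _).comp (f.comp r), fun s hs => ?_,
        fun g hg e => h3 g hg (hf ?_)⟩
      · rw [MonoidHom.comp_apply, MonoidHom.comp_apply, h2 s hs, map_one, map_one]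
      · rw [map_one]
        exact congrArg Prod.fst e
    · refine ⟨0, (MonoidHom.inr _ _).comp (B.deg u), fun s hs => ?_,
        fun g hg e => eq_one_of_deg (fun s s' h2 h3 => ?_) hg (congrArg Prod.snd e)⟩
      · rw [MonoidHom.comp_apply, show B.deg u (ag B.N s) = 1 by simp [deg, hs], map_one]
      · by_contra hne
        exact h ⟨s, s', hne, h2, h3⟩
  choose m r hr1 hr2 using hblock
  obtain ⟨K, _, dg, τ, κ, hK, hτ, hκ⟩ := exists_target m r
  have := Fintype.ofFinite I
  have hG := good_all (n := n) M hE hFC hβ h1 hn dg τ hτ κ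
    (fun u s hs => (hκ _ _).mpr (hr1 u s hs))
    (fun u g hg e => hr2 u g hg ((hκ _ _).mp e)) Finset.univ
  rw [Finset.coe_univ] at hG
  obtain ⟨Λ, _, Γ, f, hf⟩ := hG.hom
  exact emb_of_lev ((emb_gp hK).of_injective f hf)

theorem braid_embedding {I S : Type} [Finite I] (M : CoxeterMatrix I) (hE : IsEvenType M)
    (hFC : IsFCType M) (N : CoxeterMatrix S) (β : S → I)
    (hβ : ∀ s t, β s ≠ β t → N s t = M (β s) (β t))
    (h1 : ∀ s s' j, β s = β s' → j ≠ β s → M (β s) j ≠ 0 → M (β s) j ≠ 2 → s = s')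
    (hB : ∀ i, (∃ s s', s ≠ s' ∧ β s = i ∧ β s' = i) →
      EmbedsInBraidGroup (Artin (restrict N {s | β s = i}))) :
    EmbedsInBraidGroup (Artin N) :=
  emb_iff.mp (emb_setup (B := ⟨N, β, fun s t h => by rw [hβ s t h]; exact hE _ _ h⟩)
    M hE hFC hβ h1 hB)

open Classical in
/-- The right-angled Coxeter matrix of a finite graph. -/
noncomputable def raMatrix {Λ : Type} (Γ : SimpleGraph Λ) {k : ℕ} (e : Fin k ≃ Λ) :
    CoxeterMatrix (Fin k) where
  M := Matrix.of fun i j => if i = j then 1 else if Γ.Adj (e i) (e j) then 2 else 0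
  isSymm := by
    ext i j
    simp only [Matrix.transpose_apply, Matrix.of_apply, eq_comm (a := j), Γ.adj_comm (e j)]
  diagonal i := by simp
  off_diagonal i j h := by
    simp only [Matrix.of_apply, if_neg h]
    split_ifs <;> decide

theorem virtually_raag {S : Type} [Finite S] (M : CoxeterMatrix S) (hE : IsEvenType M)
    (hFC : IsFCType M) : ∃ (H : Subgroup (Artin M)) (k : ℕ) (R : CoxeterMatrix (Fin k))
      (f : H →* Artin R), H.FiniteIndex ∧ IsRightAngled R ∧ Function.Injective f := by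
  classical
  let B : Setup S S := ⟨M, id, hE⟩
  obtain ⟨n, hn0, hn⟩ := exists_modulus M
  have : NeZero n := ⟨hn0⟩
  have := Fintype.ofFinite S
  have hG := good_all (B := B) (n := n) (K := Multiplicative ℤ) M hE hFC (fun _ _ _ => rfl)
    (fun _ _ _ h _ _ _ => h) hn (MonoidHom.id _) (Multiplicative.ofAdd 1) rfl B.deg
    (fun u s hs => by simp [deg, hs])
    (fun u g hg e => eq_one_of_deg (fun s s' h2 h3 => h2.trans h3.symm) hg e) Finset.univ
  rw [Finset.coe_univ] at hG
  obtain ⟨Λ, _, Γ, f, hf⟩ := hG.hom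
  obtain ⟨k, ⟨e⟩⟩ := Finite.exists_equiv_fin Λ
  have hR : ∀ i j, i ≠ j → raMatrix Γ e.symm i j =
      if Γ.Adj (e.symm i) (e.symm j) then 2 else 0 := fun i j h => by
    simp [raMatrix, h]
  let p : GP Γ (Multiplicative ℤ) →* Artin (raMatrix Γ e.symm) :=
    gpLift (fun v => zpowersHom _ (ag _ (e v))) (fun v w h a b => by
      have hne : e v ≠ e w := e.injective.ne h.ne
      have h2 : raMatrix Γ e.symm (e v) (e w) = 2 := by simp [hR _ _ hne, h]
      have := ag_rel (raMatrix Γ e.symm) hne (by rw [h2]; decide)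
      rw [h2, omega_two, omega_two] at this
      exact Commute.zpow_zpow this _ _)
  let q : Artin (raMatrix Γ e.symm) →* GP Γ (Multiplicative ℤ) :=
    artinLift _ (fun i => gv Γ (e.symm i) (Multiplicative.ofAdd 1)) (fun i j h h0 => by
      rw [hR i j h] at h0 ⊢
      split_ifs at h0 ⊢ with h2
      · rw [omega_two, omega_two]
        exact (gv_comm h2 _ _).eq
      · exact absurd rfl h0)
  have hqp : q.comp p = MonoidHom.id _ := gp_ext fun v a => by
    simp only [MonoidHom.comp_apply, p, gpLift_gv, zpowersHom_apply, map_zpow, q, artinLift_ag,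
      Equiv.symm_apply_apply, MonoidHom.id_apply]
    rw [← map_zpow, ← ofAdd_zsmul]
    simp
  refine ⟨lev B n Set.univ, k, raMatrix Γ e.symm, p.comp f, ?_, fun i j h => ?_, ?_⟩
  · let a : B.A →* Multiplicative (S → ZMod n) :=
      MonoidHom.mk' (fun g => Multiplicative.ofAdd (B.ab n g)) (fun g h => by simp)
    refine Subgroup.finiteIndex_of_le (H := a.ker) (fun g hg j _ => ?_)
    exact congrFun (congrArg Multiplicative.toAdd (MonoidHom.mem_ker.mp hg)) j
  · rw [hR i j h]
    split_ifs <;> simp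
  · have hp : Function.LeftInverse q p := fun x => DFunLike.congr_fun hqp x
    exact hp.injective.comp hf

end Pool.Agent.Lib.MP_19b52f_al.EA
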